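import Pool.Agent.GE.Law

/-! # Neighbourhoods of the origin of an elliptic curve over a valued field (helper23) -/

namespace Pool.Agent.H23T

open WeierstrassCurve WeierstrassCurve.Affine Pool.Agent.GE

section val

variable {L : Type*} [Field L] {Γ₀ : Type*} [LinearOrderedCommGroupWithZero Γ₀]
  {v : Valuation L Γ₀}

lemma Iadd {x y : L} (hx : v x ≤ 1) (hy : v y ≤ 1) : v (x + y) ≤ 1 := v.map_add_le hx hy

lemma Isub {x y : L} (hx : v x ≤ 1) (hy : v y ≤ 1) : v (x - y) ≤ 1 := v.map_sub_le hx hy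

lemma Ineg {x : L} (hx : v x ≤ 1) : v (-x) ≤ 1 := by rwa [v.map_neg]

lemma Imul {x y : L} (hx : v x ≤ 1) (hy : v y ≤ 1) : v (x * y) ≤ 1 := by
  rw [v.map_mul]; exact mul_le_one' hx hy

lemma Ipow {x : L} (hx : v x ≤ 1) (n : ℕ) : v (x ^ n) ≤ 1 := by
  rw [v.map_pow]; exact pow_le_one' hx n

lemma Ione : v (1 : L) ≤ 1 := v.map_one.le

lemma Izero : v (0 : L) ≤ 1 := by rw [v.map_zero]; exact zero_le

lemma Inat (n : ℕ) : v (n : L) ≤ 1 := by
  induction n with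
  | zero => simp
  | succ n ih => push_cast; exact Iadd ih Ione

lemma IofNat (n : ℕ) [n.AtLeastTwo] : v (OfNat.ofNat n : L) ≤ 1 := Inat (v := v) n

lemma Jadd {ρ : Γ₀} {x y : L} (hx : v x ≤ ρ) (hy : v y ≤ ρ) : v (x + y) ≤ ρ := v.map_add_le hx hy

lemma Jmul {ρ : Γ₀} {x y : L} (hx : v x ≤ ρ) (hy : v y ≤ 1) : v (x * y) ≤ ρ := by
  rw [v.map_mul]
  calc v x * v y ≤ ρ * 1 := mul_le_mul' hx hy
    _ = ρ := mul_one _

lemma Jmul' {ρ : Γ₀} {x y : L} (hx : v x ≤ 1) (hy : v y ≤ ρ) : v (x * y) ≤ ρ := by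
  rw [mul_comm]; exact Jmul hy hx

end val

variable {L : Type*} [Field L] {Γ₀ : Type*} [LinearOrderedCommGroupWithZero Γ₀]
  (v : Valuation L Γ₀)

/-- the second addition law near the origin -/
lemma law2_near {a b z₁ w₁ z₂ w₂ : L} {ρ : Γ₀} (ha : v a ≤ 1) (hb : v b ≤ 1) (hρ : ρ < 1)
    (hz₁ : v z₁ ≤ ρ) (hw₁ : v w₁ ≤ ρ) (hz₂ : v z₂ ≤ ρ) (hw₂ : v w₂ ≤ ρ) :
    v (law2 a b ![z₁, 1, w₁] ![z₂, 1, w₂] 1) = 1 ∧
    v (law2 a b ![z₁, 1, w₁] ![z₂, 1, w₂] 0) ≤ ρ ∧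
    v (law2 a b ![z₁, 1, w₁] ![z₂, 1, w₂] 2) ≤ ρ := by
  have iz₁ : v z₁ ≤ 1 := hz₁.trans hρ.le
  have iw₁ : v w₁ ≤ 1 := hw₁.trans hρ.le
  have iz₂ : v z₂ ≤ 1 := hz₂.trans hρ.le
  have iw₂ : v w₂ ≤ 1 := hw₂.trans hρ.le
  refine ⟨?_, ?_, ?_⟩
  · have e : law2 a b ![z₁, 1, w₁] ![z₂, 1, w₂] 1 = 1 + (z₁ * (3 * a * z₁ * z₂ ^ 2 +
        9 * b * z₂ * (z₁ * w₂ + z₂ * w₁) - a ^ 2 * w₂ * (z₁ * w₂ + 2 * (z₂ * w₁))) +
        w₁ * (-(a ^ 2 * z₂ * (2 * (z₁ * w₂) + z₂ * w₁)) - 3 * a * b * w₂ * (z₁ * w₂ + z₂ * w₁) -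
        (a ^ 3 + 9 * b ^ 2) * (w₁ * w₂ ^ 2))) := by
      simp only [law2, Matrix.cons_val_zero, Matrix.cons_val_one, Matrix.cons_val]
      ring
    rw [e]
    apply v.map_one_add_of_lt
    refine lt_of_le_of_lt (Jadd (Jmul hz₁ ?_) (Jmul hw₁ ?_)) hρ
    · repeat' first | assumption | exact Ione | exact Izero | exact IofNat _ | exact Inat _ | apply Iadd | apply Isub | apply Ineg | apply Ipow | apply Imul
    · repeat' first | assumption | exact Ione | exact Izero | exact IofNat _ | exact Inat _ | apply Iadd | apply Isub | apply Ineg | apply Ipow | apply Imul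
  · have e : law2 a b ![z₁, 1, w₁] ![z₂, 1, w₂] 0 = (z₁ + z₂) * (1 - a * (z₁ * w₂ + z₂ * w₁) -
        3 * b * (w₁ * w₂)) + (w₁ + w₂) * (a ^ 2 * (w₁ * w₂) - a * (z₁ * z₂) -
        3 * b * (z₁ * w₂ + z₂ * w₁)) := by
      simp only [law2, Matrix.cons_val_zero, Matrix.cons_val_one, Matrix.cons_val]
      ring
    rw [e]
    refine Jadd (Jmul (Jadd hz₁ hz₂) ?_) (Jmul (Jadd hw₁ hw₂) ?_)
    · repeat' first | assumption | exact Ione | exact Izero | exact IofNat _ | exact Inat _ | apply Iadd | apply Isub | apply Ineg | apply Ipow | apply Imul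
    · repeat' first | assumption | exact Ione | exact Izero | exact IofNat _ | exact Inat _ | apply Iadd | apply Isub | apply Ineg | apply Ipow | apply Imul
  · have e : law2 a b ![z₁, 1, w₁] ![z₂, 1, w₂] 2 = (z₁ + z₂) * (3 * (z₁ * z₂) + a * (w₁ * w₂)) +
        (w₁ + w₂) * (1 + a * (z₁ * w₂ + z₂ * w₁) + 3 * b * (w₁ * w₂)) := by
      simp only [law2, Matrix.cons_val_zero, Matrix.cons_val_one, Matrix.cons_val]
      ring
    rw [e]
    refine Jadd (Jmul (Jadd hz₁ hz₂) ?_) (Jmul (Jadd hw₁ hw₂) ?_)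
    · repeat' first | assumption | exact Ione | exact Izero | exact IofNat _ | exact Inat _ | apply Iadd | apply Isub | apply Ineg | apply Ipow | apply Imul
    · repeat' first | assumption | exact Ione | exact Izero | exact IofNat _ | exact Inat _ | apply Iadd | apply Isub | apply Ineg | apply Ipow | apply Imul

lemma law2_scale {a b : L} {p q : Fin 3 → L} (hp : p 1 ≠ 0) (hq : q 1 ≠ 0) (k : Fin 3) :
    law2 a b p q k = (p 1 ^ 2 * q 1 ^ 2) *
      law2 a b ![p 0 / p 1, 1, p 2 / p 1] ![q 0 / q 1, 1, q 2 / q 1] k := by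
  fin_cases k
  · simp only [law2, Matrix.cons_val_zero, Matrix.cons_val_one, Matrix.cons_val, Fin.zero_eta]
    field_simp
  · simp only [law2, Matrix.cons_val_zero, Matrix.cons_val_one, Matrix.cons_val, Fin.mk_one]
    field_simp
  · simp only [law2, Matrix.cons_val_zero, Matrix.cons_val_one, Matrix.cons_val,
      Fin.reduceFinMk]
    field_simp

variable {W : Affine L}

/-- `P` is at distance at most `ρ` from the origin -/
def InBall (ρ : Γ₀) (P : W.Point) : Prop :=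
  coords P 1 ≠ 0 ∧ v (coords P 0) ≤ ρ * v (coords P 1) ∧ v (coords P 2) ≤ ρ * v (coords P 1)

lemma inBall_zero (ρ : Γ₀) : InBall v ρ (0 : W.Point) := by
  simp [InBall, coords]

variable {v}

lemma InBall.mono {ρ σ : Γ₀} (h : ρ ≤ σ) {P : W.Point} (hP : InBall v ρ P) : InBall v σ P :=
  ⟨hP.1, hP.2.1.trans (mul_le_mul_left h _), hP.2.2.trans (mul_le_mul_left h _)⟩

variable [W.IsShortNF]

lemma InBall.neg {ρ : Γ₀} [DecidableEq L] {P : W.Point} (hP : InBall v ρ P) : InBall v ρ (-P) := by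
  match P, hP with
  | 0, hP => exact hP
  | .some x y h, ⟨h1, h2, h3⟩ =>
    rw [Point.neg_some]
    unfold InBall at *
    simp only [coords, negY_eq, Matrix.cons_val_zero, Matrix.cons_val_one, Matrix.cons_val, v.map_neg,
      neg_ne_zero] at *
    exact ⟨h1, h2, h3⟩

lemma InBall.add [CharZero L] [DecidableEq L] {ρ : Γ₀} (ha : v W.a₄ ≤ 1) (hb : v W.a₆ ≤ 1)
    (hρ : ρ < 1) {P Q : W.Point} (hP : InBall v ρ P) (hQ : InBall v ρ Q) :
    InBall v ρ (P + Q) := by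
  obtain ⟨l, hl⟩ := law2_spec W P Q
  obtain ⟨p1, p2, p3⟩ := hP
  obtain ⟨q1, q2, q3⟩ := hQ
  have hdiv : ∀ {x y : L}, y ≠ 0 → v x ≤ ρ * v y → v (x / y) ≤ ρ := fun {x y} hy h => by
    rw [map_div₀]
    exact (div_le_iff₀ (zero_lt_iff.mpr ((v.ne_zero_iff).mpr hy))).mpr h
  obtain ⟨h1, h0, h2⟩ := law2_near v ha hb hρ (hdiv p1 p2) (hdiv p1 p3) (hdiv q1 q2) (hdiv q1 q3)
  set c : L := coords P 1 ^ 2 * coords Q 1 ^ 2 with hc
  have hc0 : c ≠ 0 := mul_ne_zero (pow_ne_zero 2 p1) (pow_ne_zero 2 q1)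
  have hvc : 0 < v c := zero_lt_iff.mpr ((v.ne_zero_iff).mpr hc0)
  have e : ∀ k, v l * v (coords (P + Q) k) = v c * v (law2 W.a₄ W.a₆
      ![coords P 0 / coords P 1, 1, coords P 2 / coords P 1]
      ![coords Q 0 / coords Q 1, 1, coords Q 2 / coords Q 1] k) := fun k => by
    rw [← v.map_mul, ← v.map_mul, ← hl, law2_scale p1 q1]
  have e1 := e 1
  rw [h1, mul_one] at e1
  have hl0 : 0 < v l := by
    rw [zero_lt_iff]
    intro h
    rw [h, zero_mul] at e1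
    exact hvc.ne e1
  refine ⟨?_, ?_, ?_⟩
  · intro h
    rw [h, v.map_zero, mul_zero] at e1
    exact hvc.ne e1
  · have := e 0
    refine le_of_mul_le_mul_left (?_ : v l * _ ≤ v l * _) hl0
    rw [this, mul_left_comm, e1, mul_comm ρ]
    exact mul_le_mul_right h0 _
  · have := e 2
    refine le_of_mul_le_mul_left (?_ : v l * _ ≤ v l * _) hl0
    rw [this, mul_left_comm, e1, mul_comm ρ]
    exact mul_le_mul_right h2 _

/-- the balls are subgroups -/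
def ball [CharZero L] [DecidableEq L] (ha : v W.a₄ ≤ 1) (hb : v W.a₆ ≤ 1) {ρ : Γ₀} (hρ : ρ < 1) :
    AddSubgroup W.Point where
  carrier := {P | InBall v ρ P}
  zero_mem' := inBall_zero v ρ
  add_mem' := fun hP hQ => InBall.add ha hb hρ hP hQ
  neg_mem' := fun hP => InBall.neg hP

end Pool.Agent.H23T
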