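import Pool.Agent.H23T.Sub

/-! # The ultrametric argument (helper23) -/

namespace Pool.Agent.H23T

open WeierstrassCurve WeierstrassCurve.Affine Pool.Agent.GE

lemma exists_bound {Γ₀ : Type*} [LinearOrderedCommGroupWithZero Γ₀] {S : Type*} (F : Finset S)
    (s : S → Γ₀) {b : Γ₀} (hb : 0 < b) (h : ∀ τ ∈ F, s τ < b) : ∃ ρ < b, ∀ τ ∈ F, s τ ≤ ρ := by
  classical
  induction F using Finset.induction_on with
  | empty => exact ⟨0, hb, by simp⟩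
  | insert a F ha ih =>
    obtain ⟨ρ, h1, h2⟩ := ih fun τ hτ => h τ (Finset.mem_insert_of_mem hτ)
    refine ⟨max ρ (s a), max_lt h1 (h a (Finset.mem_insert_self _ _)), fun τ hτ => ?_⟩
    rcases Finset.mem_insert.mp hτ with rfl | hτ
    · exact le_max_right _ _
    · exact (h2 τ hτ).trans (le_max_left _ _)

lemma lt_of_weights {Γ₀ : Type*} [LinearOrderedCommGroupWithZero Γ₀] {s s₀ l l₀ : Γ₀}
    {w w₀ : ℕ} (h : s ^ w * l = 1) (h₀ : s₀ ^ w₀ * l₀ = 1) (hl : l₀ ^ w < l ^ w₀) : s < s₀ := by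
  by_contra hcon
  push Not at hcon
  have h1 : s₀ ^ (w * w₀) ≤ s ^ (w * w₀) := pow_le_pow_left' hcon _
  have e : s ^ (w * w₀) * l ^ w₀ = 1 := by rw [pow_mul, ← mul_pow, h, one_pow]
  have e₀ : s₀ ^ (w * w₀) * l₀ ^ w = 1 := by
    rw [mul_comm w, pow_mul, ← mul_pow, h₀, one_pow]
  have hs : 0 < s ^ (w * w₀) := zero_lt_iff.mpr (left_ne_zero_of_mul_eq_one e)
  have h2 : s₀ ^ (w * w₀) * l₀ ^ w < s ^ (w * w₀) * l ^ w₀ := by
    calc s₀ ^ (w * w₀) * l₀ ^ w ≤ s ^ (w * w₀) * l₀ ^ w := mul_le_mul_left h1 _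
      _ < s ^ (w * w₀) * l ^ w₀ := mul_lt_mul_of_pos_left hl hs
  rw [e, e₀] at h2
  exact lt_irrefl _ h2

variable {L : Type*} [Field L] [CharZero L] [DecidableEq L] {Γ₀ : Type*}
  [LinearOrderedCommGroupWithZero Γ₀] {v : Valuation L Γ₀} {W : Affine L} [W.IsShortNF]

theorem trace_argument (ha : v W.a₄ ≤ 1) (hb : v W.a₆ ≤ 1) {S : Type*} [Fintype S]
    (P : S → W.Point) (R : AddSubgroup W.Point) (l : S → Γ₀) (Q : S → Prop)
    (hR : ∀ c ∈ R, ∀ ρ < (1 : Γ₀), InBall v ρ c → c = 0) (hsum : ∑ τ, P τ ∈ R)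
    (hfar : ∀ τ, 1 < l τ → ∃ c ∈ R, ∃ w, w ∣ 15 ∧ ∃ s : Γ₀, s < 1 ∧ s ^ w * l τ = 1 ∧
      Exact v s (P τ - c))
    (hnear : ∀ τ, l τ ≤ 1 → ∀ c ∈ R, ∀ ρ < (1 : Γ₀), InBall v ρ (P τ - c) → Q τ)
    (hmin : ∀ w : S → ℕ, (∀ τ, w τ ∣ 15) → ∃ τ₀, ∀ τ, τ ≠ τ₀ → 1 < l τ ∧
      l τ₀ ^ w τ < l τ ^ w τ₀) :
    ∃ τ₀, l τ₀ ≤ 1 ∧ Q τ₀ := by
  classical
  have hdata : ∀ τ, ∃ (c : W.Point) (w : ℕ) (s : Γ₀), c ∈ R ∧ w ∣ 15 ∧ (1 < l τ → s < 1 ∧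
      s ^ w * l τ = 1 ∧ Exact v s (P τ - c)) := by
    intro τ
    by_cases h : 1 < l τ
    · obtain ⟨c, h1, w, h2, s, h3, h4, h5⟩ := hfar τ h
      exact ⟨c, w, s, h1, h2, fun _ => ⟨h3, h4, h5⟩⟩
    · exact ⟨0, 1, 0, R.zero_mem, one_dvd _, fun h' => absurd h' h⟩
  choose c w s hc hw hs using hdata
  obtain ⟨τ₀, hτ₀⟩ := hmin w hw
  have herase : ∀ f : S → W.Point, ∑ τ, f τ = f τ₀ + ∑ τ ∈ Finset.univ.erase τ₀, f τ :=
    fun f => (Finset.add_sum_erase _ _ (Finset.mem_univ _)).symm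
  by_cases h0 : l τ₀ ≤ 1
  · refine ⟨τ₀, h0, ?_⟩
    obtain ⟨ρ, hρ, hρ'⟩ := exists_bound (Finset.univ.erase τ₀) s (zero_lt_one)
      (fun τ hτ => (hs τ (hτ₀ τ (Finset.ne_of_mem_erase hτ)).1).1)
    have hmem : ∑ τ ∈ Finset.univ.erase τ₀, (P τ - c τ) ∈ ball (W := W) ha hb hρ := by
      refine AddSubgroup.sum_mem _ fun τ hτ => ?_
      exact (hs τ (hτ₀ τ (Finset.ne_of_mem_erase hτ)).1).2.2.1.mono (hρ' τ hτ)
    have e : P τ₀ - (∑ τ, P τ - ∑ τ ∈ Finset.univ.erase τ₀, c τ) =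
        -∑ τ ∈ Finset.univ.erase τ₀, (P τ - c τ) := by
      rw [herase, Finset.sum_sub_distrib]
      abel
    refine hnear τ₀ h0 (∑ τ, P τ - ∑ τ ∈ Finset.univ.erase τ₀, c τ)
      (R.sub_mem hsum (R.sum_mem fun τ _ => hc τ)) ρ hρ ?_
    rw [e]
    exact InBall.neg hmem
  · exfalso
    push Not at h0
    have hall : ∀ τ, 1 < l τ := fun τ => by
      by_cases h : τ = τ₀
      · rw [h]; exact h0
      · exact (hτ₀ τ h).1
    obtain ⟨ρ, hρ, hρ'⟩ := exists_bound Finset.univ s (zero_lt_one)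
      (fun τ _ => (hs τ (hall τ)).1)
    have hmem : ∑ τ, (P τ - c τ) ∈ ball (W := W) ha hb hρ := by
      refine AddSubgroup.sum_mem _ fun τ hτ => ?_
      exact (hs τ (hall τ)).2.2.1.mono (hρ' τ hτ)
    have hz : ∑ τ, (P τ - c τ) = 0 := by
      refine hR _ ?_ ρ hρ hmem
      rw [Finset.sum_sub_distrib]
      exact R.sub_mem hsum (R.sum_mem fun τ _ => hc τ)
    obtain ⟨h1, h2, h3⟩ := hs τ₀ h0
    have hs0 : 0 < s τ₀ := by
      rw [zero_lt_iff]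
      intro h
      have hw0 : w τ₀ ≠ 0 := by
        intro h'
        have := hw τ₀
        rw [h'] at this
        exact absurd (Nat.eq_zero_of_zero_dvd this) (by norm_num)
      rw [h, zero_pow hw0, zero_mul] at h2
      exact zero_ne_one h2
    obtain ⟨ρ', hρ1, hρ2⟩ := exists_bound (Finset.univ.erase τ₀) s hs0 (fun τ hτ => by
      have h4 := hτ₀ τ (Finset.ne_of_mem_erase hτ)
      exact lt_of_weights (hs τ h4.1).2.1 h2 h4.2)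
    have hmem' : ∑ τ ∈ Finset.univ.erase τ₀, (P τ - c τ) ∈
        ball (W := W) ha hb (hρ1.trans h1) := by
      refine AddSubgroup.sum_mem _ fun τ hτ => ?_
      exact (hs τ (hall τ)).2.2.1.mono (hρ2 τ hτ)
    refine h3.2 ρ' hρ1 ?_
    rw [herase, add_eq_zero_iff_eq_neg] at hz
    rw [hz]
    exact InBall.neg hmem'

end Pool.Agent.H23T
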