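import Mathlib

/-! # The trace of a point of an elliptic curve over a finite extension (helper23) -/

namespace Pool.Agent.H23T

open WeierstrassCurve WeierstrassCurve.Affine

/-- the sum of the conjugates of a point is a point over the base field -/
theorem trace_mem (E : WeierstrassCurve ℚ) {F K L : Type*} [Field F] [CharZero F] [Field K]
    [CharZero K] [Field L] [CharZero L] [Algebra F K] [Algebra F L] [IsGalois F L]
    [DecidableEq F] [DecidableEq K] [DecidableEq L] [Fintype (K →ₐ[F] L)] (Q : (E⁄K).Point) :
    ∑ τ : K →ₐ[F] L, Point.map (W' := E) τ Q ∈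
      (Point.map (W' := E) (Algebra.ofId F L)).range := by
  have hfix : ∀ σ : L ≃ₐ[F] L, Point.map (W' := E) (σ : L →ₐ[F] L)
      (∑ τ : K →ₐ[F] L, Point.map (W' := E) τ Q) = ∑ τ : K →ₐ[F] L, Point.map (W' := E) τ Q := by
    intro σ
    rw [map_sum]
    have h1 : ∀ τ : K →ₐ[F] L, Point.map (W' := E) (σ : L →ₐ[F] L) (Point.map (W' := E) τ Q) =
        Point.map (W' := E) ((σ : L →ₐ[F] L).comp τ) Q := fun τ => Point.map_map _ _ _
    simp_rw [h1]
    refine Fintype.sum_bijective (fun τ : K →ₐ[F] L => (σ : L →ₐ[F] L).comp τ) ?_ _ _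
      (fun τ => rfl)
    constructor
    · intro τ τ' h
      ext z
      have := congrArg (fun f : K →ₐ[F] L => f z) h
      simpa using this
    · intro τ
      refine ⟨(σ.symm : L →ₐ[F] L).comp τ, ?_⟩
      ext z
      simp
  set Y := ∑ τ : K →ₐ[F] L, Point.map (W' := E) τ Q with hY
  clear_value Y
  match Y, hfix with
  | 0, _ => exact AddSubgroup.zero_mem _
  | .some x y h, hfix =>
    have hx : ∀ σ : L ≃ₐ[F] L, σ x = x := fun σ => by
      have := hfix σ
      rw [Point.map_some, Point.some.injEq] at this
      exact this.1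
    have hy : ∀ σ : L ≃ₐ[F] L, σ y = y := fun σ => by
      have := hfix σ
      rw [Point.map_some, Point.some.injEq] at this
      exact this.2
    obtain ⟨a, rfl⟩ := (InfiniteGalois.mem_range_algebraMap_iff_fixed x).mpr hx
    obtain ⟨b, rfl⟩ := (InfiniteGalois.mem_range_algebraMap_iff_fixed y).mpr hy
    have hab : (E⁄F).Nonsingular a b :=
      (Affine.baseChange_nonsingular E (f := Algebra.ofId F L) (Algebra.ofId F L).injective a
        b).mp h
    exact ⟨Point.some a b hab, rfl⟩

/-- rational points are points over every field -/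
lemma rat_mem (E : WeierstrassCurve ℚ) {F L : Type*} [Field F] [CharZero F] [Field L]
    [CharZero L] [Algebra F L] [DecidableEq F] [DecidableEq L] {a b : ℚ} {x y : L}
    (h : (E⁄L).Nonsingular x y) (hx : x = (a : L)) (hy : y = (b : L)) :
    Point.some x y h ∈ (Point.map (W' := E) (Algebra.ofId F L)).range := by
  have hx' : x = Algebra.ofId F L (a : F) := by rw [hx]; simp
  have hy' : y = Algebra.ofId F L (b : F) := by rw [hy]; simp
  subst hx' hy'
  have hab : (E⁄F).Nonsingular (a : F) (b : F) :=
    (Affine.baseChange_nonsingular E (f := Algebra.ofId F L) (Algebra.ofId F L).injective _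
      _).mp h
  exact ⟨Point.some (a : F) (b : F) hab, rfl⟩

end Pool.Agent.H23T
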