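import Pool.Agent.H23T.Main2
import Pool.Agent.H23T.Sum
import Pool.Agent.H23T.Trace
import Pool.Agent.H42M.Points

/-! # The trace criterion for points of the two modular curves (helper23) -/

namespace Pool.Agent.H23T

open WeierstrassCurve WeierstrassCurve.Affine Pool.Agent.GE Pool.Agent.H42M

instance shortE1 {L : Type*} [Field L] [CharZero L] : (E1⁄L).IsShortNF where
  a₁ := by simp [E1]
  a₂ := by simp [E1]
  a₃ := by simp [E1]

instance shortE2 {L : Type*} [Field L] [CharZero L] : (E2⁄L).IsShortNF where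
  a₁ := by simp [E2]
  a₂ := by simp [E2]
  a₃ := by simp [E2]

lemma is1 {L : Type*} [Field L] [CharZero L] : Is1 (E1⁄L) where
  four := by simp [E1]
  six := by simp [E1]

lemma is2 {L : Type*} [Field L] [CharZero L] : Is2 (E2⁄L) where
  four := by simp [E2]
  six := by simp [E2]

section

lemma Tab1.map {F L : Type*} [Field F] [Field L] (φ : F →+* L) {x y : F} (h : Tab1 x y) :
    Tab1 (φ x) (φ y) := by
  rcases h with ⟨h1, h2⟩ | ⟨h1, h2⟩ | ⟨h1, h2⟩ | ⟨h1, h2 | h2⟩ | ⟨h1, h2 | h2⟩ <;>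
    rw [h1, h2] <;> simp only [map_neg, map_ofNat, map_zero]
  · exact Or.inl ⟨rfl, rfl⟩
  · exact Or.inr (Or.inl ⟨rfl, rfl⟩)
  · exact Or.inr (Or.inr (Or.inl ⟨rfl, rfl⟩))
  · exact Or.inr (Or.inr (Or.inr (Or.inl ⟨rfl, Or.inl rfl⟩)))
  · exact Or.inr (Or.inr (Or.inr (Or.inl ⟨rfl, Or.inr rfl⟩)))
  · exact Or.inr (Or.inr (Or.inr (Or.inr ⟨rfl, Or.inl rfl⟩)))
  · exact Or.inr (Or.inr (Or.inr (Or.inr ⟨rfl, Or.inr rfl⟩)))

lemma Tab2.map {F L : Type*} [Field F] [Field L] (φ : F →+* L) {x y : F} (h : Tab2 x y) :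
    Tab2 (φ x) (φ y) := by
  rcases h with ⟨h1, h2⟩ | ⟨h1, h2⟩ | ⟨h1, h2⟩ | ⟨h1, h2 | h2⟩ | ⟨h1, h2 | h2⟩ <;>
    rw [h1, h2] <;> simp only [map_neg, map_ofNat, map_zero]
  · exact Or.inl ⟨rfl, rfl⟩
  · exact Or.inr (Or.inl ⟨rfl, rfl⟩)
  · exact Or.inr (Or.inr (Or.inl ⟨rfl, rfl⟩))
  · exact Or.inr (Or.inr (Or.inr (Or.inl ⟨rfl, Or.inl rfl⟩)))
  · exact Or.inr (Or.inr (Or.inr (Or.inl ⟨rfl, Or.inr rfl⟩)))
  · exact Or.inr (Or.inr (Or.inr (Or.inr ⟨rfl, Or.inl rfl⟩)))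
  · exact Or.inr (Or.inr (Or.inr (Or.inr ⟨rfl, Or.inr rfl⟩)))

variable {F : Type*} [Field F] [NumberField F] [NumberField.IsTotallyReal F] [DecidableEq F]
  {L : Type*} [Field L] [CharZero L] [Algebra F L] [DecidableEq L]

omit [NumberField.IsTotallyReal F] in
lemma mem_of_isPt1 {c : (E1⁄L).Point} (hc : IsPt1 c) :
    c ∈ (Point.map (W' := E1) (Algebra.ofId F L)).range := by
  rcases hc with rfl | ⟨x, y, h, rfl, hT⟩
  · exact AddSubgroup.zero_mem _
  · rcases hT with ⟨h1, h2⟩ | ⟨h1, h2⟩ | ⟨h1, h2⟩ | ⟨h1, h2 | h2⟩ | ⟨h1, h2 | h2⟩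
    · exact rat_mem E1 h (a := -102) (b := 0) (by rw [h1]; simp) (by rw [h2]; simp)
    · exact rat_mem E1 h (a := -21) (b := 0) (by rw [h1]; simp) (by rw [h2]; simp)
    · exact rat_mem E1 h (a := 123) (b := 0) (by rw [h1]; simp) (by rw [h2]; simp)
    · exact rat_mem E1 h (a := 303) (b := 4860) (by rw [h1]; simp) (by rw [h2]; simp)
    · exact rat_mem E1 h (a := 303) (b := -4860) (by rw [h1]; simp) (by rw [h2]; simp)
    · exact rat_mem E1 h (a := -57) (b := 540) (by rw [h1]; simp) (by rw [h2]; simp)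
    · exact rat_mem E1 h (a := -57) (b := -540) (by rw [h1]; simp) (by rw [h2]; simp)

lemma isPt1_of_mem (H : Hyp F) {c : (E1⁄L).Point}
    (hc : c ∈ (Point.map (W' := E1) (Algebra.ofId F L)).range) : IsPt1 c := by
  obtain ⟨P, rfl⟩ := hc
  match P with
  | 0 => exact Or.inl rfl
  | .some x y h =>
    right
    have h1 : Tab1 x y := points_E1 H ((is1 (L := F)).eq h)
    exact ⟨algebraMap F L x, algebraMap F L y, _, Point.map_some _ h, h1.map _⟩

omit [NumberField.IsTotallyReal F] in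
lemma mem_of_isPt2 {c : (E2⁄L).Point} (hc : IsPt2 c) :
    c ∈ (Point.map (W' := E2) (Algebra.ofId F L)).range := by
  rcases hc with rfl | ⟨x, y, h, rfl, hT⟩
  · exact AddSubgroup.zero_mem _
  · rcases hT with ⟨h1, h2⟩ | ⟨h1, h2⟩ | ⟨h1, h2⟩ | ⟨h1, h2 | h2⟩ | ⟨h1, h2 | h2⟩
    · exact rat_mem E2 h (a := 51) (b := 0) (by rw [h1]; simp) (by rw [h2]; simp)
    · exact rat_mem E2 h (a := 42) (b := 0) (by rw [h1]; simp) (by rw [h2]; simp)
    · exact rat_mem E2 h (a := -93) (b := 0) (by rw [h1]; simp) (by rw [h2]; simp)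
    · exact rat_mem E2 h (a := 87) (b := 540) (by rw [h1]; simp) (by rw [h2]; simp)
    · exact rat_mem E2 h (a := 87) (b := -540) (by rw [h1]; simp) (by rw [h2]; simp)
    · exact rat_mem E2 h (a := 15) (b := 324) (by rw [h1]; simp) (by rw [h2]; simp)
    · exact rat_mem E2 h (a := 15) (b := -324) (by rw [h1]; simp) (by rw [h2]; simp)

lemma isPt2_of_mem (H : Hyp F) {c : (E2⁄L).Point}
    (hc : c ∈ (Point.map (W' := E2) (Algebra.ofId F L)).range) : IsPt2 c := by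
  obtain ⟨P, rfl⟩ := hc
  match P with
  | 0 => exact Or.inl rfl
  | .some x y h =>
    right
    have h1 : Tab2 x y := points_E2 H ((is2 (L := F)).eq h)
    exact ⟨algebraMap F L x, algebraMap F L y, _, Point.map_some _ h, h1.map _⟩

variable {Γ₀ : Type*} [LinearOrderedCommGroupWithZero Γ₀] {v : Valuation L Γ₀}

omit [DecidableEq L] in
lemma pt1_zero {c : (E1⁄L).Point} (hc : IsPt1 c) {ρ : Γ₀} (hρ : ρ < 1) (hP : InBall v ρ c) :
    c = 0 := by
  rcases hc with rfl | ⟨x, y, h, rfl, hT⟩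
  · rfl
  · have h1 := one_lt_of_inBall (is1.a4 v) (is1.a6 v) h hρ hP
    refine absurd h1 (not_lt.mpr ?_)
    rcases hT with ⟨h1, -⟩ | ⟨h1, -⟩ | ⟨h1, -⟩ | ⟨h1, -⟩ | ⟨h1, -⟩ <;>
      · rw [h1]; repeat' first | assumption | exact Ione | exact Izero | exact IofNat _ | exact Inat _ | apply Iadd | apply Isub | apply Ineg | apply Ipow | apply Imul

omit [DecidableEq L] in
lemma pt2_zero {c : (E2⁄L).Point} (hc : IsPt2 c) {ρ : Γ₀} (hρ : ρ < 1) (hP : InBall v ρ c) :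
    c = 0 := by
  rcases hc with rfl | ⟨x, y, h, rfl, hT⟩
  · rfl
  · have h1 := one_lt_of_inBall (is2.a4 v) (is2.a6 v) h hρ hP
    refine absurd h1 (not_lt.mpr ?_)
    rcases hT with ⟨h1, -⟩ | ⟨h1, -⟩ | ⟨h1, -⟩ | ⟨h1, -⟩ | ⟨h1, -⟩ <;>
      · rw [h1]; repeat' first | assumption | exact Ione | exact Izero | exact IofNat _ | exact Inat _ | apply Iadd | apply Isub | apply Ineg | apply Ipow | apply Imul

variable {K : Type*} [Field K] [CharZero K] [Algebra F K] [DecidableEq K] [IsGalois F L]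
  [Fintype (K →ₐ[F] L)]

theorem core1 (H : Hyp F) (g : Good v) {x y h j : K}
    (hxy : y ^ 2 = (x + 102) * (x + 21) * (x - 123)) (f : Fun1 x y h j)
    (hmin : ∀ w : (K →ₐ[F] L) → ℕ, (∀ τ, w τ ∣ 15) → ∃ τ₀, ∀ τ, τ ≠ τ₀ → 1 < v (τ j) ∧
      v (τ₀ j) ^ w τ < v (τ j) ^ w τ₀) :
    ∃ τ₀ : K →ₐ[F] L, v (τ₀ j) ≤ 1 ∧ ∃ z : L, Six z ∧ v (τ₀ j - z) < 1 := by
  have hns : (E1⁄K).Nonsingular x y :=
    is1.ns two_ne_zero three_ne_zero (OfNat.ofNat_ne_zero 5) hxy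
  have fτ : ∀ τ : K →ₐ[F] L, Fun1 (τ x) (τ y) (τ h) (τ j) := fun τ =>
    { x21 := fun h0 => f.x21 ((map_eq_zero τ).mp (by rw [map_add, map_ofNat]; exact h0))
      h0 := (map_ne_zero τ).mpr f.h0
      D := by
        have := congrArg τ f.D
        simpa only [map_add, map_sub, map_mul, map_neg, map_ofNat] using this
      J := by
        have := congrArg τ f.J
        simpa only [map_add, map_sub, map_mul, map_pow, map_ofNat] using this }
  refine trace_argument (W := E1⁄L) (is1.a4 v) (is1.a6 v)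
    (fun τ : K →ₐ[F] L => Point.map (W' := E1) τ (Point.some x y hns))
    (Point.map (W' := E1) (Algebra.ofId F L)).range (fun τ => v (τ j))
    (fun τ => ∃ z : L, Six z ∧ v (τ j - z) < 1) ?_ (trace_mem E1 _) ?_ ?_ hmin
  · intro c hc ρ hρ hP
    exact pt1_zero (isPt1_of_mem H hc) hρ hP
  · intro τ hτ
    obtain ⟨c, hc, w, hw, s, hs⟩ := far1 g is1
      ((Affine.baseChange_nonsingular E1 τ.injective x y).mpr hns) (fτ τ) hτ
    exact ⟨c, mem_of_isPt1 hc, w, hw, s, hs⟩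
  · intro τ hτ c hc ρ hρ hP
    refine near1 g is1 ((Affine.baseChange_nonsingular E1 τ.injective x y).mpr hns) (fτ τ) hτ
      (isPt1_of_mem H hc) hρ hP fun h1 => ?_
    exact pt1_zero (isPt1_of_mem H (AddSubgroup.add_mem _ hc hc)) hρ h1

theorem core2 (H : Hyp F) (g : Good v) {x y r m : K}
    (hxy : y ^ 2 = (x - 51) * (x - 42) * (x + 93)) (f : Fun2 x y r m)
    (hmin : ∀ w : (K →ₐ[F] L) → ℕ, (∀ τ, w τ ∣ 15) → ∃ τ₀, ∀ τ, τ ≠ τ₀ → 1 < v (τ (m ^ 3)) ∧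
      v (τ₀ (m ^ 3)) ^ w τ < v (τ (m ^ 3)) ^ w τ₀) :
    ∃ τ₀ : K →ₐ[F] L, v (τ₀ (m ^ 3)) ≤ 1 ∧ ∃ z : L, Six z ∧ v (τ₀ (m ^ 3) - z) < 1 := by
  have hns : (E2⁄K).Nonsingular x y :=
    is2.ns two_ne_zero three_ne_zero (OfNat.ofNat_ne_zero 5) hxy
  have fτ : ∀ τ : K →ₐ[F] L, Fun2 (τ x) (τ y) (τ r) (τ m) := fun τ =>
    { r0 := (map_ne_zero τ).mpr f.r0
      A := by
        have := congrArg τ f.A
        simpa only [map_add, map_sub, map_mul, map_neg, map_ofNat] using this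
      B := by
        have := congrArg τ f.B
        simpa only [map_add, map_sub, map_mul, map_neg, map_ofNat] using this
      M := by
        have := congrArg τ f.M
        simpa only [map_add, map_sub, map_mul, map_pow, map_ofNat] using this }
  simp only [map_pow] at hmin ⊢
  refine trace_argument (W := E2⁄L) (is2.a4 v) (is2.a6 v)
    (fun τ : K →ₐ[F] L => Point.map (W' := E2) τ (Point.some x y hns))
    (Point.map (W' := E2) (Algebra.ofId F L)).range (fun τ => v (τ m) ^ 3)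
    (fun τ => ∃ z : L, Six z ∧ v (τ m ^ 3 - z) < 1) ?_ (trace_mem E2 _) ?_ ?_ hmin
  · intro c hc ρ hρ hP
    exact pt2_zero (isPt2_of_mem H hc) hρ hP
  · intro τ hτ
    rw [← v.map_pow] at hτ ⊢
    obtain ⟨c, hc, w, hw, s, hs⟩ := far2 g is2
      ((Affine.baseChange_nonsingular E2 τ.injective x y).mpr hns) (fτ τ) hτ
    exact ⟨c, mem_of_isPt2 hc, w, hw, s, hs⟩
  · intro τ hτ c hc ρ hρ hP
    rw [← v.map_pow] at hτ
    refine near2 g is2 ((Affine.baseChange_nonsingular E2 τ.injective x y).mpr hns) (fτ τ) hτ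
      (isPt2_of_mem H hc) hρ hP fun h1 => ?_
    exact pt2_zero (isPt2_of_mem H (AddSubgroup.add_mem _ hc hc)) hρ h1

end

end Pool.Agent.H23T
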