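import Pool.Agent.H23T.Sub

/-! # The local parameter is additive to the first order (helper23) -/

namespace Pool.Agent.H23T

open WeierstrassCurve WeierstrassCurve.Affine Pool.Agent.GE

variable {L : Type*} [Field L] {Γ₀ : Type*} [LinearOrderedCommGroupWithZero Γ₀]
  {v : Valuation L Γ₀}

/-- the local parameter `x / y` at the origin -/
noncomputable def zc {W : Affine L} (P : W.Point) : L := coords P 0 / coords P 1

lemma zc_zero {W : Affine L} : zc (0 : W.Point) = 0 := by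
  simp [zc, coords]

lemma zc_some {W : Affine L} {x y : L} (h : W.Nonsingular x y) : zc (Point.some x y h) = x / y :=
  rfl

lemma JJmul {ρ : Γ₀} {x y : L} (hx : v x ≤ ρ) (hy : v y ≤ ρ) : v (x * y) ≤ ρ ^ 2 := by
  rw [v.map_mul, sq]; exact mul_le_mul' hx hy

lemma zc_law {a b z₁ w₁ z₂ w₂ : L} {ρ : Γ₀} (ha : v a ≤ 1) (hb : v b ≤ 1) (hρ : ρ < 1)
    (hz₁ : v z₁ ≤ ρ) (hw₁ : v w₁ ≤ ρ) (hz₂ : v z₂ ≤ ρ) (hw₂ : v w₂ ≤ ρ) :
    v (law2 a b ![z₁, 1, w₁] ![z₂, 1, w₂] 0 / law2 a b ![z₁, 1, w₁] ![z₂, 1, w₂] 1 -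
      (z₁ + z₂)) ≤ ρ ^ 2 := by
  obtain ⟨h1, h0, -⟩ := law2_near v ha hb hρ hz₁ hw₁ hz₂ hw₂
  have iz₁ : v z₁ ≤ 1 := hz₁.trans hρ.le
  have iw₁ : v w₁ ≤ 1 := hw₁.trans hρ.le
  have iz₂ : v z₂ ≤ 1 := hz₂.trans hρ.le
  have iw₂ : v w₂ ≤ 1 := hw₂.trans hρ.le
  set A0 := law2 a b ![z₁, 1, w₁] ![z₂, 1, w₂] 0 with hA0
  set A1 := law2 a b ![z₁, 1, w₁] ![z₂, 1, w₂] 1 with hA1
  have hne : A1 ≠ 0 := (v.ne_zero_iff).mp (by rw [h1]; exact one_ne_zero)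
  have e : A0 / A1 - (z₁ + z₂) = (A0 - (z₁ + z₂) * A1) / A1 := by
    field_simp
  rw [e, map_div₀, h1, div_one]
  have e2 : A0 - (z₁ + z₂) * A1 = (z₁ + z₂) * (z₁ * (-(3 * a * z₁ * z₂ ^ 2 +
        9 * b * z₂ * (z₁ * w₂ + z₂ * w₁) - a ^ 2 * w₂ * (z₁ * w₂ + 2 * (z₂ * w₁))) - a * w₂) +
        w₁ * ((a ^ 2 * z₂ * (2 * (z₁ * w₂) + z₂ * w₁)) + 3 * a * b * w₂ * (z₁ * w₂ + z₂ * w₁) +
        (a ^ 3 + 9 * b ^ 2) * (w₁ * w₂ ^ 2) - a * z₂ - 3 * b * w₂)) +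
        (w₁ + w₂) * (w₁ * (a ^ 2 * w₂ - 3 * b * z₂) + z₁ * (-(a * z₂) - 3 * b * w₂)) := by
    rw [hA0, hA1]
    simp only [law2, Matrix.cons_val_zero, Matrix.cons_val_one, Matrix.cons_val]
    ring
  rw [e2]
  refine v.map_add_le (JJmul (Jadd hz₁ hz₂) (Jadd (Jmul hz₁ ?_) (Jmul hw₁ ?_)))
    (JJmul (Jadd hw₁ hw₂) (Jadd (Jmul hw₁ ?_) (Jmul hz₁ ?_)))
  · repeat' first | assumption | exact Ione | exact Izero | exact IofNat _ | exact Inat _ | apply Iadd | apply Isub | apply Ineg | apply Ipow | apply Imul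
  · repeat' first | assumption | exact Ione | exact Izero | exact IofNat _ | exact Inat _ | apply Iadd | apply Isub | apply Ineg | apply Ipow | apply Imul
  · repeat' first | assumption | exact Ione | exact Izero | exact IofNat _ | exact Inat _ | apply Iadd | apply Isub | apply Ineg | apply Ipow | apply Imul
  · repeat' first | assumption | exact Ione | exact Izero | exact IofNat _ | exact Inat _ | apply Iadd | apply Isub | apply Ineg | apply Ipow | apply Imul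

variable {W : Affine L} [W.IsShortNF] [CharZero L] [DecidableEq L]

lemma zc_add {ρ : Γ₀} (ha : v W.a₄ ≤ 1) (hb : v W.a₆ ≤ 1) (hρ : ρ < 1) {P Q : W.Point}
    (hP : InBall v ρ P) (hQ : InBall v ρ Q) : v (zc (P + Q) - (zc P + zc Q)) ≤ ρ ^ 2 := by
  obtain ⟨s1, -, -⟩ := hP.add ha hb hρ hQ
  obtain ⟨l, hl⟩ := law2_spec W P Q
  obtain ⟨p1, p2, p3⟩ := hP
  obtain ⟨q1, q2, q3⟩ := hQ
  have hdiv : ∀ {x y : L}, y ≠ 0 → v x ≤ ρ * v y → v (x / y) ≤ ρ := fun {x y} hy h => by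
    rw [map_div₀]
    exact (div_le_iff₀ (zero_lt_iff.mpr ((v.ne_zero_iff).mpr hy))).mpr h
  have key := zc_law ha hb hρ (hdiv p1 p2) (hdiv p1 p3) (hdiv q1 q2) (hdiv q1 q3)
  obtain ⟨h1, -, -⟩ := law2_near v ha hb hρ (hdiv p1 p2) (hdiv p1 p3) (hdiv q1 q2) (hdiv q1 q3)
  have hne : law2 W.a₄ W.a₆ ![coords P 0 / coords P 1, 1, coords P 2 / coords P 1]
      ![coords Q 0 / coords Q 1, 1, coords Q 2 / coords Q 1] 1 ≠ 0 :=
    (v.ne_zero_iff).mp (by rw [h1]; exact one_ne_zero)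
  have hc0 : coords P 1 ^ 2 * coords Q 1 ^ 2 ≠ 0 :=
    mul_ne_zero (pow_ne_zero 2 p1) (pow_ne_zero 2 q1)
  have e0 := hl 0
  have e1 := hl 1
  rw [law2_scale p1 q1] at e0 e1
  have hl0 : l ≠ 0 := by
    rintro rfl
    rw [zero_mul] at e1
    exact mul_ne_zero hc0 hne e1
  have hz : zc (P + Q) = law2 W.a₄ W.a₆ ![coords P 0 / coords P 1, 1, coords P 2 / coords P 1]
      ![coords Q 0 / coords Q 1, 1, coords Q 2 / coords Q 1] 0 /
      law2 W.a₄ W.a₆ ![coords P 0 / coords P 1, 1, coords P 2 / coords P 1]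
      ![coords Q 0 / coords Q 1, 1, coords Q 2 / coords Q 1] 1 := by
    rw [zc, div_eq_div_iff s1 hne]
    apply mul_left_cancel₀ (mul_ne_zero hl0 hc0)
    have : ∀ A0 A1 c l X0 X1 : L, c * A0 = l * X0 → c * A1 = l * X1 →
        l * c * (X0 * A1) = l * c * (A0 * X1) := by
      intro A0 A1 c l X0 X1 h0 h1
      linear_combination -X1 * l * h0 + l * X0 * h1
    exact this _ _ _ _ _ _ e0 e1
  rw [hz]
  exact key

lemma zc_sum {ρ : Γ₀} (ha : v W.a₄ ≤ 1) (hb : v W.a₆ ≤ 1) (hρ : ρ < 1) {S : Type*}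
    (F : Finset S) (P : S → W.Point) (hP : ∀ τ ∈ F, InBall v ρ (P τ)) :
    v (zc (∑ τ ∈ F, P τ) - ∑ τ ∈ F, zc (P τ)) ≤ ρ ^ 2 := by
  classical
  induction F using Finset.induction_on with
  | empty => simp [zc_zero]
  | insert a F ha' ih =>
    have h1 := ih fun τ hτ => hP τ (Finset.mem_insert_of_mem hτ)
    have h2 : ∑ τ ∈ F, P τ ∈ ball (W := W) ha hb hρ :=
      AddSubgroup.sum_mem _ fun τ hτ => hP τ (Finset.mem_insert_of_mem hτ)
    have h3 := zc_add ha hb hρ (hP a (Finset.mem_insert_self _ _)) h2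
    rw [Finset.sum_insert ha', Finset.sum_insert ha']
    have e : zc (P a + ∑ τ ∈ F, P τ) - (zc (P a) + ∑ τ ∈ F, zc (P τ)) =
        (zc (P a + ∑ τ ∈ F, P τ) - (zc (P a) + zc (∑ τ ∈ F, P τ))) +
        (zc (∑ τ ∈ F, P τ) - ∑ τ ∈ F, zc (P τ)) := by ring
    rw [e]
    exact v.map_add_le h3 h1

end Pool.Agent.H23T
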