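import Pool.Agent.H23T.Main1
import Pool.Agent.H23T.Zc

/-! # The local parameter at the cusp of width one (helper23) -/

namespace Pool.Agent.H23T

open WeierstrassCurve WeierstrassCurve.Affine Pool.Agent.GE

variable {L : Type*} [Field L] [CharZero L] {Γ₀ : Type*} [LinearOrderedCommGroupWithZero Γ₀]
  {v : Valuation L Γ₀} {W : Affine L} [W.IsShortNF]

lemma c3_zc [DecidableEq L] (g : Good v) (i : Is1 W) {x y h j : L} (hxy : W.Nonsingular x y)
    (hc : W.Nonsingular (-21) 0) (f : Fun1 x y h j) (hx : v (x + 21) < 1) :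
    v (6 * zc (Point.some x y hxy - Point.some (-21) 0 hc) + j⁻¹) ≤ v y ^ 2 := by
  obtain ⟨hsq, hhy, hy1, hy0⟩ := c1_three g i hxy f.D f.x21 hx
  have hxne : x ≠ -21 := fun h => f.x21 (by rw [h]; ring)
  have hyne : y ≠ 0 := (v.ne_zero_iff).mp hy0.ne'
  have hxi : v x ≤ 1 := by
    have : x = (x + 21) - 21 := by ring
    rw [this]
    have := hx.le
    repeat' first | assumption | exact Ione | exact Izero | exact IofNat _ | exact Inat _ | apply Iadd | apply Isub | apply Ineg | apply Ipow | apply Imul
  have hyi : v y ≤ 1 := hy1.le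
  have hhi : v h ≤ 1 := by rw [hhy]; exact hyi
  have hx2 : v (x + 21) ≤ v y ^ 2 := hsq.ge
  have hx1 : v (x + 21) ≤ v y := by
    rw [← hsq, sq]; exact (mul_lt_of_lt_one_right hy0 hy1).le
  have hyy : v (y ^ 2) ≤ v y := by
    rw [sq]; exact Jmul le_rfl hyi
  -- the unit `M`
  set M : L := (x + 102) * (x - 123) with hM
  have hMi : v M ≤ 1 := by rw [hM]; repeat' first | assumption | exact Ione | exact Izero | exact IofNat _ | exact Inat _ | apply Iadd | apply Isub | apply Ineg | apply Ipow | apply Imul
  have hy2 : y ^ 2 = M * (x + 21) := by rw [i.eq hxy, hM]; ring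
  have hMu : v M = 1 := by
    refine unit_add (e := (x + 21) * (x - 42)) (n := -11664) (small_mul hx ?_)
      (g.neg_num 4 6 0 (by norm_num)) (by rw [hM]; ring)
    repeat' first | assumption | exact Ione | exact Izero | exact IofNat _ | exact Inat _ | apply Iadd | apply Isub | apply Ineg | apply Ipow | apply Imul
  have hM0 : M ≠ 0 := (v.ne_zero_iff).mp (by rw [hMu]; exact one_ne_zero)
  obtain ⟨l, x', y', h', hl, hx', hy', he⟩ := sub_coords hxy hc hxne
  rw [he, zc_some]
  have hly : l * y = M := by
    rw [hl, add_zero, sub_neg_eq_add, div_mul_eq_mul_div, div_eq_iff f.x21, ← hy2]; ring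
  have e1 : y ^ 2 * x' = M ^ 2 - (x - 21) * y ^ 2 := by
    rw [hx']; linear_combination (l * y + M) * hly
  have e2 : y ^ 3 * y' = -M ^ 3 + M * (2 * x - 21) * y ^ 2 - y ^ 4 := by
    rw [hy']
    linear_combination y ^ 2 * (x - x') * hly - M * e1
  have hBu : v (-M ^ 3 + M * (2 * x - 21) * y ^ 2 - y ^ 4) = 1 := by
    refine unit_add (e := y * (M * (2 * x - 21) * y - y ^ 3)) (n := -M ^ 3) (small_mul hy1 ?_) ?_
      (by ring)
    · repeat' first | assumption | exact Ione | exact Izero | exact IofNat _ | exact Inat _ | apply Iadd | apply Isub | apply Ineg | apply Ipow | apply Imul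
    · rw [v.map_neg, v.map_pow, hMu, one_pow]
  set B : L := -M ^ 3 + M * (2 * x - 21) * y ^ 2 - y ^ 4 with hB
  have hB0 : B ≠ 0 := (v.ne_zero_iff).mp (by rw [hBu]; exact one_ne_zero)
  have hy'0 : y' ≠ 0 := by
    rintro rfl
    rw [mul_zero] at e2
    exact hB0 e2.symm
  have hz : x' / y' * B = y * (M ^ 2 - (x - 21) * y ^ 2) := by
    rw [div_mul_eq_mul_div, div_eq_iff hy'0, ← e1, ← e2]; ring
  -- first estimate
  have hest1 : v (x' / y' - y * 11664⁻¹) ≤ v y ^ 2 := by
    have h1 : v (11664 * B) = 1 := by
      rw [v.map_mul, hBu, g.num 4 6 0 (by norm_num : (11664 : L) = _), one_mul]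
    have h2 : (x' / y' - y * 11664⁻¹) * (11664 * B) = y * ((x + 21) * (M ^ 2 * (x - 42)) -
        y ^ 2 * (11664 * (x - 21) + M * (2 * x - 21) - y ^ 2)) := by
      have h3 : (11664 : L)⁻¹ * 11664 = 1 := inv_mul_cancel₀ (by norm_num)
      have h4 : M + 11664 = (x + 21) * (x - 42) := by rw [hM]; ring
      linear_combination 11664 * hz - y * B * h3 + y * M ^ 2 * h4 - y * hB
    have h5 : v ((x' / y' - y * 11664⁻¹) * (11664 * B)) ≤ v y ^ 2 := by
      rw [h2, v.map_mul, sq (v y)]
      refine mul_le_mul' le_rfl ?_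
      refine v.map_sub_le (Jmul hx1 ?_) (Jmul hyy ?_)
      · repeat' first | assumption | exact Ione | exact Izero | exact IofNat _ | exact Inat _ | apply Iadd | apply Isub | apply Ineg | apply Ipow | apply Imul
      · repeat' first | assumption | exact Ione | exact Izero | exact IofNat _ | exact Inat _ | apply Iadd | apply Isub | apply Ineg | apply Ipow | apply Imul
    rwa [v.map_mul, h1, mul_one] at h5
  -- second estimate
  have hest2 : v (j⁻¹ + y * 1944⁻¹) ≤ v y ^ 2 := by
    have hj0 : j ≠ 0 := by
      rintro rfl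
      have h1 := j5_lt g f.J (by rw [hhy]; exact hy1)
      rw [v.map_zero, zero_mul] at h1
      exact zero_ne_one h1
    set T : L := (h ^ 2 + 10 * h + 5) ^ 3 with hT
    have hTu : v T = 1 := by
      rw [hT, v.map_pow]
      have : v (h ^ 2 + 10 * h + 5) = 1 :=
        unit_add (e := h * (h + 10)) (small_mul (by rw [hhy]; exact hy1) (by repeat' first | assumption | exact Ione | exact Izero | exact IofNat _ | exact Inat _ | apply Iadd | apply Isub | apply Ineg | apply Ipow | apply Imul)) g.five
          (by ring)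
      rw [this, one_pow]
    have hT0 : T ≠ 0 := (v.ne_zero_iff).mp (by rw [hTu]; exact one_ne_zero)
    set G : L := M * (x - 15) + 9 * y * (x + 177) with hG
    have hGu : v G = 1 := by
      refine unit_add (e := (x + 21) * ((x - 42) * (x - 15) - 11664) + y * (9 * (x + 177)))
        (n := 419904) (v.map_add_lt (small_mul hx ?_) (small_mul hy1 ?_))
        (g.num 6 8 0 (by norm_num)) (by rw [hG, hM]; ring)
      · repeat' first | assumption | exact Ione | exact Izero | exact IofNat _ | exact Inat _ | apply Iadd | apply Isub | apply Ineg | apply Ipow | apply Imul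
      · repeat' first | assumption | exact Ione | exact Izero | exact IofNat _ | exact Inat _ | apply Iadd | apply Isub | apply Ineg | apply Ipow | apply Imul
    have hG0 : G ≠ 0 := (v.ne_zero_iff).mp (by rw [hGu]; exact one_ne_zero)
    have hhG : h * G = -27000 * y := by
      apply mul_right_cancel₀ hyne
      linear_combination M * f.D + (9 * h * (x + 177) + 27000) * hy2
    have hjT : j⁻¹ * T = h := by
      rw [hT, ← f.J, ← mul_assoc, inv_mul_cancel₀ hj0, one_mul]
    have h3 : (1944 : L)⁻¹ * 1944 = 1 := inv_mul_cancel₀ (by norm_num)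
    have h2 : (j⁻¹ + y * 1944⁻¹) * (1944 * (T * G)) = y * ((T - 125) * G +
        125 * (G - 419904)) := by
      linear_combination 1944 * G * hjT + y * T * G * h3 + 1944 * hhG
    have h4 : v (1944 * (T * G)) = 1 := by
      rw [v.map_mul, v.map_mul, hTu, hGu, g.num 3 5 0 (by norm_num : (1944 : L) = _)]
      simp
    have h5 : v ((j⁻¹ + y * 1944⁻¹) * (1944 * (T * G))) ≤ v y ^ 2 := by
      rw [h2, v.map_mul, sq (v y)]
      refine mul_le_mul' le_rfl ?_
      refine v.map_add_le ?_ ?_
      · have e : (T - 125) * G = h * ((h + 10) * ((h ^ 2 + 10 * h + 5) ^ 2 +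
            5 * (h ^ 2 + 10 * h + 5) + 25) * G) := by rw [hT]; ring
        rw [e]
        refine Jmul hhy.le ?_
        have := hGu.le
        repeat' first | assumption | exact Ione | exact Izero | exact IofNat _ | exact Inat _ | apply Iadd | apply Isub | apply Ineg | apply Ipow | apply Imul
      · have e : 125 * (G - 419904) = (x + 21) * (125 * ((x - 42) * (x - 15) - 11664)) +
            y * (125 * (9 * (x + 177))) := by rw [hG, hM]; ring
        rw [e]
        refine v.map_add_le (Jmul hx1 ?_) (Jmul le_rfl ?_)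
        · repeat' first | assumption | exact Ione | exact Izero | exact IofNat _ | exact Inat _ | apply Iadd | apply Isub | apply Ineg | apply Ipow | apply Imul
        · repeat' first | assumption | exact Ione | exact Izero | exact IofNat _ | exact Inat _ | apply Iadd | apply Isub | apply Ineg | apply Ipow | apply Imul
    rwa [v.map_mul, h4, mul_one] at h5
  have e : 6 * (x' / y') + j⁻¹ = 6 * (x' / y' - y * 11664⁻¹) + (j⁻¹ + y * 1944⁻¹) := by
    field_simp; ring
  rw [e]
  exact v.map_add_le (Jmul' (by repeat' first | assumption | exact Ione | exact Izero | exact IofNat _ | exact Inat _ | apply Iadd | apply Isub | apply Ineg | apply Ipow | apply Imul) hest1) hest2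

end Pool.Agent.H23T
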