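import Pool.Agent.H23T.Main2
import Pool.Agent.H23T.Three

/-! # Refined distances to the cusps (helper23) -/

namespace Pool.Agent.H23T

open WeierstrassCurve WeierstrassCurve.Affine Pool.Agent.GE

variable {L : Type*} [Field L] [CharZero L] {Γ₀ : Type*} [LinearOrderedCommGroupWithZero Γ₀]
  {v : Valuation L Γ₀} {W : Affine L} [W.IsShortNF]

lemma nmem (A : Subfield L) (n : ℕ) [n.AtLeastTwo] : (OfNat.ofNat n : L) ∈ A := ofNat_mem A n

variable [DecidableEq L]

/-- points where `j` is large are close to a cusp -/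
theorem far1' (g : Good v) (i : Is1 W) {x y h j : L} (hxy : W.Nonsingular x y)
    (f : Fun1 x y h j) (hj : 1 < v j) :
    ∃ c : W.Point, IsPt1 c ∧ ∃ w, w ∣ 15 ∧ ∃ s : Γ₀, s < 1 ∧ s ^ w * v j = 1 ∧
      Exact v s (Point.some x y hxy - c) ∧
      (∀ A : Subfield L, x ∈ A → y ∈ A → ∃ u ∈ A, v u = s) ∧
      (w = 1 → v (6 * zc (Point.some x y hxy - c) + j⁻¹) ≤ s ^ 2) := by
  have g2 : (2 : L) ≠ 0 := (v.ne_zero_iff).mp (by rw [g.two]; exact one_ne_zero)
  have g3 : (3 : L) ≠ 0 := (v.ne_zero_iff).mp (by rw [g.three]; exact one_ne_zero)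
  have g5 : (5 : L) ≠ 0 := (v.ne_zero_iff).mp (by rw [g.five]; exact one_ne_zero)
  by_cases hx : v x ≤ 1
  · have hyi : v y ≤ 1 := val_y_le (i.a4 v) (i.a6 v) hxy hx
    rcases lt_trichotomy (v h) 1 with hh | hh | hh
    · have hjh := j5_lt g f.J hh
      have hx21 : v (x + 21) < 1 := by
        have h1 := congrArg v f.D
        rw [v.map_mul (-27000), g.v27000, one_mul] at h1
        rw [← h1]
        refine small_mul hh ?_
        repeat' first | assumption | exact Ione | exact Izero | exact IofNat _ | exact Inat _ | apply Iadd | apply Isub | apply Ineg | apply Ipow | apply Imul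
      obtain ⟨h1, h2, h3, h4⟩ := c1_three g i hxy f.D f.x21 hx21
      have hc : W.Nonsingular (-21) 0 := i.ns g2 g3 g5 (by ring)
      refine ⟨Point.some (-21) 0 hc, Or.inr ⟨_, _, hc, rfl, Or.inr (Or.inl ⟨rfl, rfl⟩)⟩, 1,
        one_dvd _, v y, h3, ?_, ?_, fun A _ hy => ⟨y, hy, rfl⟩,
        fun _ => c3_zc g i hxy hc f hx21⟩
      · rw [pow_one, ← h2, mul_comm]; exact hjh
      · have hlt : v (x - -21) < v (y + 0) := by
          rw [sub_neg_eq_add, add_zero, ← h1, sq]
          exact mul_lt_of_lt_one_right h4 h3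
        have := sub_near hxy hc (fun h => f.x21 (by rw [h]; ring)) hx (by repeat' first | assumption | exact Ione | exact Izero | exact IofNat _ | exact Inat _ | apply Iadd | apply Isub | apply Ineg | apply Ipow | apply Imul) hyi hlt
        rwa [sub_neg_eq_add, add_zero, ← h1, sq, mul_div_assoc, div_self h4.ne', mul_one] at this
    · exact absurd hj (not_lt.mpr (j5_eq f.J hh))
    · have hjh := j5_gt f.J hh
      have hh0 : v h ≠ 0 := (zero_lt_one.trans hh).ne'
      rcases c1_large g i hxy f hx hh with ⟨h1, h2, h3⟩ | ⟨h1, h2, h3⟩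
      · have h4 := c1_fifteen g i hxy f.D h1 hyi h2
        have hc : W.Nonsingular 303 (-4860) := i.ns g2 g3 g5 (by ring)
        refine ⟨Point.some 303 (-4860) hc, Or.inr ⟨_, _, hc, rfl,
          Or.inr (Or.inr (Or.inr (Or.inl ⟨rfl, Or.inr rfl⟩)))⟩, 5,
          ⟨3, rfl⟩, v (x - 303), h1, ?_, ?_, fun A hx _ => ⟨x - 303, A.sub_mem hx (nmem A 303), rfl⟩,
          fun h => absurd h (by norm_num)⟩
        · rw [hjh, ← mul_pow, mul_comm, h4, one_pow]
        · have hlt : v (x - 303) < v (y + -4860) := by rw [← sub_eq_add_neg, h2]; exact h1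
          have := sub_near hxy hc h3 hx (by repeat' first | assumption | exact Ione | exact Izero | exact IofNat _ | exact Inat _ | apply Iadd | apply Isub | apply Ineg | apply Ipow | apply Imul) hyi hlt
          rwa [← sub_eq_add_neg, h2, div_one] at this
      · have h4 := c1_five g i hxy f.D h1 hyi h2
        have hc : W.Nonsingular (-57) (-540) := i.ns g2 g3 g5 (by ring)
        refine ⟨Point.some (-57) (-540) hc, Or.inr ⟨_, _, hc, rfl,
          Or.inr (Or.inr (Or.inr (Or.inr ⟨rfl, Or.inr rfl⟩)))⟩, 15,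
          dvd_rfl, v (x + 57), h1, ?_, ?_, fun A hx _ => ⟨x + 57, A.add_mem hx (nmem A 57), rfl⟩,
          fun h => absurd h (by norm_num)⟩
        · rw [hjh, show 15 = 3 * 5 from rfl, pow_mul, ← mul_pow, mul_comm, h4, one_pow]
        · have hlt : v (x - -57) < v (y + -540) := by
            rw [← sub_eq_add_neg, h2, sub_neg_eq_add]; exact h1
          have := sub_near hxy hc h3 hx (by repeat' first | assumption | exact Ione | exact Izero | exact IofNat _ | exact Inat _ | apply Iadd | apply Isub | apply Ineg | apply Ipow | apply Imul) hyi hlt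
          rwa [← sub_eq_add_neg, h2, div_one, sub_neg_eq_add] at this
  · push Not at hx
    have h1 := c1_zero g i hxy f.D hx
    obtain ⟨h2, h3, h4⟩ := exact_some (i.a4 v) (i.a6 v) hxy hx
    have hsq := val_y_sq (i.a4 v) (i.a6 v) hxy hx
    have h0 : 0 < v x := zero_lt_one.trans hx
    have hy0 : v y ≠ 0 := by
      intro hy
      rw [hy, mul_zero] at h1
      exact zero_ne_one h1
    have hy1 : 1 < v y := by
      have : 1 < v y ^ 2 := by rw [hsq]; exact one_lt_pow₀ hx (by norm_num)
      by_contra hcon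
      exact absurd this (not_lt.mpr (pow_le_one' (not_lt.mp hcon) 2))
    have hh : v h < 1 := by
      by_contra hcon
      push Not at hcon
      have : 1 < v h * v y := lt_of_lt_of_le hy1 (le_mul_of_one_le_left' hcon)
      rw [h1] at this
      exact lt_irrefl _ this
    have hjh := j5_lt g f.J hh
    refine ⟨0, Or.inl rfl, 3, ⟨5, rfl⟩, v x / v y, h3, ?_, ?_,
      fun A hx hy => ⟨x / y, A.div_mem hx hy, map_div₀ _ _ _⟩, fun h => absurd h (by norm_num)⟩
    · have hjy : v j = v y := by
        have h5 : v j * v h = v y * v h := by rw [hjh, mul_comm, h1]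
        exact mul_right_cancel₀ (left_ne_zero_of_mul_eq_one h1) h5
      rw [hjy, div_pow, ← hsq, div_mul_eq_mul_div, ← pow_succ, div_self (pow_ne_zero 3 hy0)]
    · rwa [sub_zero]


/-- points where `j` is large are close to a cusp -/
theorem far2' (g : Good v) (i : Is2 W) {x y r m : L} (hxy : W.Nonsingular x y)
    (f : Fun2 x y r m) (hj : 1 < v (m ^ 3)) :
    ∃ c : W.Point, IsPt2 c ∧ ∃ w, w ∣ 15 ∧ ∃ s : Γ₀, s < 1 ∧ s ^ w * v (m ^ 3) = 1 ∧
      Exact v s (Point.some x y hxy - c) ∧
      (∀ A : Subfield L, x ∈ A → y ∈ A → ∃ u ∈ A, v u = s) ∧ 3 ∣ w := by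
  have g2 : (2 : L) ≠ 0 := (v.ne_zero_iff).mp (by rw [g.two]; exact one_ne_zero)
  have g3 : (3 : L) ≠ 0 := (v.ne_zero_iff).mp (by rw [g.three]; exact one_ne_zero)
  have g5 : (5 : L) ≠ 0 := (v.ne_zero_iff).mp (by rw [g.five]; exact one_ne_zero)
  rw [v.map_pow] at hj ⊢
  have hr0 : v r ≠ 0 := (v.ne_zero_iff).mpr f.r0
  by_cases hx : v x ≤ 1
  · have hyi : v y ≤ 1 := val_y_le (i.a4 v) (i.a6 v) hxy hx
    rcases lt_trichotomy (v r) 1 with hr | hr | hr
    · have hm := m_lt g f.M hr
      obtain ⟨h1, h2⟩ := c2_small g i hxy f hx hr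
      have h3 := c2_three g f h1 h2
      have hc : W.Nonsingular 15 (-324) := i.ns g2 g3 g5 (by ring)
      have hy' : v (y - 324) = 1 :=
        unit_add h2 (n := -648) (g.neg_num 3 4 0 (by norm_num)) (by ring)
      refine ⟨Point.some 15 (-324) hc, Or.inr ⟨_, _, hc, rfl,
        Or.inr (Or.inr (Or.inr (Or.inr ⟨rfl, Or.inr rfl⟩)))⟩, 3, ⟨5, rfl⟩, v (x - 15), h1, ?_, ?_,
        fun A hx _ => ⟨x - 15, A.sub_mem hx (nmem A 15), rfl⟩, dvd_rfl⟩
      · rw [← h3, ← mul_pow, mul_comm, hm, one_pow]
      · have hlt : v (x - 15) < v (y + -324) := by rw [← sub_eq_add_neg, hy']; exact h1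
        have hne : x ≠ 15 := by
          intro h
          rw [h, sub_self, v.map_zero] at h3
          exact hr0 h3
        have := sub_near hxy hc hne hx (by repeat' first | assumption | exact Ione | exact Izero | exact IofNat _ | exact Inat _ | apply Iadd | apply Isub | apply Ineg | apply Ipow | apply Imul) hyi hlt
        rwa [← sub_eq_add_neg, hy', div_one] at this
    · exact absurd hj (not_lt.mpr (pow_le_one' (m_eq f.M hr) 3))
    · have hm := m_gt f.M hr
      rcases c2_large g i hxy f hx hr with ⟨h1, h2⟩ | h1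
      · have h3 := c2_five g f h1 h2
        have hc : W.Nonsingular 87 540 := i.ns g2 g3 g5 (by ring)
        have hy' : v (y + 540) = 1 :=
          unit_add h2 (n := 1080) (g.num 3 3 1 (by norm_num)) (by ring)
        refine ⟨Point.some 87 540 hc, Or.inr ⟨_, _, hc, rfl,
          Or.inr (Or.inr (Or.inr (Or.inl ⟨rfl, Or.inl rfl⟩)))⟩, 15, dvd_rfl, v (x - 87), h1,
          ?_, ?_, fun A hx _ => ⟨x - 87, A.sub_mem hx (nmem A 87), rfl⟩, ⟨5, rfl⟩⟩
        · rw [hm, ← pow_mul, ← mul_pow, mul_comm, h3, one_pow]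
        · have hlt : v (x - 87) < v (y + 540) := by rw [hy']; exact h1
          have hne : x ≠ 87 := by
            intro h
            rw [h, sub_self, v.map_zero, mul_zero] at h3
            exact zero_ne_one h3
          have := sub_near hxy hc hne hx (by repeat' first | assumption | exact Ione | exact Izero | exact IofNat _ | exact Inat _ | apply Iadd | apply Isub | apply Ineg | apply Ipow | apply Imul) hyi hlt
          rwa [hy', div_one] at this
      · obtain ⟨h2, h3, h4, h5⟩ := c2_fifteen g i hxy f h1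
        have hc : W.Nonsingular (-93) 0 := i.ns g2 g3 g5 (by ring)
        refine ⟨Point.some (-93) 0 hc, Or.inr ⟨_, _, hc, rfl,
          Or.inr (Or.inr (Or.inl ⟨rfl, rfl⟩))⟩, 15, dvd_rfl, v y, h4, ?_, ?_,
          fun A _ hy => ⟨y, hy, rfl⟩, ⟨5, rfl⟩⟩
        · rw [hm, ← pow_mul, ← mul_pow, mul_comm, h3, one_pow]
        · have hlt : v (x - -93) < v (y + 0) := by
            rw [sub_neg_eq_add, add_zero, ← h2, sq]
            exact mul_lt_of_lt_one_right h5 h4
          have hne : x ≠ -93 := by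
            intro h
            rw [h, neg_add_cancel, v.map_zero] at h2
            exact (pow_pos h5 2).ne' h2
          have := sub_near hxy hc hne hx (by repeat' first | assumption | exact Ione | exact Izero | exact IofNat _ | exact Inat _ | apply Iadd | apply Isub | apply Ineg | apply Ipow | apply Imul) hyi hlt
          rwa [sub_neg_eq_add, add_zero, ← h2, sq, mul_div_assoc, div_self h5.ne',
            mul_one] at this
  · push Not at hx
    have h1 := c2_zero g i hxy f hx
    obtain ⟨h2, h3, h4⟩ := exact_some (i.a4 v) (i.a6 v) hxy hx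
    refine ⟨0, Or.inl rfl, 3, ⟨5, rfl⟩, v x / v y, h3, ?_, ?_,
      fun A hx hy => ⟨x / y, A.div_mem hx hy, map_div₀ _ _ _⟩, dvd_rfl⟩
    · rw [← h1] at h3 ⊢
      have hm := m_lt g f.M h3
      rw [← mul_pow, mul_comm, hm, one_pow]
    · rwa [sub_zero]


end Pool.Agent.H23T
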