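import Pool.Agent.H23T.Sum
import Pool.Agent.H23T.Far

/-! # The refined ultrametric argument (helper23) -/

namespace Pool.Agent.H23T

open WeierstrassCurve WeierstrassCurve.Affine Pool.Agent.GE

variable {L : Type*} [Field L] [CharZero L] [DecidableEq L] {Γ₀ : Type*}
  [LinearOrderedCommGroupWithZero Γ₀] {v : Valuation L Γ₀} {W : Affine L} [W.IsShortNF]
  {S : Type*} [Fintype S]

theorem trace_argument2 [Nonempty S] (ha : v W.a₄ ≤ 1) (hb : v W.a₆ ≤ 1) 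
    (P : S → W.Point) (R : AddSubgroup W.Point) (l : S → Γ₀) (ji : S → L)
    (adm : S → ℕ → Prop) (hadm : ∀ τ, adm τ 1) (Q : S → Prop)
    (hR : ∀ c ∈ R, ∀ ρ < (1 : Γ₀), InBall v ρ c → c = 0) (hsum : ∑ τ, P τ ∈ R)
    (hfar : ∀ τ, 1 < l τ → ∃ c ∈ R, ∃ w, w ∣ 15 ∧ ∃ s : Γ₀, s < 1 ∧ s ^ w * l τ = 1 ∧
      Exact v s (P τ - c) ∧ adm τ w ∧ (w = 1 → v (6 * zc (P τ - c) + ji τ) ≤ s ^ 2))
    (hnear : ∀ τ, l τ ≤ 1 → ∀ c ∈ R, ∀ ρ < (1 : Γ₀), InBall v ρ (P τ - c) → Q τ)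
    (hmin : ∀ w : S → ℕ, (∀ τ, w τ ∣ 15 ∧ adm τ (w τ)) →
      (∃ τ₀, ∀ τ, τ ≠ τ₀ → 1 < l τ ∧ l τ₀ ^ w τ < l τ ^ w τ₀) ∨
      (∀ τ, w τ = 1 ∧ 1 < l τ ∧ 1 < v (∑ σ, ji σ) * l τ ^ 2)) :
    ∃ τ₀, l τ₀ ≤ 1 ∧ Q τ₀ := by
  classical
  have hdata : ∀ τ, ∃ (c : W.Point) (w : ℕ) (s : Γ₀), c ∈ R ∧ (w ∣ 15 ∧ adm τ w) ∧
      (1 < l τ → s < 1 ∧ s ^ w * l τ = 1 ∧ Exact v s (P τ - c) ∧
      (w = 1 → v (6 * zc (P τ - c) + ji τ) ≤ s ^ 2)) := by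
    intro τ
    by_cases h : 1 < l τ
    · obtain ⟨c, h1, w, h2, s, h3, h4, h5, h6, h7⟩ := hfar τ h
      exact ⟨c, w, s, h1, ⟨h2, h6⟩, fun _ => ⟨h3, h4, h5, h7⟩⟩
    · exact ⟨0, 1, 0, R.zero_mem, ⟨one_dvd _, hadm τ⟩, fun h' => absurd h' h⟩
  choose c w s hc hw' hs using hdata
  have hw : ∀ τ, w τ ∣ 15 := fun τ => (hw' τ).1
  rcases hmin w hw' with ⟨τ₀, hτ₀⟩ | hB
  swap
  · exfalso
    have hall : ∀ τ, 1 < l τ := fun τ => (hB τ).2.1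
    obtain ⟨τ₁, hτ₁⟩ := Finite.exists_max s
    have hρ : s τ₁ < 1 := (hs τ₁ (hall τ₁)).1
    have hball : ∀ τ, InBall v (s τ₁) (P τ - c τ) := fun τ =>
      (hs τ (hall τ)).2.2.1.1.mono (hτ₁ τ)
    have hmem : ∑ τ, (P τ - c τ) ∈ ball (W := W) ha hb hρ :=
      AddSubgroup.sum_mem _ fun τ _ => hball τ
    have hz : ∑ τ, (P τ - c τ) = 0 := by
      refine hR _ ?_ (s τ₁) hρ hmem
      rw [Finset.sum_sub_distrib]
      exact R.sub_mem hsum (R.sum_mem fun τ _ => hc τ)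
    have h1 := zc_sum ha hb hρ Finset.univ (fun τ => P τ - c τ) fun τ _ => hball τ
    rw [hz, zc_zero, zero_sub, v.map_neg] at h1
    have h2 : v (∑ τ, (6 * zc (P τ - c τ) + ji τ)) ≤ s τ₁ ^ 2 := by
      refine v.map_sum_le fun τ _ => ?_
      exact ((hs τ (hall τ)).2.2.2 (hB τ).1).trans (pow_le_pow_left' (hτ₁ τ) 2)
    have h3 : ∑ τ, ji τ = ∑ τ, (6 * zc (P τ - c τ) + ji τ) - 6 * ∑ τ, zc (P τ - c τ) := by
      rw [Finset.sum_add_distrib, Finset.mul_sum]; ring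
    have h4 : v (∑ τ, ji τ) ≤ s τ₁ ^ 2 := by
      rw [h3]
      exact v.map_sub_le h2 (Jmul' (by repeat' first | assumption | exact Ione | exact Izero | exact IofNat _ | exact Inat _ | apply Iadd | apply Isub | apply Ineg | apply Ipow | apply Imul) h1)
    have h5 := (hB τ₁).2.2
    have h6 := (hs τ₁ (hall τ₁)).2.1
    rw [(hB τ₁).1, pow_one] at h6
    have h7 : v (∑ τ, ji τ) * l τ₁ ^ 2 ≤ 1 := by
      calc v (∑ τ, ji τ) * l τ₁ ^ 2 ≤ s τ₁ ^ 2 * l τ₁ ^ 2 := mul_le_mul_left h4 _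
        _ = 1 := by rw [← mul_pow, h6, one_pow]
    exact absurd h5 (not_lt.mpr h7)
  have herase : ∀ f : S → W.Point, ∑ τ, f τ = f τ₀ + ∑ τ ∈ Finset.univ.erase τ₀, f τ :=
    fun f => (Finset.add_sum_erase _ _ (Finset.mem_univ _)).symm
  by_cases h0 : l τ₀ ≤ 1
  · refine ⟨τ₀, h0, ?_⟩
    obtain ⟨ρ, hρ, hρ'⟩ := exists_bound (Finset.univ.erase τ₀) s (zero_lt_one)
      (fun τ hτ => (hs τ (hτ₀ τ (Finset.ne_of_mem_erase hτ)).1).1)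
    have hmem : ∑ τ ∈ Finset.univ.erase τ₀, (P τ - c τ) ∈ ball (W := W) ha hb hρ := by
      refine AddSubgroup.sum_mem _ fun τ hτ => ?_
      exact (hs τ (hτ₀ τ (Finset.ne_of_mem_erase hτ)).1).2.2.1.1.mono (hρ' τ hτ)
    have e : P τ₀ - (∑ τ, P τ - ∑ τ ∈ Finset.univ.erase τ₀, c τ) =
        -∑ τ ∈ Finset.univ.erase τ₀, (P τ - c τ) := by
      rw [herase, Finset.sum_sub_distrib]
      abel
    refine hnear τ₀ h0 (∑ τ, P τ - ∑ τ ∈ Finset.univ.erase τ₀, c τ)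
      (R.sub_mem hsum (R.sum_mem fun τ _ => hc τ)) ρ hρ ?_
    rw [e]
    exact InBall.neg hmem
  · exfalso
    push Not at h0
    have hall : ∀ τ, 1 < l τ := fun τ => by
      by_cases h : τ = τ₀
      · rw [h]; exact h0
      · exact (hτ₀ τ h).1
    obtain ⟨ρ, hρ, hρ'⟩ := exists_bound Finset.univ s (zero_lt_one)
      (fun τ _ => (hs τ (hall τ)).1)
    have hmem : ∑ τ, (P τ - c τ) ∈ ball (W := W) ha hb hρ := by
      refine AddSubgroup.sum_mem _ fun τ hτ => ?_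
      exact (hs τ (hall τ)).2.2.1.1.mono (hρ' τ hτ)
    have hz : ∑ τ, (P τ - c τ) = 0 := by
      refine hR _ ?_ ρ hρ hmem
      rw [Finset.sum_sub_distrib]
      exact R.sub_mem hsum (R.sum_mem fun τ _ => hc τ)
    obtain ⟨h1, h2, h3, -⟩ := hs τ₀ h0
    have hs0 : 0 < s τ₀ := by
      rw [zero_lt_iff]
      intro h
      have hw0 : w τ₀ ≠ 0 := by
        intro h'
        have := hw τ₀
        rw [h'] at this
        exact absurd (Nat.eq_zero_of_zero_dvd this) (by norm_num)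
      rw [h, zero_pow hw0, zero_mul] at h2
      exact zero_ne_one h2
    obtain ⟨ρ', hρ1, hρ2⟩ := exists_bound (Finset.univ.erase τ₀) s hs0 (fun τ hτ => by
      have h4 := hτ₀ τ (Finset.ne_of_mem_erase hτ)
      exact lt_of_weights (hs τ h4.1).2.1 h2 h4.2)
    have hmem' : ∑ τ ∈ Finset.univ.erase τ₀, (P τ - c τ) ∈
        ball (W := W) ha hb (hρ1.trans h1) := by
      refine AddSubgroup.sum_mem _ fun τ hτ => ?_
      exact (hs τ (hall τ)).2.2.1.1.mono (hρ2 τ hτ)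
    refine h3.2 ρ' hρ1 ?_
    rw [herase, add_eq_zero_iff_eq_neg] at hz
    rw [hz]
    exact InBall.neg hmem'


end Pool.Agent.H23T
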