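import Pool.Agent.H23T.Core
import Pool.Agent.H23T.Sum2

/-! # The refined trace criterion for points of the two modular curves (helper23) -/

namespace Pool.Agent.H23T

open WeierstrassCurve WeierstrassCurve.Affine Pool.Agent.GE Pool.Agent.H42M

/-- the affine points of the two curves over `F` are the seven rational ones -/
def Pts (F : Type*) [Field F] : Prop :=
  (∀ x y : F, y ^ 2 = (x + 102) * (x + 21) * (x - 123) → Tab1 x y) ∧
  (∀ x y : F, y ^ 2 = (x - 51) * (x - 42) * (x + 93) → Tab2 x y)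

variable {F : Type*} [Field F] [CharZero F] [DecidableEq F]
  {L : Type*} [Field L] [CharZero L] [Algebra F L] [DecidableEq L]

lemma mem_of_pt1 {c : (E1⁄L).Point} (hc : IsPt1 c) :
    c ∈ (Point.map (W' := E1) (Algebra.ofId F L)).range := by
  rcases hc with rfl | ⟨x, y, h, rfl, hT⟩
  · exact AddSubgroup.zero_mem _
  · rcases hT with ⟨h1, h2⟩ | ⟨h1, h2⟩ | ⟨h1, h2⟩ | ⟨h1, h2 | h2⟩ | ⟨h1, h2 | h2⟩
    · exact rat_mem E1 h (a := -102) (b := 0) (by rw [h1]; simp) (by rw [h2]; simp)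
    · exact rat_mem E1 h (a := -21) (b := 0) (by rw [h1]; simp) (by rw [h2]; simp)
    · exact rat_mem E1 h (a := 123) (b := 0) (by rw [h1]; simp) (by rw [h2]; simp)
    · exact rat_mem E1 h (a := 303) (b := 4860) (by rw [h1]; simp) (by rw [h2]; simp)
    · exact rat_mem E1 h (a := 303) (b := -4860) (by rw [h1]; simp) (by rw [h2]; simp)
    · exact rat_mem E1 h (a := -57) (b := 540) (by rw [h1]; simp) (by rw [h2]; simp)
    · exact rat_mem E1 h (a := -57) (b := -540) (by rw [h1]; simp) (by rw [h2]; simp)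

lemma pt1_of_mem (H : Pts F) {c : (E1⁄L).Point}
    (hc : c ∈ (Point.map (W' := E1) (Algebra.ofId F L)).range) : IsPt1 c := by
  obtain ⟨P, rfl⟩ := hc
  match P with
  | 0 => exact Or.inl rfl
  | .some x y h =>
    right
    have h1 : Tab1 x y := H.1 _ _ ((is1 (L := F)).eq h)
    exact ⟨algebraMap F L x, algebraMap F L y, _, Point.map_some _ h, h1.map _⟩

lemma mem_of_pt2 {c : (E2⁄L).Point} (hc : IsPt2 c) :
    c ∈ (Point.map (W' := E2) (Algebra.ofId F L)).range := by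
  rcases hc with rfl | ⟨x, y, h, rfl, hT⟩
  · exact AddSubgroup.zero_mem _
  · rcases hT with ⟨h1, h2⟩ | ⟨h1, h2⟩ | ⟨h1, h2⟩ | ⟨h1, h2 | h2⟩ | ⟨h1, h2 | h2⟩
    · exact rat_mem E2 h (a := 51) (b := 0) (by rw [h1]; simp) (by rw [h2]; simp)
    · exact rat_mem E2 h (a := 42) (b := 0) (by rw [h1]; simp) (by rw [h2]; simp)
    · exact rat_mem E2 h (a := -93) (b := 0) (by rw [h1]; simp) (by rw [h2]; simp)
    · exact rat_mem E2 h (a := 87) (b := 540) (by rw [h1]; simp) (by rw [h2]; simp)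
    · exact rat_mem E2 h (a := 87) (b := -540) (by rw [h1]; simp) (by rw [h2]; simp)
    · exact rat_mem E2 h (a := 15) (b := 324) (by rw [h1]; simp) (by rw [h2]; simp)
    · exact rat_mem E2 h (a := 15) (b := -324) (by rw [h1]; simp) (by rw [h2]; simp)

lemma pt2_of_mem (H : Pts F) {c : (E2⁄L).Point}
    (hc : c ∈ (Point.map (W' := E2) (Algebra.ofId F L)).range) : IsPt2 c := by
  obtain ⟨P, rfl⟩ := hc
  match P with
  | 0 => exact Or.inl rfl
  | .some x y h =>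
    right
    have h1 : Tab2 x y := H.2 _ _ ((is2 (L := F)).eq h)
    exact ⟨algebraMap F L x, algebraMap F L y, _, Point.map_some _ h, h1.map _⟩

variable {Γ₀ : Type*} [LinearOrderedCommGroupWithZero Γ₀] {v : Valuation L Γ₀}

lemma adm_inv {K : Type*} [Field K] [Algebra F K] (τ : K →ₐ[F] L) {w : ℕ} {s l : Γ₀}
    (hs : s ^ w * l = 1) (hu : ∃ u ∈ (τ : K →+* L).fieldRange, v u = s) :
    ∃ z : K, v (τ z) ^ w = l := by
  obtain ⟨u, ⟨z, rfl⟩, rfl⟩ := hu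
  refine ⟨z⁻¹, ?_⟩
  have h1 : v ((τ : K →+* L) z) = v (τ z) := rfl
  rw [h1] at hs
  rw [map_inv₀, map_inv₀, inv_pow]
  exact (eq_inv_of_mul_eq_one_right hs).symm

variable {K : Type*} [Field K] [CharZero K] [Algebra F K] [DecidableEq K] [IsGalois F L]
  [Fintype (K →ₐ[F] L)] [Nonempty (K →ₐ[F] L)]

theorem core1' (H : Pts F) (g : Good v) {x y h j : K}
    (hxy : y ^ 2 = (x + 102) * (x + 21) * (x - 123)) (f : Fun1 x y h j)
    (hmin : ∀ w : (K →ₐ[F] L) → ℕ, (∀ τ, w τ ∣ 15 ∧ ∃ z : K, v (τ z) ^ w τ = v (τ j)) →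
      (∃ τ₀, ∀ τ, τ ≠ τ₀ → 1 < v (τ j) ∧ v (τ₀ j) ^ w τ < v (τ j) ^ w τ₀) ∨
      (∀ τ, w τ = 1 ∧ 1 < v (τ j) ∧
        1 < v (∑ σ : K →ₐ[F] L, (σ j)⁻¹) * v (τ j) ^ 2)) :
    ∃ τ₀ : K →ₐ[F] L, v (τ₀ j) ≤ 1 ∧ ∃ z : L, Six z ∧ v (τ₀ j - z) < 1 := by
  have hns : (E1⁄K).Nonsingular x y :=
    is1.ns two_ne_zero three_ne_zero (OfNat.ofNat_ne_zero 5) hxy
  have fτ : ∀ τ : K →ₐ[F] L, Fun1 (τ x) (τ y) (τ h) (τ j) := fun τ =>
    { x21 := fun h0 => f.x21 ((map_eq_zero τ).mp (by rw [map_add, map_ofNat]; exact h0))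
      h0 := (map_ne_zero τ).mpr f.h0
      D := by
        have := congrArg τ f.D
        simpa only [map_add, map_sub, map_mul, map_neg, map_ofNat] using this
      J := by
        have := congrArg τ f.J
        simpa only [map_add, map_sub, map_mul, map_pow, map_ofNat] using this }
  refine trace_argument2 (W := E1⁄L) (is1.a4 v) (is1.a6 v)
    (fun τ : K →ₐ[F] L => Point.map (W' := E1) τ (Point.some x y hns))
    (Point.map (W' := E1) (Algebra.ofId F L)).range (fun τ => v (τ j)) (fun τ => (τ j)⁻¹)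
    (fun τ w => ∃ z : K, v (τ z) ^ w = v (τ j)) (fun τ => ⟨j, pow_one _⟩)
    (fun τ => ∃ z : L, Six z ∧ v (τ j - z) < 1) ?_ (trace_mem E1 _) ?_ ?_ hmin
  · intro c hc ρ hρ hP
    exact pt1_zero (pt1_of_mem H hc) hρ hP
  · intro τ hτ
    obtain ⟨c, hc, w, hw, s, hs1, hs2, hs3, hs4, hs5⟩ := far1' g is1
      ((Affine.baseChange_nonsingular E1 τ.injective x y).mpr hns) (fτ τ) hτ
    exact ⟨c, mem_of_pt1 hc, w, hw, s, hs1, hs2, hs3,
      adm_inv τ hs2 (hs4 (τ : K →+* L).fieldRange ⟨x, rfl⟩ ⟨y, rfl⟩), hs5⟩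
  · intro τ hτ c hc ρ hρ hP
    refine near1 g is1 ((Affine.baseChange_nonsingular E1 τ.injective x y).mpr hns) (fτ τ) hτ
      (pt1_of_mem H hc) hρ hP fun h1 => ?_
    exact pt1_zero (pt1_of_mem H (AddSubgroup.add_mem _ hc hc)) hρ h1

theorem core2' (H : Pts F) (g : Good v) {x y r m : K}
    (hxy : y ^ 2 = (x - 51) * (x - 42) * (x + 93)) (f : Fun2 x y r m)
    (hmin : ∀ w : (K →ₐ[F] L) → ℕ,
      (∀ τ, w τ ∣ 15 ∧ ∃ z : K, v (τ z) ^ w τ = v (τ (m ^ 3))) →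
      (∃ τ₀, ∀ τ, τ ≠ τ₀ → 1 < v (τ (m ^ 3)) ∧ v (τ₀ (m ^ 3)) ^ w τ < v (τ (m ^ 3)) ^ w τ₀) ∨
      (∀ τ, w τ = 1 ∧ 1 < v (τ (m ^ 3)) ∧
        1 < v (∑ σ : K →ₐ[F] L, (σ (m ^ 3))⁻¹) * v (τ (m ^ 3)) ^ 2)) :
    ∃ τ₀ : K →ₐ[F] L, v (τ₀ (m ^ 3)) ≤ 1 ∧ ∃ z : L, Six z ∧ v (τ₀ (m ^ 3) - z) < 1 := by
  have hns : (E2⁄K).Nonsingular x y :=
    is2.ns two_ne_zero three_ne_zero (OfNat.ofNat_ne_zero 5) hxy
  have fτ : ∀ τ : K →ₐ[F] L, Fun2 (τ x) (τ y) (τ r) (τ m) := fun τ =>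
    { r0 := (map_ne_zero τ).mpr f.r0
      A := by
        have := congrArg τ f.A
        simpa only [map_add, map_sub, map_mul, map_neg, map_ofNat] using this
      B := by
        have := congrArg τ f.B
        simpa only [map_add, map_sub, map_mul, map_neg, map_ofNat] using this
      M := by
        have := congrArg τ f.M
        simpa only [map_add, map_sub, map_mul, map_pow, map_ofNat] using this }
  have hm3 : ∀ τ : K →ₐ[F] L, τ (m ^ 3) = τ m ^ 3 := fun τ => map_pow τ m 3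
  refine trace_argument2 (W := E2⁄L) (is2.a4 v) (is2.a6 v)
    (fun τ : K →ₐ[F] L => Point.map (W' := E2) τ (Point.some x y hns))
    (Point.map (W' := E2) (Algebra.ofId F L)).range (fun τ => v (τ (m ^ 3)))
    (fun τ => (τ (m ^ 3))⁻¹)
    (fun τ w => ∃ z : K, v (τ z) ^ w = v (τ (m ^ 3))) (fun τ => ⟨m ^ 3, pow_one _⟩)
    (fun τ => ∃ z : L, Six z ∧ v (τ (m ^ 3) - z) < 1) ?_ (trace_mem E2 _) ?_ ?_ hmin
  · intro c hc ρ hρ hP
    exact pt2_zero (pt2_of_mem H hc) hρ hP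
  · intro τ hτ
    have hτ' : 1 < v (τ m ^ 3) := by rw [← hm3]; exact hτ
    obtain ⟨c, hc, w, hw, s, hs1, hs2, hs3, hs4, hs5⟩ := far2' g is2
      ((Affine.baseChange_nonsingular E2 τ.injective x y).mpr hns) (fτ τ) hτ'
    rw [← hm3] at hs2
    refine ⟨c, mem_of_pt2 hc, w, hw, s, hs1, hs2, hs3,
      adm_inv τ hs2 (hs4 (τ : K →+* L).fieldRange ⟨x, rfl⟩ ⟨y, rfl⟩), fun h1 => ?_⟩
    rw [h1] at hs5
    exact absurd hs5 (by norm_num)
  · intro τ hτ c hc ρ hρ hP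
    have hτ' : v (τ m ^ 3) ≤ 1 := by rw [← hm3]; exact hτ
    rw [hm3]
    refine near2 g is2 ((Affine.baseChange_nonsingular E2 τ.injective x y).mpr hns) (fτ τ) hτ'
      (pt2_of_mem H hc) hρ hP fun h1 => ?_
    exact pt2_zero (pt2_of_mem H (AddSubgroup.add_mem _ hc hc)) hρ h1

end Pool.Agent.H23T
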