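import Pool.Agent.H23T.Sub

/-! # The modular curve `X₀(15)` near the cusps (helper23) -/

namespace Pool.Agent.H23T

open WeierstrassCurve WeierstrassCurve.Affine Pool.Agent.GE

variable {L : Type*} [Field L] {Γ₀ : Type*} [LinearOrderedCommGroupWithZero Γ₀]
  {v : Valuation L Γ₀}

/-- `v` does not lie above 2, 3, 5 -/
structure Good (v : Valuation L Γ₀) : Prop where
  two : v 2 = 1
  three : v 3 = 1
  five : v 5 = 1

lemma Good.num (g : Good v) {n : L} (a b c : ℕ) (h : n = 2 ^ a * 3 ^ b * 5 ^ c) : v n = 1 := by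
  rw [h, v.map_mul, v.map_mul, v.map_pow, v.map_pow, v.map_pow, g.two, g.three, g.five]
  simp

lemma Good.neg_num (g : Good v) {n : L} (a b c : ℕ) (h : n = -(2 ^ a * 3 ^ b * 5 ^ c)) :
    v n = 1 := by
  rw [h, v.map_neg]
  exact g.num a b c rfl

lemma Good.v27000 (g : Good v) : v (-27000 : L) = 1 := g.neg_num 3 3 3 (by norm_num)

/-- a small perturbation of a unit -/
lemma unit_add {e n t : L} (he : v e < 1) (hn : v n = 1) (ht : t = e + n) : v t = 1 := by
  rw [ht, v.map_add_eq_of_lt_right (by rwa [hn]), hn]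

lemma small_add {e n t : L} (he : v e < 1) (hn : v n < 1) (ht : t = e + n) : v t < 1 := by
  rw [ht]; exact v.map_add_lt he hn

lemma small_mul {e n : L} (he : v e < 1) (hn : v n ≤ 1) : v (e * n) < 1 := by
  rw [v.map_mul]; exact mul_lt_one_of_lt_of_le he hn

lemma small_mul' {e n : L} (hn : v n ≤ 1) (he : v e < 1) : v (n * e) < 1 := by
  rw [mul_comm]; exact small_mul he hn

/-- the `j`-invariant as a function on `X₀(5)` -/
lemma j5_lt (g : Good v) {j h : L} (hj : j * h = (h ^ 2 + 10 * h + 5) ^ 3) (hh : v h < 1) :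
    v j * v h = 1 := by
  have h1 : v (h ^ 2 + 10 * h + 5) = 1 := by
    refine unit_add (e := h * (h + 10)) (small_mul hh ?_) g.five (by ring)
    have := hh.le
    repeat' first | assumption | exact Ione | exact Izero | exact IofNat _ | exact Inat _ | apply Iadd | apply Isub | apply Ineg | apply Ipow | apply Imul
  rw [← v.map_mul, hj, v.map_pow, h1, one_pow]

lemma j5_gt {j h : L} (hj : j * h = (h ^ 2 + 10 * h + 5) ^ 3) (hh : 1 < v h) :
    v j = v h ^ 5 := by
  have h0 : 0 < v h := zero_lt_one.trans hh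
  have h1 : v (h ^ 2 + 10 * h + 5) = v h ^ 2 := by
    rw [add_assoc, v.map_add_eq_of_lt_left, v.map_pow]
    rw [v.map_pow]
    have h2 : v h < v h ^ 2 := by
      calc v h = v h ^ 1 := (pow_one _).symm
        _ < v h ^ 2 := pow_lt_pow_right₀ hh (by norm_num)
    refine lt_of_le_of_lt (v.map_add_le (g := v h) (Jmul' ?_ le_rfl) (le_trans ?_ hh.le)) h2
    · repeat' first | assumption | exact Ione | exact Izero | exact IofNat _ | exact Inat _ | apply Iadd | apply Isub | apply Ineg | apply Ipow | apply Imul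
    · repeat' first | assumption | exact Ione | exact Izero | exact IofNat _ | exact Inat _ | apply Iadd | apply Isub | apply Ineg | apply Ipow | apply Imul
  have h3 : v j * v h = v h ^ 5 * v h := by
    rw [← v.map_mul, hj, v.map_pow, h1, ← pow_mul, ← pow_succ]
  exact mul_right_cancel₀ h0.ne' h3

lemma j5_eq {j h : L} (hj : j * h = (h ^ 2 + 10 * h + 5) ^ 3) (hh : v h = 1) : v j ≤ 1 := by
  have h1 : v (j * h) ≤ 1 := by
    rw [hj]
    have := hh.le
    repeat' first | assumption | exact Ione | exact Izero | exact IofNat _ | exact Inat _ | apply Iadd | apply Isub | apply Ineg | apply Ipow | apply Imul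
  rwa [v.map_mul, hh, mul_one] at h1

lemma j5_near {j h h₀ j₀ : L} (hj : j * h = (h ^ 2 + 10 * h + 5) ^ 3) (h1 : v h₀ = 1)
    (hj1 : v j₀ ≤ 1) (hj₀ : j₀ * h₀ = (h₀ ^ 2 + 10 * h₀ + 5) ^ 3) (hh : v (h - h₀) < 1) :
    v (j - j₀) < 1 := by
  have hv : v h = 1 := unit_add hh h1 (by ring)
  have h2 : (j - j₀) * h = (h - h₀) * ((h + h₀ + 10) * ((h ^ 2 + 10 * h + 5) ^ 2 +
      (h ^ 2 + 10 * h + 5) * (h₀ ^ 2 + 10 * h₀ + 5) + (h₀ ^ 2 + 10 * h₀ + 5) ^ 2) - j₀) := by
    linear_combination hj - hj₀
  have h3 : v ((j - j₀) * h) < 1 := by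
    rw [h2]
    refine small_mul hh ?_
    have := hv.le
    have := h1.le
    repeat' first | assumption | exact Ione | exact Izero | exact IofNat _ | exact Inat _ | apply Iadd | apply Isub | apply Ineg | apply Ipow | apply Imul
  rwa [v.map_mul, hv, mul_one] at h3

/-- Cremona's curve `15a1` -/
structure Is1 (W : Affine L) : Prop where
  four : W.a₄ = -12987
  six : W.a₆ = -263466

/-- the seven affine rational points of `15a1` -/
def Tab1 (x y : L) : Prop :=
  (x = -102 ∧ y = 0) ∨ (x = -21 ∧ y = 0) ∨ (x = 123 ∧ y = 0) ∨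
      (x = 303 ∧ (y = 4860 ∨ y = -4860)) ∨ (x = -57 ∧ (y = 540 ∨ y = -540))

variable {W : Affine L}

/-- the rational points of `15a1` -/
def IsPt1 (c : W.Point) : Prop :=
  c = 0 ∨ ∃ (x y : L) (h : W.Nonsingular x y), c = Point.some x y h ∧ Tab1 x y

variable [W.IsShortNF]

lemma Is1.eq (i : Is1 W) {x y : L} (h : W.Nonsingular x y) :
    y ^ 2 = (x + 102) * (x + 21) * (x - 123) := by
  have := eqn W h
  rw [i.four, i.six] at this
  rw [this]; ring

omit [W.IsShortNF] in
lemma Is1.a4 (i : Is1 W) (v : Valuation L Γ₀) : v W.a₄ ≤ 1 := by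
  rw [i.four]; repeat' first | assumption | exact Ione | exact Izero | exact IofNat _ | exact Inat _ | apply Iadd | apply Isub | apply Ineg | apply Ipow | apply Imul

omit [W.IsShortNF] in
lemma Is1.a6 (i : Is1 W) (v : Valuation L Γ₀) : v W.a₆ ≤ 1 := by
  rw [i.six]; repeat' first | assumption | exact Ione | exact Izero | exact IofNat _ | exact Inat _ | apply Iadd | apply Isub | apply Ineg | apply Ipow | apply Imul

lemma Is1.ns (i : Is1 W) (h2 : (2 : L) ≠ 0) (h3 : (3 : L) ≠ 0) (h5 : (5 : L) ≠ 0) {x y : L}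
    (h : y ^ 2 = (x + 102) * (x + 21) * (x - 123)) : W.Nonsingular x y := by
  rw [W.nonsingular_iff, W.equation_iff, a₁_of_isShortNF, a₂_of_isShortNF, a₃_of_isShortNF,
    i.four, i.six]
  refine ⟨by linear_combination h, ?_⟩
  by_contra hcon
  push Not at hcon
  obtain ⟨c1, c2⟩ := hcon
  have hy : y = 0 := by
    have : 2 * y = 0 := by linear_combination c2
    exact (mul_eq_zero.mp this).resolve_left h2
  rw [hy] at h c1
  have c3 : 3 * x ^ 2 - 12987 = 0 := by linear_combination -c1
  have h0 : (x + 102) * (x + 21) * (x - 123) = 0 := by rw [← h]; ring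
  have k : ∀ a : L, (3 * a ^ 2 - 12987 ≠ 0) → x ≠ a := fun a ha hx => ha (by rw [← hx]; exact c3)
  rcases mul_eq_zero.mp h0 with h0 | h0
  · rcases mul_eq_zero.mp h0 with h0 | h0
    · refine k (-102) ?_ (by linear_combination h0)
      have : (3 : L) * (-102) ^ 2 - 12987 = 3 ^ 6 * 5 ^ 2 := by norm_num
      rw [this]
      exact mul_ne_zero (pow_ne_zero _ h3) (pow_ne_zero _ h5)
    · refine k (-21) ?_ (by linear_combination h0)
      have : (3 : L) * (-21) ^ 2 - 12987 = -(2 ^ 4 * 3 ^ 6) := by norm_num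
      rw [this]
      exact neg_ne_zero.mpr (mul_ne_zero (pow_ne_zero _ h2) (pow_ne_zero _ h3))
  · refine k 123 ?_ (by linear_combination h0)
    have : (3 : L) * 123 ^ 2 - 12987 = 2 ^ 4 * 3 ^ 4 * 5 ^ 2 := by norm_num
    rw [this]
    exact mul_ne_zero (mul_ne_zero (pow_ne_zero _ h2) (pow_ne_zero _ h3)) (pow_ne_zero _ h5)

/-- near the origin -/
lemma c1_zero (g : Good v) (i : Is1 W) {x y h : L} (hxy : W.Nonsingular x y)
    (hD : h * (9 * (x + 21) * (x + 177) + (x - 15) * y) = -27000 * (x + 21)) (hx : 1 < v x) :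
    v h * v y = 1 := by
  have h0 : 0 < v x := zero_lt_one.trans hx
  have hsq := val_y_sq (i.a4 v) (i.a6 v) hxy hx
  have hy0 : 0 < v y := by
    rw [zero_lt_iff]
    intro hy
    rw [hy, zero_pow two_ne_zero] at hsq
    exact (pow_pos h0 3).ne hsq
  have hxy' : v x < v y := by
    refine lt_of_pow_lt_pow_left₀ 2 hy0.le ?_
    rw [hsq]
    exact pow_lt_pow_right₀ hx (by norm_num)
  have e : ∀ n : L, v n ≤ 1 → v (x + n) = v x := fun n hn =>
    v.map_add_eq_of_lt_left (hn.trans_lt hx)
  have e21 : v (x + 21) = v x := e _ (by repeat' first | assumption | exact Ione | exact Izero | exact IofNat _ | exact Inat _ | apply Iadd | apply Isub | apply Ineg | apply Ipow | apply Imul)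
  have e177 : v (x + 177) = v x := e _ (by repeat' first | assumption | exact Ione | exact Izero | exact IofNat _ | exact Inat _ | apply Iadd | apply Isub | apply Ineg | apply Ipow | apply Imul)
  have e15 : v (x - 15) = v x := by rw [sub_eq_add_neg]; exact e _ (by repeat' first | assumption | exact Ione | exact Izero | exact IofNat _ | exact Inat _ | apply Iadd | apply Isub | apply Ineg | apply Ipow | apply Imul)
  have hden : v (9 * (x + 21) * (x + 177) + (x - 15) * y) = v x * v y := by
    rw [v.map_add_eq_of_lt_right, v.map_mul, e15]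
    rw [v.map_mul, v.map_mul, v.map_mul, e21, e177, e15]
    have h9 : v (9 : L) = 1 := g.num 0 2 0 (by norm_num)
    rw [h9, one_mul]
    exact mul_lt_mul_of_pos_left hxy' h0
  have h1 := congrArg v hD
  rw [v.map_mul, hden, v.map_mul, g.v27000, one_mul, e21] at h1
  have h2 : v h * v y * v x = 1 * v x := by
    rw [one_mul, mul_assoc, mul_comm (v y)]
    exact h1
  exact mul_right_cancel₀ h0.ne' h2

/-- near the cusp `(-21, 0)` -/
lemma c1_three (g : Good v) (i : Is1 W) {x y h : L} (hxy : W.Nonsingular x y)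
    (hD : h * (9 * (x + 21) * (x + 177) + (x - 15) * y) = -27000 * (x + 21)) (h21 : x + 21 ≠ 0)
    (hx : v (x + 21) < 1) : v y ^ 2 = v (x + 21) ∧ v h = v y ∧ v y < 1 ∧ 0 < v y := by
  have h0 : 0 < v (x + 21) := zero_lt_iff.mpr ((v.ne_zero_iff).mpr h21)
  have e102 : v (x + 102) = 1 := unit_add hx (g.num 0 4 0 rfl) (by ring)
  have e123 : v (x - 123) = 1 := unit_add hx (g.neg_num 4 2 0 rfl) (by ring)
  have e15 : v (x - 15) = 1 := unit_add hx (g.neg_num 2 2 0 rfl) (by ring)
  have e177 : v (x + 177) ≤ 1 := by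
    have : x + 177 = (x + 21) + 156 := by ring
    rw [this]
    have := hx.le
    repeat' first | assumption | exact Ione | exact Izero | exact IofNat _ | exact Inat _ | apply Iadd | apply Isub | apply Ineg | apply Ipow | apply Imul
  have hsq : v y ^ 2 = v (x + 21) := by
    rw [← v.map_pow, i.eq hxy, v.map_mul, v.map_mul, e102, e123, one_mul, mul_one]
  have hy0 : 0 < v y := by
    rw [zero_lt_iff]
    intro hy
    rw [hy, zero_pow two_ne_zero] at hsq
    exact h0.ne hsq
  have hy1 : v y < 1 := by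
    rw [← hsq] at hx
    exact (pow_lt_one_iff two_ne_zero).mp hx
  have hden : v (9 * (x + 21) * (x + 177) + (x - 15) * y) = v y := by
    rw [v.map_add_eq_of_lt_right, v.map_mul, e15, one_mul]
    rw [v.map_mul (x - 15), e15, one_mul]
    have h9 : v (9 * (x + 21) * (x + 177)) ≤ v (x + 21) := by
      rw [mul_comm (9 : L), mul_assoc]
      refine Jmul le_rfl ?_
      repeat' first | assumption | exact Ione | exact Izero | exact IofNat _ | exact Inat _ | apply Iadd | apply Isub | apply Ineg | apply Ipow | apply Imul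
    refine h9.trans_lt ?_
    rw [← hsq, sq]
    exact mul_lt_of_lt_one_right hy0 hy1
  have h1 := congrArg v hD
  rw [v.map_mul, hden, v.map_mul, g.v27000, one_mul, ← hsq, sq] at h1
  exact ⟨hsq, mul_right_cancel₀ hy0.ne' h1, hy1, hy0⟩

/-- near the cusp `(303, -4860)` -/
lemma c1_fifteen (g : Good v) (i : Is1 W) {x y h : L} (hxy : W.Nonsingular x y)
    (hD : h * (9 * (x + 21) * (x + 177) + (x - 15) * y) = -27000 * (x + 21))
    (hx : v (x - 303) < 1) (hyi : v y ≤ 1) (hy : v (y - 4860) = 1) :
    v h * v (x - 303) = 1 := by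
  have e21 : v (x + 21) = 1 := unit_add hx (g.num 2 4 0 rfl) (by ring)
  have e57 : v (x + 57) = 1 := unit_add hx (g.num 3 2 1 rfl) (by ring)
  have hxi : v x ≤ 1 := by
    have : x = (x - 303) + 303 := by ring
    rw [this]
    have := hx.le
    repeat' first | assumption | exact Ione | exact Izero | exact IofNat _ | exact Inat _ | apply Iadd | apply Isub | apply Ineg | apply Ipow | apply Imul
  have hDb : v (9 * (x + 21) * (x + 177) - (x - 15) * y) = 1 := by
    refine unit_add (e := (x - 303) * (9 * (x + 501) - y)) (n := -(2 ^ 5 * 3 ^ 2 * (y - 4860)))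
      (small_mul hx ?_) ?_ (by ring)
    · repeat' first | assumption | exact Ione | exact Izero | exact IofNat _ | exact Inat _ | apply Iadd | apply Isub | apply Ineg | apply Ipow | apply Imul
    · rw [v.map_neg, v.map_mul, hy, mul_one]
      exact g.num 5 2 0 (by ring)
  have hprod : (9 * (x + 21) * (x + 177) + (x - 15) * y) *
      (9 * (x + 21) * (x + 177) - (x - 15) * y) = -((x + 21) * (x + 57) ^ 3 * (x - 303)) := by
    linear_combination -(x - 15) ^ 2 * i.eq hxy
  have h1 := congrArg v hprod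
  rw [v.map_mul, hDb, mul_one, v.map_neg, v.map_mul, v.map_mul, v.map_pow, e21, e57, one_pow,
    one_mul, one_mul] at h1
  have h2 := congrArg v hD
  rw [v.map_mul, v.map_mul, g.v27000, one_mul, e21, h1] at h2
  exact h2

/-- near the cusp `(-57, -540)` -/
lemma c1_five (g : Good v) (i : Is1 W) {x y h : L} (hxy : W.Nonsingular x y)
    (hD : h * (9 * (x + 21) * (x + 177) + (x - 15) * y) = -27000 * (x + 21))
    (hx : v (x + 57) < 1) (hyi : v y ≤ 1) (hy : v (y - 540) = 1) :
    v h * v (x + 57) ^ 3 = 1 := by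
  have e21 : v (x + 21) = 1 := unit_add hx (g.neg_num 2 2 0 rfl) (by ring)
  have e303 : v (x - 303) = 1 := unit_add hx (g.neg_num 3 2 1 rfl) (by ring)
  have hxi : v x ≤ 1 := by
    have : x = (x + 57) - 57 := by ring
    rw [this]
    have := hx.le
    repeat' first | assumption | exact Ione | exact Izero | exact IofNat _ | exact Inat _ | apply Iadd | apply Isub | apply Ineg | apply Ipow | apply Imul
  have hDb : v (9 * (x + 21) * (x + 177) - (x - 15) * y) = 1 := by
    refine unit_add (e := (x + 57) * (9 * (x + 141) - y)) (n := 2 ^ 3 * 3 ^ 2 * (y - 540))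
      (small_mul hx ?_) ?_ (by ring)
    · repeat' first | assumption | exact Ione | exact Izero | exact IofNat _ | exact Inat _ | apply Iadd | apply Isub | apply Ineg | apply Ipow | apply Imul
    · rw [v.map_mul, hy, mul_one]
      exact g.num 3 2 0 (by ring)
  have hprod : (9 * (x + 21) * (x + 177) + (x - 15) * y) *
      (9 * (x + 21) * (x + 177) - (x - 15) * y) = -((x + 21) * (x + 57) ^ 3 * (x - 303)) := by
    linear_combination -(x - 15) ^ 2 * i.eq hxy
  have h1 := congrArg v hprod
  rw [v.map_mul, hDb, mul_one, v.map_neg, v.map_mul, v.map_mul, v.map_pow, e21, e303,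
    one_mul, mul_one] at h1
  have h2 := congrArg v hD
  rw [v.map_mul, v.map_mul, g.v27000, one_mul, e21, h1] at h2
  exact h2

end Pool.Agent.H23T
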