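import Pool.Agent.H23T.Near1

/-! # The modular curve `X(s3, b5)` near the cusps (helper23) -/

namespace Pool.Agent.H23T

open WeierstrassCurve WeierstrassCurve.Affine Pool.Agent.GE

variable {L : Type*} [Field L] {Γ₀ : Type*} [LinearOrderedCommGroupWithZero Γ₀]
  {v : Valuation L Γ₀}

/-- Cremona's curve `15a3` -/
structure Is2 (W : Affine L) : Prop where
  four : W.a₄ = -6507
  six : W.a₆ = 199206

/-- the seven affine rational points of `15a3` -/
def Tab2 (x y : L) : Prop :=
  (x = 51 ∧ y = 0) ∨ (x = 42 ∧ y = 0) ∨ (x = -93 ∧ y = 0) ∨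
      (x = 87 ∧ (y = 540 ∨ y = -540)) ∨ (x = 15 ∧ (y = 324 ∨ y = -324))

variable {W : Affine L}

/-- the rational points of `15a3` -/
def IsPt2 (c : W.Point) : Prop :=
  c = 0 ∨ ∃ (x y : L) (h : W.Nonsingular x y), c = Point.some x y h ∧ Tab2 x y

lemma Is2.a4 (i : Is2 W) (v : Valuation L Γ₀) : v W.a₄ ≤ 1 := by
  rw [i.four]; repeat' first | assumption | exact Ione | exact Izero | exact IofNat _ | exact Inat _ | apply Iadd | apply Isub | apply Ineg | apply Ipow | apply Imul

lemma Is2.a6 (i : Is2 W) (v : Valuation L Γ₀) : v W.a₆ ≤ 1 := by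
  rw [i.six]; repeat' first | assumption | exact Ione | exact Izero | exact IofNat _ | exact Inat _ | apply Iadd | apply Isub | apply Ineg | apply Ipow | apply Imul

/-- the functions `r = h₅ ^ (1 / 3)` and `m = j ^ (1 / 3)` on `15a3` -/
structure Fun2 (x y r m : L) : Prop where
  r0 : r ≠ 0
  A : r * (y - 3 * (x + 93)) = 30 * (x - 15)
  B : r * ((x - 87) * (x + 93)) = 30 * (y + 3 * (x + 93))
  M : m * r = r ^ 6 + 10 * r ^ 3 + 5

lemma m_lt (g : Good v) {m r : L} (hm : m * r = r ^ 6 + 10 * r ^ 3 + 5) (hr : v r < 1) :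
    v m * v r = 1 := by
  have h1 : v (r ^ 6 + 10 * r ^ 3 + 5) = 1 := by
    refine unit_add (e := r * (r ^ 5 + 10 * r ^ 2)) (small_mul hr ?_) g.five (by ring)
    have := hr.le
    repeat' first | assumption | exact Ione | exact Izero | exact IofNat _ | exact Inat _ | apply Iadd | apply Isub | apply Ineg | apply Ipow | apply Imul
  rw [← v.map_mul, hm, h1]

lemma m_gt {m r : L} (hm : m * r = r ^ 6 + 10 * r ^ 3 + 5) (hr : 1 < v r) : v m = v r ^ 5 := by
  have h0 : 0 < v r := zero_lt_one.trans hr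
  have h1 : v (r ^ 6 + 10 * r ^ 3 + 5) = v r ^ 6 := by
    rw [add_assoc, v.map_add_eq_of_lt_left, v.map_pow]
    rw [v.map_pow]
    have h2 : v r ^ 3 < v r ^ 6 := pow_lt_pow_right₀ hr (by norm_num)
    refine lt_of_le_of_lt (v.map_add_le (g := v r ^ 3) (Jmul' ?_ (v.map_pow _ _).le)
      (le_trans ?_ (one_le_pow₀ hr.le))) h2
    · repeat' first | assumption | exact Ione | exact Izero | exact IofNat _ | exact Inat _ | apply Iadd | apply Isub | apply Ineg | apply Ipow | apply Imul
    · repeat' first | assumption | exact Ione | exact Izero | exact IofNat _ | exact Inat _ | apply Iadd | apply Isub | apply Ineg | apply Ipow | apply Imul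
  have h3 : v m * v r = v r ^ 5 * v r := by
    rw [← v.map_mul, hm, h1, ← pow_succ]
  exact mul_right_cancel₀ h0.ne' h3

lemma m_eq {m r : L} (hm : m * r = r ^ 6 + 10 * r ^ 3 + 5) (hr : v r = 1) : v m ≤ 1 := by
  have h1 : v (m * r) ≤ 1 := by
    rw [hm]
    have := hr.le
    repeat' first | assumption | exact Ione | exact Izero | exact IofNat _ | exact Inat _ | apply Iadd | apply Isub | apply Ineg | apply Ipow | apply Imul
  rwa [v.map_mul, hr, mul_one] at h1

lemma m_near {m r m₀ r₀ : L} (hm : m * r = r ^ 6 + 10 * r ^ 3 + 5)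
    (hm₀ : m₀ * r₀ = r₀ ^ 6 + 10 * r₀ ^ 3 + 5) (h1 : v r₀ = 1) (h2 : v m₀ ≤ 1)
    (hr : v (r - r₀) < 1) : v (m ^ 3 - m₀ ^ 3) < 1 := by
  have hv : v r = 1 := unit_add hr h1 (by ring)
  have hvm : v m ≤ 1 := m_eq hm hv
  have h3 : (m - m₀) * r = (r - r₀) * ((r ^ 2 + r * r₀ + r₀ ^ 2) * (r ^ 3 + r₀ ^ 3 + 10) -
      m₀) := by
    linear_combination hm - hm₀
  have h4 : v (m - m₀) < 1 := by
    refine lt_one_of_mul_unit (b := r) ?_ hv
    rw [h3]
    refine small_mul hr ?_
    have := hv.le
    have := h1.le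
    repeat' first | assumption | exact Ione | exact Izero | exact IofNat _ | exact Inat _ | apply Iadd | apply Isub | apply Ineg | apply Ipow | apply Imul
  have h5 : m ^ 3 - m₀ ^ 3 = (m - m₀) * (m ^ 2 + m * m₀ + m₀ ^ 2) := by ring
  rw [h5]
  refine small_mul h4 ?_
  repeat' first | assumption | exact Ione | exact Izero | exact IofNat _ | exact Inat _ | apply Iadd | apply Isub | apply Ineg | apply Ipow | apply Imul

variable [W.IsShortNF]

lemma Is2.eq (i : Is2 W) {x y : L} (h : W.Nonsingular x y) :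
    y ^ 2 = (x - 51) * (x - 42) * (x + 93) := by
  have := eqn W h
  rw [i.four, i.six] at this
  rw [this]; ring

lemma Is2.ns (i : Is2 W) (h2 : (2 : L) ≠ 0) (h3 : (3 : L) ≠ 0) (h5 : (5 : L) ≠ 0) {x y : L}
    (h : y ^ 2 = (x - 51) * (x - 42) * (x + 93)) : W.Nonsingular x y := by
  rw [W.nonsingular_iff, W.equation_iff, a₁_of_isShortNF, a₂_of_isShortNF, a₃_of_isShortNF,
    i.four, i.six]
  refine ⟨by linear_combination h, ?_⟩
  by_contra hcon
  push Not at hcon
  obtain ⟨c1, c2⟩ := hcon
  have hy : y = 0 := by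
    have : 2 * y = 0 := by linear_combination c2
    exact (mul_eq_zero.mp this).resolve_left h2
  rw [hy] at h c1
  have c3 : 3 * x ^ 2 - 6507 = 0 := by linear_combination -c1
  have h0 : (x - 51) * (x - 42) * (x + 93) = 0 := by rw [← h]; ring
  have k : ∀ a : L, (3 * a ^ 2 - 6507 ≠ 0) → x ≠ a := fun a ha hx => ha (by rw [← hx]; exact c3)
  rcases mul_eq_zero.mp h0 with h0 | h0
  · rcases mul_eq_zero.mp h0 with h0 | h0
    · refine k 51 ?_ (by linear_combination h0)
      have : (3 : L) * 51 ^ 2 - 6507 = 2 ^ 4 * 3 ^ 4 := by norm_num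
      rw [this]
      exact mul_ne_zero (pow_ne_zero _ h2) (pow_ne_zero _ h3)
    · refine k 42 ?_ (by linear_combination h0)
      have : (3 : L) * 42 ^ 2 - 6507 = -(3 ^ 5 * 5) := by norm_num
      rw [this]
      exact neg_ne_zero.mpr (mul_ne_zero (pow_ne_zero _ h3) h5)
  · refine k (-93) ?_ (by linear_combination h0)
    have : (3 : L) * (-93) ^ 2 - 6507 = 2 ^ 4 * 3 ^ 5 * 5 := by norm_num
    rw [this]
    exact mul_ne_zero (mul_ne_zero (pow_ne_zero _ h2) (pow_ne_zero _ h3)) h5

/-- near the origin -/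
lemma c2_zero (g : Good v) (i : Is2 W) {x y r m : L} (hxy : W.Nonsingular x y)
    (f : Fun2 x y r m) (hx : 1 < v x) : v r = v x / v y := by
  have h0 : 0 < v x := zero_lt_one.trans hx
  have hsq := val_y_sq (i.a4 v) (i.a6 v) hxy hx
  have hy0 : 0 < v y := by
    rw [zero_lt_iff]
    intro hy
    rw [hy, zero_pow two_ne_zero] at hsq
    exact (pow_pos h0 3).ne hsq
  have hxy' : v x < v y := by
    refine lt_of_pow_lt_pow_left₀ 2 hy0.le ?_
    rw [hsq]
    exact pow_lt_pow_right₀ hx (by norm_num)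
  have e : ∀ n : L, v n ≤ 1 → v (x + n) = v x := fun n hn =>
    v.map_add_eq_of_lt_left (hn.trans_lt hx)
  have e93 : v (x + 93) = v x := e _ (by repeat' first | assumption | exact Ione | exact Izero | exact IofNat _ | exact Inat _ | apply Iadd | apply Isub | apply Ineg | apply Ipow | apply Imul)
  have e15 : v (x - 15) = v x := by rw [sub_eq_add_neg]; exact e _ (by repeat' first | assumption | exact Ione | exact Izero | exact IofNat _ | exact Inat _ | apply Iadd | apply Isub | apply Ineg | apply Ipow | apply Imul)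
  have hden : v (y - 3 * (x + 93)) = v y := by
    rw [v.map_sub_eq_of_lt_left]
    rw [v.map_mul, g.three, one_mul, e93]
    exact hxy'
  have h1 := congrArg v f.A
  rw [v.map_mul, hden, v.map_mul, e15, g.num 1 1 1 (by norm_num : (30 : L) = _), one_mul] at h1
  rw [← h1, mul_div_assoc, div_self hy0.ne', mul_one]

/-- near the cusp `(15, -324)` -/
lemma c2_three (g : Good v) {x y r m : L} (f : Fun2 x y r m) (hx : v (x - 15) < 1)
    (hy : v (y + 324) < 1) : v r = v (x - 15) := by
  have hden : v (y - 3 * (x + 93)) = 1 := by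
    refine unit_add (e := (y + 324) - 3 * (x - 15)) (n := -648) ?_
      (g.neg_num 3 4 0 (by norm_num)) (by ring)
    exact v.map_sub_lt hy (small_mul' (by repeat' first | assumption | exact Ione | exact Izero | exact IofNat _ | exact Inat _ | apply Iadd | apply Isub | apply Ineg | apply Ipow | apply Imul) hx)
  have h1 := congrArg v f.A
  rwa [v.map_mul, hden, v.map_mul, g.num 1 1 1 (by norm_num : (30 : L) = _), one_mul,
    mul_one] at h1

/-- near the cusp `(87, 540)` -/
lemma c2_five (g : Good v) {x y r m : L} (f : Fun2 x y r m) (hx : v (x - 87) < 1)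
    (hy : v (y - 540) < 1) : v r * v (x - 87) = 1 := by
  have h93 : v (x + 93) = 1 := unit_add hx (g.num 2 2 1 (by norm_num : (180 : L) = _)) (by ring)
  have hden : v (y + 3 * (x + 93)) = 1 := by
    refine unit_add (e := (y - 540) + 3 * (x - 87)) (n := 1080) ?_
      (g.num 3 3 1 (by norm_num)) (by ring)
    exact v.map_add_lt hy (small_mul' (by repeat' first | assumption | exact Ione | exact Izero | exact IofNat _ | exact Inat _ | apply Iadd | apply Isub | apply Ineg | apply Ipow | apply Imul) hx)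
  have h1 := congrArg v f.B
  rwa [v.map_mul, v.map_mul, h93, v.map_mul, hden, g.num 1 1 1 (by norm_num : (30 : L) = _),
    one_mul, mul_one] at h1

/-- near the cusp `(-93, 0)` -/
lemma c2_fifteen (g : Good v) (i : Is2 W) {x y r m : L} (hxy : W.Nonsingular x y)
    (f : Fun2 x y r m) (hx : v (x + 93) < 1) :
    v y ^ 2 = v (x + 93) ∧ v r * v y = 1 ∧ v y < 1 ∧ 0 < v y := by
  have e51 : v (x - 51) = 1 := unit_add hx (g.neg_num 4 2 0 rfl) (by ring)
  have e42 : v (x - 42) = 1 := unit_add hx (g.neg_num 0 3 1 rfl) (by ring)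
  have e87 : v (x - 87) = 1 := unit_add hx (g.neg_num 2 2 1 rfl) (by ring)
  have e15 : v (x - 15) = 1 := unit_add hx (g.neg_num 2 3 0 rfl) (by ring)
  have hsq : v y ^ 2 = v (x + 93) := by
    rw [← v.map_pow, i.eq hxy, v.map_mul, v.map_mul, e51, e42, one_mul, one_mul]
  have hy1 : v y < 1 := by
    rw [← hsq] at hx
    exact (pow_lt_one_iff two_ne_zero).mp hx
  have hy0 : 0 < v y := by
    rw [zero_lt_iff]
    intro hy
    have hy' : y = 0 := (v.zero_iff).mp hy
    have hx' : x + 93 = 0 := by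
      rw [← v.zero_iff, ← hsq, hy, zero_pow two_ne_zero]
    have h1 := congrArg v f.A
    rw [hy', hx'] at h1
    rw [v.map_mul 30, e15, g.num 1 1 1 (by norm_num : (30 : L) = _)] at h1
    simp at h1
  have hden : v (y + 3 * (x + 93)) = v y := by
    rw [v.map_add_eq_of_lt_left]
    rw [v.map_mul, g.three, one_mul, ← hsq, sq]
    exact mul_lt_of_lt_one_right hy0 hy1
  have h1 := congrArg v f.B
  rw [v.map_mul, v.map_mul, e87, v.map_mul, hden, g.num 1 1 1 (by norm_num : (30 : L) = _),
    one_mul, one_mul, ← hsq, sq, ← mul_assoc] at h1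
  refine ⟨hsq, ?_, hy1, hy0⟩
  have h2 : v r * v y * v y = 1 * v y := by rw [one_mul]; exact h1
  exact mul_right_cancel₀ hy0.ne' h2

end Pool.Agent.H23T
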