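import Pool.Agent.H23T.Mod
import Pool.Agent.H42M.ModMain

/-! # The moduli form over an arbitrary field (helper23), after `H42M.ModMain` -/

namespace Pool.Agent.H23T

open WeierstrassCurve WeierstrassCurve.Affine Pool.Agent.H42M

lemma j_mul_disc {F : Type*} [Field F] (W : WeierstrassCurve F) [W.IsElliptic] :
    W.j * W.Δ = W.c₄ ^ 3 := by
  rw [WeierstrassCurve.j, ← W.coe_Δ', mul_comm (_ * _), ← mul_assoc, Units.mul_inv, one_mul]

lemma j_eq {F : Type*} [Field F] (W : WeierstrassCurve F) [W.IsElliptic] :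
    6912 * (-27 * W.c₄) ^ 3 = W.j * (4 * (-27 * W.c₄) ^ 3 + 27 * (-54 * W.c₆) ^ 2) := by
  have h1 := j_mul_disc W
  have h2 := W.c_relation
  linear_combination (-136048896) * h1 * (-1) - 78732 * W.j * h2

/-- An elliptic curve with a Galois stable subgroup of order 5 and a Galois stable pair of
subgroups of order 3 gives a point of one of the two curves. -/
theorem moduli_core_gen {F K : Type*} [Field F] [CharZero F] [Field K] [Algebra F K] [IsGalois F K]
    [DecidableEq K] (hreal : ∀ m : F, m ^ 2 + 12 * m + 144 ≠ 0)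
    (W : WeierstrassCurve F) [W.IsElliptic] (hj0 : W.j ≠ 0)
    (C₅ : AddSubgroup (WeierstrassCurve.Affine.baseChange W K).Point)
    (hC₅ : Nat.card C₅ = 5) (hst₅ : ∀ σ : K ≃ₐ[F] K, C₅.map (act W σ) = C₅)
    (hthree : (∃ x : F, 3 * x ^ 4 + 6 * (-27 * W.c₄) * x ^ 2 + 12 * (-54 * W.c₆) * x -
      (-27 * W.c₄) ^ 2 = 0) ∨
    ∃ (x₁ x₂ : K) (u v : F), algebraMap F K u = x₁ + x₂ ∧ algebraMap F K v = x₁ * x₂ ∧ x₁ ≠ x₂ ∧
      3 * x₁ ^ 4 + 6 * (-27 * algebraMap F K W.c₄) * x₁ ^ 2 +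
        12 * (-54 * algebraMap F K W.c₆) * x₁ - (-27 * algebraMap F K W.c₄) ^ 2 = 0 ∧
      3 * x₂ ^ 4 + 6 * (-27 * algebraMap F K W.c₄) * x₂ ^ 2 +
        12 * (-54 * algebraMap F K W.c₆) * x₂ - (-27 * algebraMap F K W.c₄) ^ 2 = 0) :
    W.j = -121945 / 32 ∨
      (∃ x y h : F, y ^ 2 = (x + 102) * (x + 21) * (x - 123) ∧ Fun1 x y h W.j) ∨
      ∃ x y r m : F, y ^ 2 = (x - 51) * (x - 42) * (x + 93) ∧ Fun2 x y r m ∧ W.j = m ^ 3 := by
  have : CharZero K := charZero_of_injective_algebraMap (algebraMap F K).injective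
  have hdisc := disc_ne_zero W
  have hA0 : -27 * W.c₄ ≠ 0 := by
    intro h0
    have hc : W.c₄ = 0 := (mul_eq_zero.mp h0).resolve_left (by norm_num)
    have h1 := j_mul_disc W
    rw [hc, zero_pow three_ne_zero] at h1
    rcases mul_eq_zero.mp h1 with h1 | h1
    · exact hj0 h1
    · exact W.isUnit_Δ.ne_zero h1
  obtain ⟨x₁, x₂, s, p, hs, hp, hne, hd1, hd2⟩ := five hC₅ hst₅
  obtain ⟨hk1, hk2⟩ := sym5 hne hd1 hd2
  rw [← hs, ← hp] at hk1 hk2
  have e1 : 4 * (-54 * W.c₆) = s ^ 3 - 6 * p * s - 2 * (-27 * W.c₄) * s := by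
    apply (algebraMap F K).injective
    simpa only [map_add, map_mul, map_sub, map_pow, map_neg, map_ofNat, map_zero] using hk1
  have e2 : (-27 * W.c₄) ^ 2 + 2 * (-27 * W.c₄) * s ^ 2 - 2 * (-27 * W.c₄) * p - s ^ 4 +
      5 * s ^ 2 * p + 5 * p ^ 2 = 0 := by
    have h0 : 2 * ((-27 * W.c₄) ^ 2 + 2 * (-27 * W.c₄) * s ^ 2 - 2 * (-27 * W.c₄) * p - s ^ 4 +
      5 * s ^ 2 * p + 5 * p ^ 2) = 0 := by
      apply (algebraMap F K).injective
      simpa only [map_add, map_mul, map_sub, map_pow, map_neg, map_ofNat, map_zero] using hk2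
    exact (mul_eq_zero.mp h0).resolve_left two_ne_zero
  have hD : s ^ 2 - 4 * p ≠ 0 := by
    intro h0
    have h1 : algebraMap F K (s ^ 2 - 4 * p) = 0 := by rw [h0, map_zero]
    simp only [map_mul, map_sub, map_pow, map_ofNat, hs, hp] at h1
    have h2 : (x₁ - x₂) ^ 2 = 0 := by linear_combination h1
    exact hne (sub_eq_zero.mp (pow_eq_zero_iff (two_ne_zero) |>.mp h2))
  rcases hthree with ⟨x₃, h3⟩ | ⟨y₁, y₂, u, v, hu, hv, hne3, hp1, hp2⟩
  · rcases gborel hA0 hdisc h3 e1 e2 hD (j_eq W) with h | h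
    · exact Or.inl h
    · exact Or.inr (Or.inl h)
  · obtain ⟨hk3, hk4⟩ := sym3 hne3 hp1 hp2
    rw [← hu, ← hv] at hk3 hk4
    have r1 : 4 * (-54 * W.c₆) = 2 * u * v - u ^ 3 - 2 * (-27 * W.c₄) * u := by
      have h0 : 3 * (4 * (-54 * W.c₆)) = 3 * (2 * u * v - u ^ 3 - 2 * (-27 * W.c₄) * u) := by
        apply (algebraMap F K).injective
        simpa only [map_add, map_mul, map_sub, map_pow, map_neg, map_ofNat, map_zero] using hk3
      exact mul_left_cancel₀ three_ne_zero h0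
    have r2 : (-27 * W.c₄) ^ 2 + 6 * (-27 * W.c₄) * v + 3 * u ^ 2 * v - 3 * v ^ 2 = 0 := by
      apply (algebraMap F K).injective
      simpa only [map_add, map_mul, map_sub, map_pow, map_neg, map_ofNat, map_zero] using hk4
    exact Or.inr (Or.inr (gsplit hA0 hreal hdisc r1 r2 e1 e2 hD (j_eq W)))

/-- An elliptic curve with a Galois stable subgroup of order 5, such that the elements of the
Galois group which fix the square root of -3 commute on the 3-torsion, gives a point of one of the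
two curves. -/
theorem moduli_gen {F K : Type*} [Field F] [CharZero F] [Field K] [Algebra F K] [IsGalois F K]
    [IsAlgClosed K] [DecidableEq K]
    (hreal : ∀ m : F, m ^ 2 + 12 * m + 144 ≠ 0)
    (c : K ≃ₐ[F] K) (hcc : ∀ z, c (c z) = z) (hc3 : ∀ z : K, z ^ 2 = -3 → c z = -z)
    (W : WeierstrassCurve F) [W.IsElliptic] (hj0 : W.j ≠ 0)
    (C₅ : AddSubgroup (WeierstrassCurve.Affine.baseChange W K).Point)
    (hC₅ : Nat.card C₅ = 5) (hst₅ : ∀ σ : K ≃ₐ[F] K, C₅.map (act W σ) = C₅)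
    (hab : ∀ σ τ : K ≃ₐ[F] K, (∀ z : K, z ^ 2 = -3 → σ z = z ∧ τ z = z) →
      ∀ R : (WeierstrassCurve.Affine.baseChange W K).Point, R + R = -R →
        act W σ (act W τ R) = act W τ (act W σ R)) :
    W.j = -121945 / 32 ∨
      (∃ x y h : F, y ^ 2 = (x + 102) * (x + 21) * (x - 123) ∧ Fun1 x y h W.j) ∨
      ∃ x y r m : F, y ^ 2 = (x - 51) * (x - 42) * (x + 93) ∧ Fun2 x y r m ∧ W.j = m ^ 3 := by
  have : CharZero K := charZero_of_injective_algebraMap (algebraMap F K).injective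
  have hEll : (WeierstrassCurve.Affine.baseChange W K).IsElliptic := by
    rw [WeierstrassCurve.isElliptic_iff]
    have h1 : (WeierstrassCurve.Affine.baseChange W K).Δ = algebraMap F K W.Δ := W.map_Δ _
    rw [h1]
    exact W.isUnit_Δ.map _
  have hc4 : (WeierstrassCurve.Affine.baseChange W K).c₄ = algebraMap F K W.c₄ := W.map_c₄ _
  have hc6 : (WeierstrassCurve.Affine.baseChange W K).c₆ = algebraMap F K W.c₆ := W.map_c₆ _
  have hfix : ∀ z : K, (∀ σ : K ≃ₐ[F] K, σ z = z) → ∃ a : F, algebraMap F K a = z := fun z hz =>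
    (InfiniteGalois.mem_range_algebraMap_iff_fixed z).mpr hz
  have hroot : ∀ {X : K}, Psi (WeierstrassCurve.Affine.baseChange W K) X →
      (∀ σ : K ≃ₐ[F] K, σ X = X) → ∃ x : F, 3 * x ^ 4 + 6 * (-27 * W.c₄) * x ^ 2 +
        12 * (-54 * W.c₆) * x - (-27 * W.c₄) ^ 2 = 0 := by
    intro X hX hσ
    obtain ⟨a, rfl⟩ := hfix X hσ
    refine ⟨a, ?_⟩
    unfold Psi at hX
    rw [hc4, hc6] at hX
    apply (algebraMap F K).injective
    simp only [map_add, map_mul, map_sub, map_pow, map_neg, map_ofNat, map_zero]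
    exact hX
  apply moduli_core_gen hreal W hj0 C₅ hC₅ hst₅
  obtain ⟨X₁, X₂, hne, hX₁, hX₂, h⟩ := abelian_cases (disc_ne_zero W) c hcc hc3 hab
  rcases h with h | h | h
  · exact Or.inl (hroot hX₁ h)
  · exact Or.inl (hroot hX₂ h)
  · right
    obtain ⟨u, hu⟩ := hfix (X₁ + X₂) (fun σ => by
      rcases h σ with ⟨h1, h2⟩ | ⟨h1, h2⟩
      · rw [map_add, h1, h2]
      · rw [map_add, h1, h2, add_comm])
    obtain ⟨v, hv⟩ := hfix (X₁ * X₂) (fun σ => by
      rcases h σ with ⟨h1, h2⟩ | ⟨h1, h2⟩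
      · rw [map_mul, h1, h2]
      · rw [map_mul, h1, h2, mul_comm])
    unfold Psi at hX₁ hX₂
    rw [hc4, hc6] at hX₁ hX₂
    exact ⟨X₁, X₂, u, v, hu, hv, hne, hX₁, hX₂⟩

end Pool.Agent.H23T
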