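import Pool.Agent.H23T.Core2
import Pool.Agent.H23T.ModGen
import Pool.Agent.H42M.ModFinal

/-! # The trace criterion (helper23) -/

namespace Pool.Agent.H23T

open NumberField WeierstrassCurve WeierstrassCurve.Affine Pool.Agent.GE Pool.Agent.H42M

lemma pts_of_hyp {F : Type*} [Field F] [NumberField F] [IsTotallyReal F] (H : Hyp F) : Pts F := by
  classical
  exact ⟨fun _ _ h => points_E1 H h, fun _ _ h => points_E2 H h⟩

lemma six_const' {L : Type*} [Field L] [CharZero L] {Γ₀ : Type*}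
    [LinearOrderedCommGroupWithZero Γ₀] {v : Valuation L Γ₀} (g : Good v) :
    v (-121945 / 32 : L) ≤ 1 := by
  have h32 : v (32 : L) = 1 := g.num 5 0 0 (by norm_num)
  rw [map_div₀, h32, div_one]
  repeat' first | assumption | exact Ione | exact Izero | exact IofNat _ | exact Inat _ | apply Iadd | apply Isub | apply Ineg | apply Ipow | apply Imul

theorem criterion' {F K L : Type*} [Field F] [NumberField F] (H : Pts F)
    [Field K] [NumberField K] [IsTotallyReal K] [Algebra F K] [FiniteDimensional F K]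
    [Field L] [CharZero L] [Algebra F L] [IsGalois F L] [DecidableEq (AlgebraicClosure K)]
    (W : WeierstrassCurve K) [W.IsElliptic]
    (C : AddSubgroup (W⁄(AlgebraicClosure K)).Point) (hC : Nat.card C = 5)
    (hσ : ∀ σ : AlgebraicClosure K ≃ₐ[K] AlgebraicClosure K,
      C.map (Point.map (W' := W) (σ : AlgebraicClosure K →ₐ[K] AlgebraicClosure K)) = C)
    (hab : ∀ σ τ : AlgebraicClosure K ≃ₐ[K] AlgebraicClosure K,
      (∀ z : AlgebraicClosure K, z ^ 2 = -3 → σ z = z ∧ τ z = z) →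
      ∀ R : (W⁄(AlgebraicClosure K)).Point, 3 • R = 0 →
        Point.map (W' := W) (σ : AlgebraicClosure K →ₐ[K] AlgebraicClosure K)
          (Point.map (W' := W) (τ : AlgebraicClosure K →ₐ[K] AlgebraicClosure K) R) =
        Point.map (W' := W) (τ : AlgebraicClosure K →ₐ[K] AlgebraicClosure K)
          (Point.map (W' := W) (σ : AlgebraicClosure K →ₐ[K] AlgebraicClosure K) R))
    {Γ₀ : Type*} [LinearOrderedCommGroupWithZero Γ₀] (v : Valuation L Γ₀)
    (h2 : v 2 = 1) (h3 : v 3 = 1) (h5 : v 5 = 1)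
    (hmin : ∀ w : (K →ₐ[F] L) → ℕ, (∀ τ, w τ ∣ 15 ∧ ∃ z : K, v (τ z) ^ w τ = v (τ W.j)) →
      (∃ τ₀, ∀ τ, τ ≠ τ₀ → 1 < v (τ W.j) ∧ v (τ₀ W.j) ^ w τ < v (τ W.j) ^ w τ₀) ∨
      (∀ τ, w τ = 1 ∧ 1 < v (τ W.j) ∧
        1 < v (∑ σ : K →ₐ[F] L, (σ W.j)⁻¹) * v (τ W.j) ^ 2))
    (hmult : ∃ τ : K →ₐ[F] L, 1 < v (τ W.j)) :
    ∃ τ₀ : K →ₐ[F] L, v (τ₀ W.j) ≤ 1 ∧ ∃ z : L, Six z ∧ v (τ₀ W.j - z) < 1 := by
  classical
  obtain ⟨τ₁, hτ₁⟩ := hmult
  have : Nonempty (K →ₐ[F] L) := ⟨τ₁⟩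
  have g : Good v := ⟨h2, h3, h5⟩
  have hj0 : W.j ≠ 0 := by
    intro h0
    rw [h0, map_zero, v.map_zero] at hτ₁
    exact absurd hτ₁ (not_lt.mpr zero_le_one)
  obtain ⟨φ⟩ := exists_real K
  obtain ⟨c, hcc, hc3⟩ := exists_conj (K := AlgebraicClosure K) φ
  rcases moduli_gen sum_ne_zero_of_real c hcc hc3 W hj0 C hC hσ
    (fun σ τ h R hR => hab σ τ h R (by
      rw [show (3 : ℕ) • R = R + R + R by abel, hR, neg_add_cancel])) with
    h | ⟨x, y, h, hxy, f⟩ | ⟨x, y, r, m, hxy, f, hjm⟩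
  · exfalso
    have h1 : τ₁ W.j = -121945 / 32 := by
      rw [h, map_div₀, map_neg, map_ofNat, map_ofNat]
    rw [h1] at hτ₁
    exact absurd hτ₁ (not_lt.mpr (six_const' g))
  · exact core1' H g hxy f hmin
  · rw [hjm] at hmin ⊢
    exact core2' H g hxy f hmin

end Pool.Agent.H23T
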