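import Pool.Agent.H23T.Cusp1

/-! # Points of `X₀(15)` over a valued field (helper23) -/

namespace Pool.Agent.H23T

open WeierstrassCurve WeierstrassCurve.Affine Pool.Agent.GE

/-- the six exceptional `j`-invariants -/
def Six {L : Type*} [Field L] (c : L) : Prop :=
  c = -25 / 2 ∨ c = -349938025 / 8 ∨ c = -121945 / 32 ∨ c = 46969655 / 32768 ∨
    c = 1331 / 8 ∨ c = -1680914269 / 32768

variable {L : Type*} [Field L] {Γ₀ : Type*} [LinearOrderedCommGroupWithZero Γ₀]
  {v : Valuation L Γ₀} {W : Affine L} [W.IsShortNF]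

/-- the function `h₅` on `15a1` -/
structure Fun1 (x y h j : L) : Prop where
  x21 : x + 21 ≠ 0
  h0 : h ≠ 0
  D : h * (9 * (x + 21) * (x + 177) + (x - 15) * y) = -27000 * (x + 21)
  J : j * h = (h ^ 2 + 10 * h + 5) ^ 3

/-- where `h₅` is large -/
lemma c1_large (g : Good v) (i : Is1 W) {x y h j : L} (hxy : W.Nonsingular x y)
    (f : Fun1 x y h j) (hx : v x ≤ 1) (hh : 1 < v h) :
    (v (x - 303) < 1 ∧ v (y - 4860) = 1 ∧ x ≠ 303) ∨
      (v (x + 57) < 1 ∧ v (y - 540) = 1 ∧ x ≠ -57) := by
  have hyi : v y ≤ 1 := val_y_le (i.a4 v) (i.a6 v) hxy hx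
  have hh0 : 0 < v h := zero_lt_one.trans hh
  have h1 := congrArg v f.D
  rw [v.map_mul, v.map_mul, g.v27000, one_mul] at h1
  have hx21 : v (x + 21) = 1 := by
    have hle : v (x + 21) ≤ 1 := by repeat' first | assumption | exact Ione | exact Izero | exact IofNat _ | exact Inat _ | apply Iadd | apply Isub | apply Ineg | apply Ipow | apply Imul
    refine le_antisymm hle ?_
    by_contra hcon
    push Not at hcon
    obtain ⟨-, h3, h4, -⟩ := c1_three g i hxy f.D f.x21 hcon
    rw [h3] at hh
    exact absurd hh (not_lt.mpr h4.le)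
  rw [hx21] at h1
  have hden : v (9 * (x + 21) * (x + 177) + (x - 15) * y) < 1 := by
    by_contra hcon
    push Not at hcon
    have := lt_of_lt_of_le hh (le_mul_of_one_le_right' hcon)
    rw [h1] at this
    exact lt_irrefl _ this
  have hprod : (9 * (x + 21) * (x + 177) + (x - 15) * y) *
      (9 * (x + 21) * (x + 177) - (x - 15) * y) = -((x + 21) * (x + 57) ^ 3 * (x - 303)) := by
    linear_combination -(x - 15) ^ 2 * i.eq hxy
  have h2 : v ((x + 57) ^ 3 * (x - 303)) < 1 := by
    have h3 := congrArg v hprod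
    rw [v.map_neg, mul_assoc (x + 21), v.map_mul (x + 21), hx21, one_mul] at h3
    rw [← h3]
    refine small_mul hden ?_
    repeat' first | assumption | exact Ione | exact Izero | exact IofNat _ | exact Inat _ | apply Iadd | apply Isub | apply Ineg | apply Ipow | apply Imul
  rw [v.map_mul, v.map_pow] at h2
  by_cases h303 : v (x - 303) < 1
  · left
    have hy4860 : v (y + 4860) < 1 := by
      have h3 : v (288 * (y + 4860)) < 1 :=
        small_add hden (n := -((x - 303) * (9 * (x + 501) + y)))
          (by rw [v.map_neg]; exact small_mul h303 (by repeat' first | assumption | exact Ione | exact Izero | exact IofNat _ | exact Inat _ | apply Iadd | apply Isub | apply Ineg | apply Ipow | apply Imul)) (by ring)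
      rwa [v.map_mul, g.num 5 2 0 (by norm_num : (288 : L) = 2 ^ 5 * 3 ^ 2 * 5 ^ 0), one_mul] at h3
    have hy' : v (y - 4860) = 1 :=
      unit_add hy4860 (n := -9720) (g.neg_num 3 5 1 (by norm_num)) (by ring)
    refine ⟨h303, hy', ?_⟩
    intro hx3
    have h3 := c1_fifteen g i hxy f.D h303 hyi hy'
    rw [hx3, sub_self, v.map_zero, mul_zero] at h3
    exact zero_ne_one h3
  · right
    have h303' : v (x - 303) = 1 := le_antisymm (by repeat' first | assumption | exact Ione | exact Izero | exact IofNat _ | exact Inat _ | apply Iadd | apply Isub | apply Ineg | apply Ipow | apply Imul) (not_lt.mp h303)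
    rw [h303', mul_one] at h2
    have h57 : v (x + 57) < 1 := (pow_lt_one_iff (by norm_num)).mp h2
    have hy540 : v (y + 540) < 1 := by
      have h3 : v (72 * (y + 540)) < 1 :=
        small_add (e := -(9 * (x + 21) * (x + 177) + (x - 15) * y))
          (n := (x + 57) * (9 * (x + 141) + y))
          (by rwa [v.map_neg]) (small_mul h57 (by repeat' first | assumption | exact Ione | exact Izero | exact IofNat _ | exact Inat _ | apply Iadd | apply Isub | apply Ineg | apply Ipow | apply Imul)) (by ring)
      rwa [v.map_mul, g.num 3 2 0 (by norm_num : (72 : L) = 2 ^ 3 * 3 ^ 2 * 5 ^ 0), one_mul] at h3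
    have hy' : v (y - 540) = 1 :=
      unit_add hy540 (n := -1080) (g.neg_num 3 3 1 (by norm_num)) (by ring)
    refine ⟨h57, hy', ?_⟩
    intro hx3
    have h3 := c1_five g i hxy f.D h57 hyi hy'
    rw [hx3, neg_add_cancel, v.map_zero, zero_pow three_ne_zero, mul_zero] at h3
    exact zero_ne_one h3

variable [DecidableEq L]

/-- points where `j` is large are close to a cusp -/
theorem far1 (g : Good v) (i : Is1 W) {x y h j : L} (hxy : W.Nonsingular x y)
    (f : Fun1 x y h j) (hj : 1 < v j) :
    ∃ c : W.Point, IsPt1 c ∧ ∃ w, w ∣ 15 ∧ ∃ s : Γ₀, s < 1 ∧ s ^ w * v j = 1 ∧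
      Exact v s (Point.some x y hxy - c) := by
  have g2 : (2 : L) ≠ 0 := (v.ne_zero_iff).mp (by rw [g.two]; exact one_ne_zero)
  have g3 : (3 : L) ≠ 0 := (v.ne_zero_iff).mp (by rw [g.three]; exact one_ne_zero)
  have g5 : (5 : L) ≠ 0 := (v.ne_zero_iff).mp (by rw [g.five]; exact one_ne_zero)
  by_cases hx : v x ≤ 1
  · have hyi : v y ≤ 1 := val_y_le (i.a4 v) (i.a6 v) hxy hx
    rcases lt_trichotomy (v h) 1 with hh | hh | hh
    · have hjh := j5_lt g f.J hh
      have hx21 : v (x + 21) < 1 := by
        have h1 := congrArg v f.D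
        rw [v.map_mul (-27000), g.v27000, one_mul] at h1
        rw [← h1]
        refine small_mul hh ?_
        repeat' first | assumption | exact Ione | exact Izero | exact IofNat _ | exact Inat _ | apply Iadd | apply Isub | apply Ineg | apply Ipow | apply Imul
      obtain ⟨h1, h2, h3, h4⟩ := c1_three g i hxy f.D f.x21 hx21
      have hc : W.Nonsingular (-21) 0 := i.ns g2 g3 g5 (by ring)
      refine ⟨Point.some (-21) 0 hc, Or.inr ⟨_, _, hc, rfl, Or.inr (Or.inl ⟨rfl, rfl⟩)⟩, 1,
        one_dvd _, v y, h3, ?_, ?_⟩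
      · rw [pow_one, ← h2, mul_comm]; exact hjh
      · have hlt : v (x - -21) < v (y + 0) := by
          rw [sub_neg_eq_add, add_zero, ← h1, sq]
          exact mul_lt_of_lt_one_right h4 h3
        have := sub_near hxy hc (fun h => f.x21 (by rw [h]; ring)) hx (by repeat' first | assumption | exact Ione | exact Izero | exact IofNat _ | exact Inat _ | apply Iadd | apply Isub | apply Ineg | apply Ipow | apply Imul) hyi hlt
        rwa [sub_neg_eq_add, add_zero, ← h1, sq, mul_div_assoc, div_self h4.ne', mul_one] at this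
    · exact absurd hj (not_lt.mpr (j5_eq f.J hh))
    · have hjh := j5_gt f.J hh
      have hh0 : v h ≠ 0 := (zero_lt_one.trans hh).ne'
      rcases c1_large g i hxy f hx hh with ⟨h1, h2, h3⟩ | ⟨h1, h2, h3⟩
      · have h4 := c1_fifteen g i hxy f.D h1 hyi h2
        have hc : W.Nonsingular 303 (-4860) := i.ns g2 g3 g5 (by ring)
        refine ⟨Point.some 303 (-4860) hc, Or.inr ⟨_, _, hc, rfl,
          Or.inr (Or.inr (Or.inr (Or.inl ⟨rfl, Or.inr rfl⟩)))⟩, 5,
          ⟨3, rfl⟩, v (x - 303), h1, ?_, ?_⟩
        · rw [hjh, ← mul_pow, mul_comm, h4, one_pow]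
        · have hlt : v (x - 303) < v (y + -4860) := by rw [← sub_eq_add_neg, h2]; exact h1
          have := sub_near hxy hc h3 hx (by repeat' first | assumption | exact Ione | exact Izero | exact IofNat _ | exact Inat _ | apply Iadd | apply Isub | apply Ineg | apply Ipow | apply Imul) hyi hlt
          rwa [← sub_eq_add_neg, h2, div_one] at this
      · have h4 := c1_five g i hxy f.D h1 hyi h2
        have hc : W.Nonsingular (-57) (-540) := i.ns g2 g3 g5 (by ring)
        refine ⟨Point.some (-57) (-540) hc, Or.inr ⟨_, _, hc, rfl,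
          Or.inr (Or.inr (Or.inr (Or.inr ⟨rfl, Or.inr rfl⟩)))⟩, 15,
          dvd_rfl, v (x + 57), h1, ?_, ?_⟩
        · rw [hjh, show 15 = 3 * 5 from rfl, pow_mul, ← mul_pow, mul_comm, h4, one_pow]
        · have hlt : v (x - -57) < v (y + -540) := by
            rw [← sub_eq_add_neg, h2, sub_neg_eq_add]; exact h1
          have := sub_near hxy hc h3 hx (by repeat' first | assumption | exact Ione | exact Izero | exact IofNat _ | exact Inat _ | apply Iadd | apply Isub | apply Ineg | apply Ipow | apply Imul) hyi hlt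
          rwa [← sub_eq_add_neg, h2, div_one, sub_neg_eq_add] at this
  · push Not at hx
    have h1 := c1_zero g i hxy f.D hx
    obtain ⟨h2, h3, h4⟩ := exact_some (i.a4 v) (i.a6 v) hxy hx
    have hsq := val_y_sq (i.a4 v) (i.a6 v) hxy hx
    have h0 : 0 < v x := zero_lt_one.trans hx
    have hy0 : v y ≠ 0 := by
      intro hy
      rw [hy, mul_zero] at h1
      exact zero_ne_one h1
    have hy1 : 1 < v y := by
      have : 1 < v y ^ 2 := by rw [hsq]; exact one_lt_pow₀ hx (by norm_num)
      by_contra hcon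
      exact absurd this (not_lt.mpr (pow_le_one' (not_lt.mp hcon) 2))
    have hh : v h < 1 := by
      by_contra hcon
      push Not at hcon
      have : 1 < v h * v y := lt_of_lt_of_le hy1 (le_mul_of_one_le_left' hcon)
      rw [h1] at this
      exact lt_irrefl _ this
    have hjh := j5_lt g f.J hh
    refine ⟨0, Or.inl rfl, 3, ⟨5, rfl⟩, v x / v y, h3, ?_, ?_⟩
    · have hjy : v j = v y := by
        have h5 : v j * v h = v y * v h := by rw [hjh, mul_comm, h1]
        exact mul_right_cancel₀ (left_ne_zero_of_mul_eq_one h1) h5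
      rw [hjy, div_pow, ← hsq, div_mul_eq_mul_div, ← pow_succ, div_self (pow_ne_zero 3 hy0)]
    · rwa [sub_zero]

end Pool.Agent.H23T
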