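import Pool.Agent.H23T.Cusp2

/-! # Points of `X(s3, b5)` over a valued field (helper23) -/

namespace Pool.Agent.H23T

open WeierstrassCurve WeierstrassCurve.Affine Pool.Agent.GE

variable {L : Type*} [Field L] {Γ₀ : Type*} [LinearOrderedCommGroupWithZero Γ₀]
  {v : Valuation L Γ₀} {W : Affine L} [W.IsShortNF]

lemma inv_of_mul {a b : Γ₀} (h : a * b = 1) (ha : 1 < a) : b < 1 := by
  by_contra hcon
  push Not at hcon
  have := lt_of_lt_of_le ha (le_mul_of_one_le_right' hcon)
  rw [h] at this
  exact lt_irrefl _ this

/-- where `r` is small -/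
lemma c2_small (g : Good v) (i : Is2 W) {x y r m : L} (hxy : W.Nonsingular x y)
    (f : Fun2 x y r m) (hx : v x ≤ 1) (hr : v r < 1) :
    v (x - 15) < 1 ∧ v (y + 324) < 1 := by
  have hyi : v y ≤ 1 := val_y_le (i.a4 v) (i.a6 v) hxy hx
  have h30 : v (30 : L) = 1 := g.num 1 1 1 (by norm_num)
  have h15 : v (x - 15) < 1 := by
    have h1 := congrArg v f.A
    rw [v.map_mul 30, h30, one_mul] at h1
    rw [← h1]
    refine small_mul hr ?_
    repeat' first | assumption | exact Ione | exact Izero | exact IofNat _ | exact Inat _ | apply Iadd | apply Isub | apply Ineg | apply Ipow | apply Imul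
  have h2 : v (y + 3 * (x + 93)) < 1 := by
    have h1 := congrArg v f.B
    rw [v.map_mul 30, h30, one_mul] at h1
    rw [← h1]
    refine small_mul hr ?_
    repeat' first | assumption | exact Ione | exact Izero | exact IofNat _ | exact Inat _ | apply Iadd | apply Isub | apply Ineg | apply Ipow | apply Imul
  refine ⟨h15, small_add h2 (n := -(3 * (x - 15))) ?_ (by ring)⟩
  rw [v.map_neg]
  exact small_mul' (by repeat' first | assumption | exact Ione | exact Izero | exact IofNat _ | exact Inat _ | apply Iadd | apply Isub | apply Ineg | apply Ipow | apply Imul) h15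

/-- where `r` is large -/
lemma c2_large (g : Good v) (i : Is2 W) {x y r m : L} (hxy : W.Nonsingular x y)
    (f : Fun2 x y r m) (hx : v x ≤ 1) (hr : 1 < v r) :
    (v (x - 87) < 1 ∧ v (y - 540) < 1) ∨ v (x + 93) < 1 := by
  have hyi : v y ≤ 1 := val_y_le (i.a4 v) (i.a6 v) hxy hx
  have hr0 : 0 < v r := zero_lt_one.trans hr
  have h30 : v (30 : L) = 1 := g.num 1 1 1 (by norm_num)
  have key : ∀ a b : L, r * a = 30 * b → v b ≤ 1 → v a < 1 := by
    intro a b hab hb
    by_contra hcon
    push Not at hcon
    have h1 : 1 < v r * v a := lt_of_lt_of_le hr (le_mul_of_one_le_right' hcon)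
    rw [← v.map_mul, hab, v.map_mul, h30, one_mul] at h1
    exact absurd h1 (not_lt.mpr hb)
  have hA := key _ _ f.A (by repeat' first | assumption | exact Ione | exact Izero | exact IofNat _ | exact Inat _ | apply Iadd | apply Isub | apply Ineg | apply Ipow | apply Imul)
  have hB := key _ _ f.B (by repeat' first | assumption | exact Ione | exact Izero | exact IofNat _ | exact Inat _ | apply Iadd | apply Isub | apply Ineg | apply Ipow | apply Imul)
  by_cases h93 : v (x + 93) < 1
  · exact Or.inr h93
  · left
    have h93' : v (x + 93) = 1 := le_antisymm (by repeat' first | assumption | exact Ione | exact Izero | exact IofNat _ | exact Inat _ | apply Iadd | apply Isub | apply Ineg | apply Ipow | apply Imul) (not_lt.mp h93)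
    have h87 : v (x - 87) < 1 := lt_one_of_mul_unit hB h93'
    refine ⟨h87, small_add hA (n := 3 * (x - 87)) ?_ (by ring)⟩
    exact small_mul' (by repeat' first | assumption | exact Ione | exact Izero | exact IofNat _ | exact Inat _ | apply Iadd | apply Isub | apply Ineg | apply Ipow | apply Imul) h87

variable [DecidableEq L]

/-- points where `j` is large are close to a cusp -/
theorem far2 (g : Good v) (i : Is2 W) {x y r m : L} (hxy : W.Nonsingular x y)
    (f : Fun2 x y r m) (hj : 1 < v (m ^ 3)) :
    ∃ c : W.Point, IsPt2 c ∧ ∃ w, w ∣ 15 ∧ ∃ s : Γ₀, s < 1 ∧ s ^ w * v (m ^ 3) = 1 ∧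
      Exact v s (Point.some x y hxy - c) := by
  have g2 : (2 : L) ≠ 0 := (v.ne_zero_iff).mp (by rw [g.two]; exact one_ne_zero)
  have g3 : (3 : L) ≠ 0 := (v.ne_zero_iff).mp (by rw [g.three]; exact one_ne_zero)
  have g5 : (5 : L) ≠ 0 := (v.ne_zero_iff).mp (by rw [g.five]; exact one_ne_zero)
  rw [v.map_pow] at hj ⊢
  have hr0 : v r ≠ 0 := (v.ne_zero_iff).mpr f.r0
  by_cases hx : v x ≤ 1
  · have hyi : v y ≤ 1 := val_y_le (i.a4 v) (i.a6 v) hxy hx
    rcases lt_trichotomy (v r) 1 with hr | hr | hr
    · have hm := m_lt g f.M hr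
      obtain ⟨h1, h2⟩ := c2_small g i hxy f hx hr
      have h3 := c2_three g f h1 h2
      have hc : W.Nonsingular 15 (-324) := i.ns g2 g3 g5 (by ring)
      have hy' : v (y - 324) = 1 :=
        unit_add h2 (n := -648) (g.neg_num 3 4 0 (by norm_num)) (by ring)
      refine ⟨Point.some 15 (-324) hc, Or.inr ⟨_, _, hc, rfl,
        Or.inr (Or.inr (Or.inr (Or.inr ⟨rfl, Or.inr rfl⟩)))⟩, 3, ⟨5, rfl⟩, v (x - 15), h1, ?_, ?_⟩
      · rw [← h3, ← mul_pow, mul_comm, hm, one_pow]
      · have hlt : v (x - 15) < v (y + -324) := by rw [← sub_eq_add_neg, hy']; exact h1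
        have hne : x ≠ 15 := by
          intro h
          rw [h, sub_self, v.map_zero] at h3
          exact hr0 h3
        have := sub_near hxy hc hne hx (by repeat' first | assumption | exact Ione | exact Izero | exact IofNat _ | exact Inat _ | apply Iadd | apply Isub | apply Ineg | apply Ipow | apply Imul) hyi hlt
        rwa [← sub_eq_add_neg, hy', div_one] at this
    · exact absurd hj (not_lt.mpr (pow_le_one' (m_eq f.M hr) 3))
    · have hm := m_gt f.M hr
      rcases c2_large g i hxy f hx hr with ⟨h1, h2⟩ | h1
      · have h3 := c2_five g f h1 h2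
        have hc : W.Nonsingular 87 540 := i.ns g2 g3 g5 (by ring)
        have hy' : v (y + 540) = 1 :=
          unit_add h2 (n := 1080) (g.num 3 3 1 (by norm_num)) (by ring)
        refine ⟨Point.some 87 540 hc, Or.inr ⟨_, _, hc, rfl,
          Or.inr (Or.inr (Or.inr (Or.inl ⟨rfl, Or.inl rfl⟩)))⟩, 15, dvd_rfl, v (x - 87), h1,
          ?_, ?_⟩
        · rw [hm, ← pow_mul, ← mul_pow, mul_comm, h3, one_pow]
        · have hlt : v (x - 87) < v (y + 540) := by rw [hy']; exact h1
          have hne : x ≠ 87 := by
            intro h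
            rw [h, sub_self, v.map_zero, mul_zero] at h3
            exact zero_ne_one h3
          have := sub_near hxy hc hne hx (by repeat' first | assumption | exact Ione | exact Izero | exact IofNat _ | exact Inat _ | apply Iadd | apply Isub | apply Ineg | apply Ipow | apply Imul) hyi hlt
          rwa [hy', div_one] at this
      · obtain ⟨h2, h3, h4, h5⟩ := c2_fifteen g i hxy f h1
        have hc : W.Nonsingular (-93) 0 := i.ns g2 g3 g5 (by ring)
        refine ⟨Point.some (-93) 0 hc, Or.inr ⟨_, _, hc, rfl,
          Or.inr (Or.inr (Or.inl ⟨rfl, rfl⟩))⟩, 15, dvd_rfl, v y, h4, ?_, ?_⟩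
        · rw [hm, ← pow_mul, ← mul_pow, mul_comm, h3, one_pow]
        · have hlt : v (x - -93) < v (y + 0) := by
            rw [sub_neg_eq_add, add_zero, ← h2, sq]
            exact mul_lt_of_lt_one_right h5 h4
          have hne : x ≠ -93 := by
            intro h
            rw [h, neg_add_cancel, v.map_zero] at h2
            exact (pow_pos h5 2).ne' h2
          have := sub_near hxy hc hne hx (by repeat' first | assumption | exact Ione | exact Izero | exact IofNat _ | exact Inat _ | apply Iadd | apply Isub | apply Ineg | apply Ipow | apply Imul) hyi hlt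
          rwa [sub_neg_eq_add, add_zero, ← h2, sq, mul_div_assoc, div_self h5.ne',
            mul_one] at this
  · push Not at hx
    have h1 := c2_zero g i hxy f hx
    obtain ⟨h2, h3, h4⟩ := exact_some (i.a4 v) (i.a6 v) hxy hx
    refine ⟨0, Or.inl rfl, 3, ⟨5, rfl⟩, v x / v y, h3, ?_, ?_⟩
    · rw [← h1] at h3 ⊢
      have hm := m_lt g f.M h3
      rw [← mul_pow, mul_comm, hm, one_pow]
    · rwa [sub_zero]

/-- points where `j` is integral and which are close to a rational point -/
theorem near2 [CharZero L] (g : Good v) (i : Is2 W) {x y r m : L} (hxy : W.Nonsingular x y)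
    (f : Fun2 x y r m) (hj : v (m ^ 3) ≤ 1) {c : W.Point} (hc : IsPt2 c) {ρ : Γ₀} (hρ : ρ < 1)
    (hP : InBall v ρ (Point.some x y hxy - c)) (hcc : InBall v ρ (c + c) → c + c = 0) :
    ∃ z : L, Six z ∧ v (m ^ 3 - z) < 1 := by
  rw [v.map_pow] at hj
  have hm1 : v m ≤ 1 := (pow_le_one_iff three_ne_zero).mp hj
  have h30 : v (30 : L) = 1 := g.num 1 1 1 (by norm_num)
  have hr0 : 0 < v r := zero_lt_iff.mpr ((v.ne_zero_iff).mpr f.r0)
  -- a contradiction when `r` is not a unit
  have hsmall : ¬ v r < 1 := by
    intro hr
    have h1 := m_lt g f.M hr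
    have h2 : v m * v r < 1 := mul_lt_one'' hm1 hr
    rw [h1] at h2
    exact lt_irrefl _ h2
  have hlarge : ¬ 1 < v r := by
    intro hr
    have h1 := m_gt f.M hr
    rw [h1] at hm1
    exact absurd (one_lt_pow₀ hr (by norm_num)) (not_lt.mpr hm1)
  have g2 : (2 : L) ≠ 0 := (v.ne_zero_iff).mp (by rw [g.two]; exact one_ne_zero)
  have hinv2 : v ((2 : L)⁻¹) = 1 := by rw [map_inv₀, g.two, inv_one]
  rcases hc with rfl | ⟨a, b, hab, rfl, hT⟩
  · rw [sub_zero] at hP
    have hx := one_lt_of_inBall (i.a4 v) (i.a6 v) hxy hρ hP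
    have h1 := c2_zero g i hxy f hx
    obtain ⟨h2, h3, h4⟩ := exact_some (i.a4 v) (i.a6 v) hxy hx
    exact absurd (h1 ▸ h3) hsmall
  · have hai : v a ≤ 1 := by
      rcases hT with ⟨h1, -⟩ | ⟨h1, -⟩ | ⟨h1, -⟩ | ⟨h1, -⟩ | ⟨h1, -⟩ <;>
        · rw [h1]; repeat' first | assumption | exact Ione | exact Izero | exact IofNat _ | exact Inat _ | apply Iadd | apply Isub | apply Ineg | apply Ipow | apply Imul
    have hbi : v b ≤ 1 := val_y_le (i.a4 v) (i.a6 v) hab hai
    obtain ⟨x', y', h', he, hx, hxa, hyb⟩ := near_of_sub (i.a4 v) (i.a6 v) hab hai hρ hP hcc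
    rw [Point.some.injEq] at he
    obtain ⟨rfl, rfl⟩ := he
    have hyi : v y ≤ 1 := val_y_le (i.a4 v) (i.a6 v) hxy hx
    -- the two noncuspidal values of `r`
    have fin1 : v (r - -2) < 1 → ∃ z : L, Six z ∧ v (m ^ 3 - z) < 1 := by
      intro hr
      have h1 := m_near (m₀ := 11 * (2 : L)⁻¹) f.M (by field_simp; norm_num)
        (by rw [v.map_neg]; exact g.two) (by have := hinv2.le; repeat' first | assumption | exact Ione | exact Izero | exact IofNat _ | exact Inat _ | apply Iadd | apply Isub | apply Ineg | apply Ipow | apply Imul) hr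
      exact ⟨_, Or.inr (Or.inr (Or.inr (Or.inr (Or.inl (by field_simp; norm_num))))), h1⟩
    have fin2 : v (r - -5 * 2⁻¹) < 1 → ∃ z : L, Six z ∧ v (m ^ 3 - z) < 1 := by
      intro hr
      have h1 := m_near (m₀ := -1189 * (2 : L)⁻¹ ^ 5) f.M (by field_simp; norm_num)
        (by rw [v.map_mul, hinv2, mul_one, v.map_neg]; exact g.five)
        (by have := hinv2.le; repeat' first | assumption | exact Ione | exact Izero | exact IofNat _ | exact Inat _ | apply Iadd | apply Isub | apply Ineg | apply Ipow | apply Imul) hr
      exact ⟨_, Or.inr (Or.inr (Or.inr (Or.inr (Or.inr (by field_simp; norm_num))))), h1⟩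
    rcases hT with ⟨h1, h2⟩ | ⟨h1, h2⟩ | ⟨h1, h2⟩ | ⟨h1, h2 | h2⟩ | ⟨h1, h2 | h2⟩
    · -- (51, 0)
      subst h1 h2
      rw [sub_zero] at hyb
      have hU : v (y - 3 * (x + 93)) = 1 := by
        refine unit_add (e := y - 3 * (x - 51)) (n := -432) ?_ (g.neg_num 4 3 0 (by norm_num))
          (by ring)
        exact v.map_sub_lt hyb (small_mul' (by repeat' first | assumption | exact Ione | exact Izero | exact IofNat _ | exact Inat _ | apply Iadd | apply Isub | apply Ineg | apply Ipow | apply Imul) hxa)
      apply fin2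
      refine lt_one_of_mul_unit (b := y - 3 * (x + 93)) ?_ hU
      refine small_add (e := (30 - 15 * 2⁻¹) * (x - 51)) (n := 5 * 2⁻¹ * y) (small_mul' ?_ hxa)
        (small_mul' ?_ hyb) ?_
      · have := hinv2.le; repeat' first | assumption | exact Ione | exact Izero | exact IofNat _ | exact Inat _ | apply Iadd | apply Isub | apply Ineg | apply Ipow | apply Imul
      · have := hinv2.le; repeat' first | assumption | exact Ione | exact Izero | exact IofNat _ | exact Inat _ | apply Iadd | apply Isub | apply Ineg | apply Ipow | apply Imul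
      · field_simp; linear_combination 2 * f.A
    · -- (42, 0)
      subst h1 h2
      rw [sub_zero] at hyb
      have hU : v (y - 3 * (x + 93)) = 1 := by
        refine unit_add (e := y - 3 * (x - 42)) (n := -405) ?_ (g.neg_num 0 4 1 (by norm_num))
          (by ring)
        exact v.map_sub_lt hyb (small_mul' (by repeat' first | assumption | exact Ione | exact Izero | exact IofNat _ | exact Inat _ | apply Iadd | apply Isub | apply Ineg | apply Ipow | apply Imul) hxa)
      apply fin1
      refine lt_one_of_mul_unit (b := y - 3 * (x + 93)) ?_ hU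
      refine small_add (e := 24 * (x - 42)) (n := 2 * y) (small_mul' ?_ hxa)
        (small_mul' ?_ hyb) ?_
      · repeat' first | assumption | exact Ione | exact Izero | exact IofNat _ | exact Inat _ | apply Iadd | apply Isub | apply Ineg | apply Ipow | apply Imul
      · repeat' first | assumption | exact Ione | exact Izero | exact IofNat _ | exact Inat _ | apply Iadd | apply Isub | apply Ineg | apply Ipow | apply Imul
      · linear_combination f.A
    · -- (-93, 0)
      subst h1 h2
      rw [sub_neg_eq_add] at hxa
      obtain ⟨h2, h3, h4, h5⟩ := c2_fifteen g i hxy f hxa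
      exfalso
      apply hlarge
      by_contra hcon
      push Not at hcon
      have h6 : v r * v y < 1 := mul_lt_one'' hcon h4
      rw [h3] at h6
      exact lt_irrefl _ h6
    · -- (87, 540)
      subst h1 h2
      have h3 := c2_five g f hxa hyb
      exfalso
      apply hlarge
      by_contra hcon
      push Not at hcon
      have h6 : v r * v (x - 87) < 1 := mul_lt_one'' hcon hxa
      rw [h3] at h6
      exact lt_irrefl _ h6
    · -- (87, -540)
      subst h1 h2
      have hU : v (y - 3 * (x + 93)) = 1 := by
        refine unit_add (e := (y - -540) - 3 * (x - 87)) (n := -1080) ?_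
          (g.neg_num 3 3 1 (by norm_num)) (by ring)
        exact v.map_sub_lt hyb (small_mul' (by repeat' first | assumption | exact Ione | exact Izero | exact IofNat _ | exact Inat _ | apply Iadd | apply Isub | apply Ineg | apply Ipow | apply Imul) hxa)
      apply fin1
      refine lt_one_of_mul_unit (b := y - 3 * (x + 93)) ?_ hU
      refine small_add (e := 24 * (x - 87)) (n := 2 * (y - -540)) (small_mul' ?_ hxa)
        (small_mul' ?_ hyb) ?_
      · repeat' first | assumption | exact Ione | exact Izero | exact IofNat _ | exact Inat _ | apply Iadd | apply Isub | apply Ineg | apply Ipow | apply Imul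
      · repeat' first | assumption | exact Ione | exact Izero | exact IofNat _ | exact Inat _ | apply Iadd | apply Isub | apply Ineg | apply Ipow | apply Imul
      · linear_combination f.A
    · -- (15, 324)
      subst h1 h2
      have hxi : v x ≤ 1 := hx
      have hU : v ((x - 87) * (x + 93)) = 1 := by
        refine unit_add (e := (x - 15) * (x + 21)) (n := -7776) (small_mul hxa ?_)
          (g.neg_num 5 5 0 (by norm_num)) (by ring)
        repeat' first | assumption | exact Ione | exact Izero | exact IofNat _ | exact Inat _ | apply Iadd | apply Isub | apply Ineg | apply Ipow | apply Imul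
      apply fin2
      refine lt_one_of_mul_unit (b := (x - 87) * (x + 93)) ?_ hU
      refine small_add (e := 30 * (y - 324)) (n := (x - 15) * (90 + 5 * 2⁻¹ * (x + 21)))
        (small_mul' ?_ hyb) (small_mul hxa ?_) ?_
      · repeat' first | assumption | exact Ione | exact Izero | exact IofNat _ | exact Inat _ | apply Iadd | apply Isub | apply Ineg | apply Ipow | apply Imul
      · have := hinv2.le; repeat' first | assumption | exact Ione | exact Izero | exact IofNat _ | exact Inat _ | apply Iadd | apply Isub | apply Ineg | apply Ipow | apply Imul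
      · field_simp; linear_combination 2 * f.B
    · -- (15, -324)
      subst h1 h2
      rw [sub_neg_eq_add] at hyb
      have h3 := c2_three g f hxa hyb
      exact absurd (h3 ▸ hxa) hsmall

end Pool.Agent.H23T
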