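import Pool.Agent.H23T.Cusp2
import Pool.Agent.H42M.ModMain

/-! # From elliptic curves with level structure to points of the two curves: algebra (helper23)

The computations of `H42M.ModCore`, over an arbitrary field. -/

namespace Pool.Agent.H23T

open Pool.Agent.H42M

variable {F : Type*} [Field F] [CharZero F]

/-- the point of `15a1` attached to an elliptic curve with subgroups of order 3 and 5 -/
lemma gcore1 {S P δ σ j : F}
    (hm : S ^ 3 - 6 * P * S = 4 * δ * (S + 1 + P))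
    (hp : S ^ 4 - 8 * P * S ^ 2 + 10 * P ^ 2 = 4 * δ * (S ^ 2 + 2 * P + 3 * S + P * S))
    (hD : S ^ 2 - 4 * P ≠ 0) (hδ : 4 * δ ≠ 27)
    (hσ : σ * (S ^ 2 - 4 * P) = 3 * S ^ 2 + 4 * S * δ + 8 * δ - 10 * (S ^ 2 - 4 * P))
    (hσ0 : σ ≠ 0) (hj : j * σ = (σ ^ 2 + 10 * σ + 5) ^ 3) :
    δ = -5 / 4 ∨ ∃ x y : F, y ^ 2 = (x + 102) * (x + 21) * (x - 123) ∧ Fun1 x y σ j := by
  have h4δ : 4 * δ = S ^ 3 + P * S ^ 2 - 6 * P * S - 5 * P ^ 2 := by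
    linear_combination -(S + 2) / 2 * hm + hp / 2
  have hrel : S ^ 4 + 2 * P * S ^ 3 + P ^ 2 * S ^ 2 - 5 * P * S ^ 2 - 11 * P ^ 2 * S - 5 * P ^ 2 -
      5 * P ^ 3 = 0 := by
    linear_combination (S ^ 2 + 2 * P + 3 * S + P * S) / 2 * hm - (S + 1 + P) / 2 * hp
  have hP : P ≠ 0 := by
    rintro rfl
    have h1 : S = 0 := by
      have : S ^ 4 = 0 := by linear_combination hrel
      exact pow_eq_zero_iff (by norm_num) |>.mp this
    apply hD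
    rw [h1]; ring
  obtain ⟨w, hw⟩ : ∃ w : F, S = w * P := ⟨S / P, by field_simp⟩
  have hquad : w ^ 2 * (w + 1) ^ 2 * P ^ 2 - (5 * w ^ 2 + 11 * w + 5) * P - 5 = 0 := by
    apply (mul_eq_zero.mp _).resolve_left (pow_ne_zero 2 hP)
    rw [hw] at hrel
    linear_combination hrel
  subst hw
  by_cases hw0 : w = 0
  · subst hw0
    have hP1 : P = -1 := by linear_combination -hquad / 5
    subst hP1
    left
    linear_combination h4δ / 4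
  right
  obtain ⟨X, hX⟩ : ∃ X : F, X = 20 * ((w + 1) ^ 2 * P) - 50 := ⟨_, rfl⟩
  obtain ⟨V, hV⟩ : ∃ V : F, w * V = 200 * ((w + 1) ^ 2 * P + 1) + w * (11 * X + 750) :=
    ⟨(200 * ((w + 1) ^ 2 * P + 1) + w * (11 * X + 750)) / w, mul_div_cancel₀ _ hw0⟩
  have hcurve : V ^ 2 = (X + 50) * (X + 66) * (X + 75) := by
    rw [← sub_eq_zero]
    apply (mul_eq_zero.mp _).resolve_left (pow_ne_zero 2 hw0)
    have e : w ^ 2 * (V ^ 2 - (X + 50) * (X + 66) * (X + 75)) =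
        (w * V) ^ 2 - w ^ 2 * ((X + 50) * (X + 66) * (X + 75)) := by ring
    rw [e, hV, hX]
    linear_combination (-8000 * w ^ 4 * P - 32000 * w ^ 3 * P - 48000 * w ^ 2 * P -
      32000 * w * P - 8000 * P - 8000 * w ^ 2 - 16000 * w - 8000) * hquad
  have hX66 : X + 66 ≠ 0 := by
    intro h0
    have h1 : (w + 1) ^ 2 * P = -4 / 5 := by linear_combination h0 / 20 - hX / 20
    have h2 : (3 * w + 5) ^ 2 = 0 := by
      linear_combination (-25 : F) * (w + 1) ^ 2 * hquad +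
        25 * (w ^ 2 * ((w + 1) ^ 2 * P - 4 / 5) - (5 * w ^ 2 + 11 * w + 5)) * h1
    have hw1 : w = -5 / 3 := by
      have := pow_eq_zero_iff two_ne_zero |>.mp h2
      linear_combination this / 3
    subst hw1
    have hP1 : P = -9 / 5 := by linear_combination 9 / 4 * h1
    subst hP1
    apply hδ
    rw [h4δ]; norm_num
  have hfun : σ * ((X + 66) * (3 * X + 250) + (X + 62) * V) = -1000 * (X + 66) := by
    rw [← sub_eq_zero]
    have hD' : (w * ((w * P) ^ 2 - 4 * P)) ≠ 0 := mul_ne_zero hw0 hD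
    apply (mul_eq_zero.mp _).resolve_left hD'
    have e : w * ((w * P) ^ 2 - 4 * P) * (σ * ((X + 66) * (3 * X + 250) + (X + 62) * V) -
        -1000 * (X + 66)) =
        (σ * ((w * P) ^ 2 - 4 * P)) * (w * ((X + 66) * (3 * X + 250)) + (X + 62) * (w * V)) +
        1000 * (w * (X + 66) * ((w * P) ^ 2 - 4 * P)) := by ring
    rw [e, hσ, hV]
    have e2 : 3 * (w * P) ^ 2 + 4 * (w * P) * δ + 8 * δ - 10 * ((w * P) ^ 2 - 4 * P) =
        -7 * (w * P) ^ 2 + 40 * P + (w * P + 2) * (4 * δ) := by ring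
    rw [e2, h4δ, hX]
    linear_combination (5600 * w ^ 5 * P ^ 4 + 20800 * w ^ 4 * P ^ 4 + 28800 * w ^ 3 * P ^ 4 +
      17600 * w ^ 2 * P ^ 4 + 4000 * w * P ^ 4 + 11200 * w ^ 4 * P ^ 3 + 45600 * w ^ 3 * P ^ 3 +
      64000 * w ^ 2 * P ^ 3 + 37600 * w * P ^ 3 + 8000 * P ^ 3 - 39200 * w ^ 3 * P ^ 2 -
      98400 * w ^ 2 * P ^ 2 - 88000 * w * P ^ 2 - 27200 * P ^ 2 - 19200 * w * P -
      19200 * P) * hquad
  refine ⟨9 * X + 573, 27 * V, ?_, ?_⟩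
  · linear_combination 729 * hcurve
  · exact { x21 := fun h0 => hX66 (by linear_combination h0 / 9)
            h0 := hσ0
            D := by linear_combination 243 * hfun
            J := hj }

/-- the structure of order 5 -/
lemma five_str {A B s p : F} (hdisc : 4 * A ^ 3 + 27 * B ^ 2 ≠ 0)
    (e1 : 4 * B = s ^ 3 - 6 * p * s - 2 * A * s)
    (e2 : A ^ 2 + 2 * A * s ^ 2 - 2 * A * p - s ^ 4 + 5 * s ^ 2 * p + 5 * p ^ 2 = 0)
    (hD : s ^ 2 - 4 * p ≠ 0) :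
    ∃ σ D : F, σ * (s ^ 2 - 4 * p) = 3 * s ^ 2 + 4 * A - 10 * (s ^ 2 - 4 * p) ∧ σ ≠ 0 ∧ D ≠ 0 ∧
      A = -D * (σ ^ 2 + 10 * σ + 5) / 48 ∧ 4 * A ^ 3 + 27 * B ^ 2 = -D ^ 3 * σ / 16 := by
  obtain ⟨σ, hσ⟩ : ∃ σ : F, σ * (s ^ 2 - 4 * p) = 3 * s ^ 2 + 4 * A - 10 * (s ^ 2 - 4 * p) :=
    ⟨_, div_mul_cancel₀ _ hD⟩
  have hσ' := hσ
  obtain ⟨D, hDD⟩ : ∃ D : F, p = (s ^ 2 - D) / 4 := ⟨s ^ 2 - 4 * p, by ring⟩
  have hD0 : D ≠ 0 := by
    rintro rfl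
    apply hD
    rw [hDD]; ring
  subst hDD
  have hs2 : 36 * s ^ 2 = D * (σ ^ 2 + 22 * σ + 125) := by
    have h1 : D * (36 * s ^ 2 - D * (σ ^ 2 + 22 * σ + 125)) = 0 := by
      linear_combination -16 * e2 - ((σ + 12) * D + 3 * s ^ 2 + 4 * A) * hσ
    exact sub_eq_zero.mp ((mul_eq_zero.mp h1).resolve_left hD0)
  have hA : A = -D * (σ ^ 2 + 10 * σ + 5) / 48 := by
    linear_combination -hσ / 4 - hs2 / 48
  have hB : B = s * D * (σ ^ 2 + 4 * σ - 1) / 144 := by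
    rw [hA] at e1
    linear_combination e1 / 4 - s / 288 * hs2
  have hdisc1 : 4 * A ^ 3 + 27 * B ^ 2 = -D ^ 3 * σ / 16 := by
    rw [hA, hB]
    linear_combination 27 / 746496 * D ^ 2 * (σ ^ 2 + 4 * σ - 1) ^ 2 * hs2
  refine ⟨σ, D, hσ', ?_, hD0, hA, hdisc1⟩
  rintro rfl
  apply hdisc
  rw [hdisc1]; ring

lemma j_five {A B σ D j : F}
    (hj : 6912 * A ^ 3 = j * (4 * A ^ 3 + 27 * B ^ 2)) (hD0 : D ≠ 0)
    (hA : A = -D * (σ ^ 2 + 10 * σ + 5) / 48) (hd : 4 * A ^ 3 + 27 * B ^ 2 = -D ^ 3 * σ / 16) :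
    j * σ = (σ ^ 2 + 10 * σ + 5) ^ 3 := by
  have hA3 : 6912 * A ^ 3 = -D ^ 3 * (σ ^ 2 + 10 * σ + 5) ^ 3 / 16 := by
    rw [hA]; ring
  rw [hd, hA3] at hj
  have h1 : D ^ 3 * (j * σ - (σ ^ 2 + 10 * σ + 5) ^ 3) = 0 := by
    linear_combination 16 * hj
  exact sub_eq_zero.mp ((mul_eq_zero.mp h1).resolve_left (pow_ne_zero 3 hD0))

/-- case of a rational subgroup of order 3 -/
lemma gborel {A B x₃ s p j : F} (hA0 : A ≠ 0)
    (hdisc : 4 * A ^ 3 + 27 * B ^ 2 ≠ 0)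
    (h3 : 3 * x₃ ^ 4 + 6 * A * x₃ ^ 2 + 12 * B * x₃ - A ^ 2 = 0)
    (e1 : 4 * B = s ^ 3 - 6 * p * s - 2 * A * s)
    (e2 : A ^ 2 + 2 * A * s ^ 2 - 2 * A * p - s ^ 4 + 5 * s ^ 2 * p + 5 * p ^ 2 = 0)
    (hD : s ^ 2 - 4 * p ≠ 0) (hj : 6912 * A ^ 3 = j * (4 * A ^ 3 + 27 * B ^ 2)) :
    j = -121945 / 32 ∨ ∃ x y h : F, y ^ 2 = (x + 102) * (x + 21) * (x - 123) ∧
      Fun1 x y h j := by
  obtain ⟨σ, D, hσ, hσ0, hD0, hAD, hdD⟩ := five_str hdisc e1 e2 hD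
  have hjσ := j_five hj hD0 hAD hdD
  have hx : x₃ ≠ 0 := by
    rintro rfl
    have hA : A = 0 := by
      have : A ^ 2 = 0 := by linear_combination -h3
      exact pow_eq_zero_iff (by norm_num) |>.mp this
    exact hA0 hA
  obtain ⟨β, hβ⟩ : ∃ β : F, 6 * x₃ * β = 3 * x₃ ^ 2 + A :=
    ⟨(3 * x₃ ^ 2 + A) / (6 * x₃), by field_simp⟩
  have hA : A = 6 * x₃ * β - 3 * x₃ ^ 2 := by linear_combination -hβ
  have hB : B = 3 * x₃ * β ^ 2 - 6 * x₃ ^ 2 * β + 2 * x₃ ^ 3 := by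
    have : 12 * x₃ * (B - (3 * x₃ * β ^ 2 - 6 * x₃ ^ 2 * β + 2 * x₃ ^ 3)) = 0 := by
      rw [hA] at h3
      linear_combination h3
    exact sub_eq_zero.mp ((mul_eq_zero.mp this).resolve_left (mul_ne_zero (by norm_num) hx))
  have hdisc' : 4 * A ^ 3 + 27 * B ^ 2 = 27 * x₃ ^ 2 * β ^ 3 * (9 * β - 4 * x₃) := by
    rw [hA, hB]; ring
  have hβ0 : β ≠ 0 := by
    rintro rfl
    apply hdisc; rw [hdisc']; ring
  have hlast : 9 * β - 4 * x₃ ≠ 0 := by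
    intro h0
    apply hdisc; rw [hdisc', h0]; ring
  obtain ⟨δ, hδ⟩ : ∃ δ : F, x₃ = δ * β / 3 := ⟨3 * x₃ / β, by field_simp⟩
  obtain ⟨S, hS⟩ : ∃ S : F, s = β * (S + 2 * δ / 3) :=
    ⟨s / β - 2 * δ / 3, by field_simp; ring⟩
  obtain ⟨P, hP⟩ : ∃ P : F, p = β ^ 2 * (P + S * δ / 3 + δ ^ 2 / 9) :=
    ⟨p / β ^ 2 - (S * δ / 3 + δ ^ 2 / 9), by field_simp; ring⟩
  subst hδ hS hP hA hB
  have hfin := gcore1 (S := S) (P := P) (δ := δ) (σ := σ) (j := j)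
    (by
      rw [← sub_eq_zero]
      apply (mul_eq_zero.mp _).resolve_left (pow_ne_zero 3 hβ0)
      linear_combination -e1)
    (by
      rw [← sub_eq_zero]
      apply (mul_eq_zero.mp _).resolve_left (pow_ne_zero 4 hβ0)
      linear_combination 2 * e2 - 3 * (β * (S + 2 * δ / 3)) * e1)
    (by
      intro h0
      apply hD
      linear_combination β ^ 2 * h0)
    (by
      intro h0
      apply hlast
      linear_combination -β / 3 * h0)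
    (by
      rw [← sub_eq_zero]
      apply (mul_eq_zero.mp _).resolve_left (pow_ne_zero 2 hβ0)
      linear_combination hσ) hσ0 hjσ
  rcases hfin with rfl | ⟨x, y, h1, h2⟩
  · left
    have hne : (4 * (6 * (-5 / 4 * β / 3) * β - 3 * (-5 / 4 * β / 3) ^ 2) ^ 3 +
        27 * (3 * (-5 / 4 * β / 3) * β ^ 2 - 6 * (-5 / 4 * β / 3) ^ 2 * β +
        2 * (-5 / 4 * β / 3) ^ 3) ^ 2) ≠ 0 := hdisc
    apply mul_right_cancel₀ hne
    rw [← hj]; ring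
  · exact Or.inr ⟨x, y, σ, h1, h2⟩

/-- case of a rational pair of subgroups of order 3 -/
lemma gsplit {A B u v s p j : F} (hA0 : A ≠ 0) (hreal : ∀ m : F, m ^ 2 + 12 * m + 144 ≠ 0)
    (hdisc : 4 * A ^ 3 + 27 * B ^ 2 ≠ 0)
    (r1 : 4 * B = 2 * u * v - u ^ 3 - 2 * A * u)
    (r2 : A ^ 2 + 6 * A * v + 3 * u ^ 2 * v - 3 * v ^ 2 = 0)
    (e1 : 4 * B = s ^ 3 - 6 * p * s - 2 * A * s)
    (e2 : A ^ 2 + 2 * A * s ^ 2 - 2 * A * p - s ^ 4 + 5 * s ^ 2 * p + 5 * p ^ 2 = 0)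
    (hD : s ^ 2 - 4 * p ≠ 0) (hj : 6912 * A ^ 3 = j * (4 * A ^ 3 + 27 * B ^ 2)) :
    ∃ x y r m : F, y ^ 2 = (x - 51) * (x - 42) * (x + 93) ∧ Fun2 x y r m ∧ j = m ^ 3 := by
  obtain ⟨σ, D, hσ, hσ0, hD0, hAD, hdD⟩ := five_str hdisc e1 e2 hD
  have hjσ := j_five hj hD0 hAD hdD
  have hq : σ ^ 2 + 10 * σ + 5 ≠ 0 := by
    intro h0
    rw [h0] at hAD
    apply hA0
    rw [hAD]; ring
  -- the 3-structure
  have hz3 : (3 * u ^ 2 + 4 * A) ^ 3 = 16 * (4 * A ^ 3 + 27 * B ^ 2) := by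
    linear_combination 36 * u ^ 2 * r2 - 27 * (4 * B + (2 * u * v - u ^ 3 - 2 * A * u)) * r1
  have hz : 3 * u ^ 2 + 4 * A ≠ 0 := by
    intro h0
    rw [h0] at hz3
    apply hdisc
    linear_combination -hz3 / 16
  obtain ⟨m, hm⟩ : ∃ m : F, m * (3 * u ^ 2 + 4 * A) = 48 * A := ⟨_, div_mul_cancel₀ _ hz⟩
  obtain ⟨g, hg⟩ : ∃ g : F, g * (3 * u ^ 2 + 4 * A) = 36 * (2 * v - 2 * A - u ^ 2) :=
    ⟨_, div_mul_cancel₀ _ hz⟩
  have hm3 : j = m ^ 3 := by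
    have h1 : (m * (3 * u ^ 2 + 4 * A)) ^ 3 = (48 * A) ^ 3 := by rw [hm]
    rw [mul_pow, hz3] at h1
    apply mul_right_cancel₀ hdisc
    linear_combination -hj - h1 / 16
  have hmq : m ^ 3 * σ = (σ ^ 2 + 10 * σ + 5) ^ 3 := by rw [← hm3, hjσ]
  have hm0 : m ≠ 0 := by
    rintro rfl
    apply pow_ne_zero 3 hq
    rw [← hmq]; ring
  obtain ⟨r, hr⟩ : ∃ r : F, r * m = σ ^ 2 + 10 * σ + 5 := ⟨_, div_mul_cancel₀ _ hm0⟩
  have hr3 : r ^ 3 = σ := by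
    have h1 : m ^ 3 * (r ^ 3 - σ) = 0 := by
      have h2 : (r * m) ^ 3 = (σ ^ 2 + 10 * σ + 5) ^ 3 := by rw [hr]
      linear_combination h2 - hmq
    exact sub_eq_zero.mp ((mul_eq_zero.mp h1).resolve_left (pow_ne_zero 3 hm0))
  have hr0 : r ≠ 0 := by
    rintro rfl
    apply hq
    rw [← hr]; ring
  have hgg : g ^ 2 = m ^ 2 + 12 * m + 144 := by
    rw [← sub_eq_zero]
    apply (mul_eq_zero.mp _).resolve_left (pow_ne_zero 2 hz)
    linear_combination (g * (3 * u ^ 2 + 4 * A) + 36 * (2 * v - 2 * A - u ^ 2)) * hg -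
      (m * (3 * u ^ 2 + 4 * A) + 48 * A + 12 * (3 * u ^ 2 + 4 * A)) * hm - 1728 * r2
  subst hr3
  have hm' : m * r = r ^ 6 + 10 * r ^ 3 + 5 := by linear_combination hr
  have hfac : (m ^ 2 + 12 * m + 144) * r ^ 2 =
      (r ^ 4 - r ^ 3 + 2 * r ^ 2 + r + 1) ^ 2 * (r ^ 4 + 2 * r ^ 3 - r ^ 2 + 10 * r + 25) := by
    linear_combination (m * r + (r ^ 6 + 10 * r ^ 3 + 5) + 12 * r) * hm'
  have hQ : r ^ 4 - r ^ 3 + 2 * r ^ 2 + r + 1 ≠ 0 := by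
    intro h0
    rw [h0] at hfac
    have h1 : (m ^ 2 + 12 * m + 144) * r ^ 2 = 0 := by rw [hfac]; ring
    rcases mul_eq_zero.mp h1 with h1 | h1
    · exact hreal m h1
    · exact pow_ne_zero 2 hr0 h1
  obtain ⟨W, hW⟩ : ∃ W : F, W * (r ^ 4 - r ^ 3 + 2 * r ^ 2 + r + 1) = g * r :=
    ⟨g * r / (r ^ 4 - r ^ 3 + 2 * r ^ 2 + r + 1), div_mul_cancel₀ _ hQ⟩
  have hW2 : W ^ 2 = r ^ 4 + 2 * r ^ 3 - r ^ 2 + 10 * r + 25 := by
    rw [← sub_eq_zero]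
    apply (mul_eq_zero.mp _).resolve_left (pow_ne_zero 2 hQ)
    linear_combination (W * (r ^ 4 - r ^ 3 + 2 * r ^ 2 + r + 1) + g * r) * hW + r ^ 2 * hgg + hfac
  obtain ⟨X, hX⟩ : ∃ X : F, X * r ^ 2 = 10 * (W + 5) + 10 * r :=
    ⟨(10 * (W + 5) + 10 * r) / r ^ 2, by field_simp⟩
  obtain ⟨Y, hY⟩ : ∃ Y : F, Y * r = 10 * X - 20 := ⟨(10 * X - 20) / r, by field_simp⟩
  have hr2 : r ^ 2 ≠ 0 := pow_ne_zero 2 hr0
  have hqq : (X ^ 2 - 100) * r ^ 2 - (20 * X + 200) * r - (100 * X - 200) = 0 := by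
    apply (mul_eq_zero.mp _).resolve_left hr2
    have hW' : W = (X * r ^ 2 - 10 * r) / 10 - 5 := by
      linear_combination -hX / 10
    rw [hW'] at hW2
    linear_combination 100 * hW2
  have hcurve : (Y + X + 10) ^ 2 = (X - 5) * (X + 10) * (X - 6) := by
    rw [← sub_eq_zero]
    apply (mul_eq_zero.mp _).resolve_left hr2
    linear_combination -(X - 2) * hqq + (Y * r + 10 * X - 20 + 2 * (X + 10) * r) * hY
  refine ⟨9 * X - 3, 27 * (Y + X + 10), r, m, ?_, ?_, hm3⟩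
  · linear_combination 729 * hcurve
  · exact { r0 := hr0
            A := by linear_combination 27 * hY
            B := by
              apply mul_right_cancel₀ hr0
              linear_combination 81 * hqq - 810 * hY
            M := hm' }

end Pool.Agent.H23T
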