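import Pool.Agent.H23T.Main1

/-! # Integral points of `X₀(15)` over a valued field which are close to a rational point
(helper23) -/

namespace Pool.Agent.H23T

open WeierstrassCurve WeierstrassCurve.Affine Pool.Agent.GE

variable {L : Type*} [Field L] {Γ₀ : Type*} [LinearOrderedCommGroupWithZero Γ₀]
  {v : Valuation L Γ₀} {W : Affine L} [W.IsShortNF]

lemma mul_lt_one'' {a b : Γ₀} (ha : a ≤ 1) (hb : b < 1) : a * b < 1 := by
  rw [mul_comm]; exact mul_lt_one_of_lt_of_le hb ha

lemma lt_one_of_mul_unit {a b : L} (h : v (a * b) < 1) (hb : v b = 1) : v a < 1 := by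
  rwa [v.map_mul, hb, mul_one] at h

/-- the value of `h₅` near a noncuspidal point -/
lemma h_near {x h D x₀ h₀ D₀ : L} (hD : h * D = -27000 * (x + 21))
    (hD₀ : h₀ * D₀ = -27000 * (x₀ + 21)) (hh₀ : v h₀ ≤ 1) (hx : v (x - x₀) < 1)
    (hDD : v (D - D₀) < 1) (hD1 : v D₀ = 1) : v (h - h₀) < 1 := by
  have hDu : v D = 1 := unit_add hDD hD1 (by ring)
  refine lt_one_of_mul_unit (b := D) ?_ hDu
  have h1 : (h - h₀) * D = -(27000 * (x - x₀)) + -(h₀ * (D - D₀)) := by
    linear_combination hD - hD₀
  rw [h1]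
  refine v.map_add_lt ?_ ?_
  · rw [v.map_neg]; exact small_mul' (by repeat' first | assumption | exact Ione | exact Izero | exact IofNat _ | exact Inat _ | apply Iadd | apply Isub | apply Ineg | apply Ipow | apply Imul) hx
  · rw [v.map_neg]; exact small_mul' hh₀ hDD

lemma D_near {x y x₀ y₀ : L} (hx₀ : v x₀ ≤ 1) (hxi : v x ≤ 1) (hyi : v y ≤ 1)
    (hx : v (x - x₀) < 1) (hy : v (y - y₀) < 1) :
    v ((9 * (x + 21) * (x + 177) + (x - 15) * y) -
      (9 * (x₀ + 21) * (x₀ + 177) + (x₀ - 15) * y₀)) < 1 := by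
  refine small_add (e := (x - x₀) * (9 * (x + x₀ + 198) + y)) (n := (y - y₀) * (x₀ - 15))
    (small_mul hx ?_) (small_mul hy ?_) (by ring)
  · repeat' first | assumption | exact Ione | exact Izero | exact IofNat _ | exact Inat _ | apply Iadd | apply Isub | apply Ineg | apply Ipow | apply Imul
  · repeat' first | assumption | exact Ione | exact Izero | exact IofNat _ | exact Inat _ | apply Iadd | apply Isub | apply Ineg | apply Ipow | apply Imul

variable [DecidableEq L] [CharZero L]

/-- points where `j` is integral and which are close to a rational point -/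
theorem near1 (g : Good v) (i : Is1 W) {x y h j : L} (hxy : W.Nonsingular x y)
    (f : Fun1 x y h j) (hj : v j ≤ 1) {c : W.Point} (hc : IsPt1 c) {ρ : Γ₀} (hρ : ρ < 1)
    (hP : InBall v ρ (Point.some x y hxy - c)) (hcc : InBall v ρ (c + c) → c + c = 0) :
    ∃ z : L, Six z ∧ v (j - z) < 1 := by
  -- a contradiction when `h` is not a unit
  have hsmall : ¬ v h < 1 := by
    intro hh
    have h1 := j5_lt g f.J hh
    have h2 : v j * v h < 1 := mul_lt_one'' hj hh
    rw [h1] at h2
    exact lt_irrefl _ h2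
  have hlarge : ¬ 1 < v h := by
    intro hh
    have h1 := j5_gt f.J hh
    rw [h1] at hj
    exact absurd (one_lt_pow₀ hh (by norm_num)) (not_lt.mpr hj)
  have g2 : (2 : L) ≠ 0 := (v.ne_zero_iff).mp (by rw [g.two]; exact one_ne_zero)
  rcases hc with rfl | ⟨a, b, hab, rfl, hT⟩
  · rw [sub_zero] at hP
    have hx := one_lt_of_inBall (i.a4 v) (i.a6 v) hxy hρ hP
    have h1 := c1_zero g i hxy f.D hx
    have hsq := val_y_sq (i.a4 v) (i.a6 v) hxy hx
    exfalso
    apply hsmall
    by_contra hcon
    push Not at hcon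
    have hy1 : 1 < v y := by
      have : 1 < v y ^ 2 := by rw [hsq]; exact one_lt_pow₀ hx (by norm_num)
      by_contra hcon
      exact absurd this (not_lt.mpr (pow_le_one' (not_lt.mp hcon) 2))
    have : 1 < v h * v y := lt_of_lt_of_le hy1 (le_mul_of_one_le_left' hcon)
    rw [h1] at this
    exact lt_irrefl _ this
  · have hai : v a ≤ 1 := by
      rcases hT with ⟨h1, -⟩ | ⟨h1, -⟩ | ⟨h1, -⟩ | ⟨h1, -⟩ | ⟨h1, -⟩ <;>
        · rw [h1]; repeat' first | assumption | exact Ione | exact Izero | exact IofNat _ | exact Inat _ | apply Iadd | apply Isub | apply Ineg | apply Ipow | apply Imul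
    have hbi : v b ≤ 1 := val_y_le (i.a4 v) (i.a6 v) hab hai
    obtain ⟨x', y', h', he, hx, hxa, hyb⟩ := near_of_sub (i.a4 v) (i.a6 v) hab hai hρ hP hcc
    rw [Point.some.injEq] at he
    obtain ⟨rfl, rfl⟩ := he
    have hyi : v y ≤ 1 := val_y_le (i.a4 v) (i.a6 v) hxy hx
    have hDD := D_near hai hx hyi hxa hyb
    -- the noncuspidal points
    have fin : ∀ (h₀ j₀ : L), h₀ * (9 * (a + 21) * (a + 177) + (a - 15) * b) =
        -27000 * (a + 21) → v h₀ = 1 → v (9 * (a + 21) * (a + 177) + (a - 15) * b) = 1 →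
        v j₀ ≤ 1 → j₀ * h₀ = (h₀ ^ 2 + 10 * h₀ + 5) ^ 3 → Six j₀ →
        ∃ z : L, Six z ∧ v (j - z) < 1 := by
      intro h₀ j₀ k1 k2 k3 k4 k5 k6
      exact ⟨j₀, k6, j5_near f.J k2 k4 k5 (h_near f.D k1 k2.le hxa hDD k3)⟩
    have hinv2 : v ((2 : L)⁻¹) = 1 := by rw [map_inv₀, g.two, inv_one]
    rcases hT with ⟨h1, h2⟩ | ⟨h1, h2⟩ | ⟨h1, h2⟩ | ⟨h1, h2 | h2⟩ | ⟨h1, h2 | h2⟩
    · -- (-102, 0)
      subst h1 h2
      refine fin (-40) (-349938025 * (2 : L)⁻¹ ^ 3) (by ring) (g.neg_num 3 0 1 (by norm_num))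
        (g.neg_num 0 7 2 (by norm_num)) ?_ ?_ ?_
      · have := hinv2.le
        repeat' first | assumption | exact Ione | exact Izero | exact IofNat _ | exact Inat _ | apply Iadd | apply Isub | apply Ineg | apply Ipow | apply Imul
      · field_simp; norm_num
      · right; left; field_simp; norm_num
    · -- (-21, 0)
      subst h1 h2
      rw [sub_neg_eq_add] at hxa
      obtain ⟨-, h3, h4, -⟩ := c1_three g i hxy f.D f.x21 hxa
      exact absurd (h3 ▸ h4) hsmall
    · -- (123, 0)
      subst h1 h2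
      refine fin (-10) (-25 * (2 : L)⁻¹) (by ring) (g.neg_num 1 0 1 (by norm_num))
        (g.num 6 5 2 (by norm_num)) ?_ ?_ ?_
      · have := hinv2.le
        repeat' first | assumption | exact Ione | exact Izero | exact IofNat _ | exact Inat _ | apply Iadd | apply Isub | apply Ineg | apply Ipow | apply Imul
      · field_simp; norm_num
      · left; field_simp
    · -- (303, 4860)
      subst h1 h2
      refine fin (-25 * (2 : L)⁻¹ ^ 3) (46969655 * (2 : L)⁻¹ ^ 15) ?_ ?_
        (g.num 8 7 1 (by norm_num)) ?_ ?_ ?_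
      · field_simp; norm_num
      · rw [v.map_mul, v.map_pow, hinv2, one_pow, mul_one]
        exact g.neg_num 0 0 2 (by norm_num)
      · have := hinv2.le
        repeat' first | assumption | exact Ione | exact Izero | exact IofNat _ | exact Inat _ | apply Iadd | apply Isub | apply Ineg | apply Ipow | apply Imul
      · field_simp; norm_num
      · right; right; right; left; field_simp; norm_num
    · -- (303, -4860)
      subst h1 h2
      exfalso
      rw [sub_neg_eq_add] at hyb
      have hy' : v (y - 4860) = 1 :=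
        unit_add hyb (n := -9720) (g.neg_num 3 5 1 (by norm_num)) (by ring)
      have h3 := c1_fifteen g i hxy f.D hxa hyi hy'
      apply hlarge
      by_contra hcon
      push Not at hcon
      have h4 : v h * v (x - 303) < 1 := mul_lt_one'' hcon hxa
      rw [h3] at h4
      exact lt_irrefl _ h4
    · -- (-57, 540)
      subst h1 h2
      refine fin (-25 * (2 : L)⁻¹) (-121945 * (2 : L)⁻¹ ^ 5) ?_ ?_
        (g.neg_num 6 5 1 (by norm_num)) ?_ ?_ ?_
      · field_simp; norm_num
      · rw [v.map_mul, hinv2, mul_one]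
        exact g.neg_num 0 0 2 (by norm_num)
      · have := hinv2.le
        repeat' first | assumption | exact Ione | exact Izero | exact IofNat _ | exact Inat _ | apply Iadd | apply Isub | apply Ineg | apply Ipow | apply Imul
      · field_simp; norm_num
      · right; right; left; field_simp; norm_num
    · -- (-57, -540)
      subst h1 h2
      exfalso
      rw [sub_neg_eq_add] at hyb hxa
      have hy' : v (y - 540) = 1 :=
        unit_add hyb (n := -1080) (g.neg_num 3 3 1 (by norm_num)) (by ring)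
      have h3 := c1_five g i hxy f.D hxa hyi hy'
      apply hlarge
      by_contra hcon
      push Not at hcon
      have h4 : v h * v (x + 57) ^ 3 < 1 :=
        mul_lt_one'' hcon (pow_lt_one₀ zero_le hxa (by norm_num))
      rw [h3] at h4
      exact lt_irrefl _ h4

end Pool.Agent.H23T
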