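import Pool.Agent.H23T.Final

/-! # The field of rational numbers satisfies the hypotheses (helper23) -/

namespace Pool.Agent.H23T

open NumberField WeierstrassCurve WeierstrassCurve.Affine Pool.Agent.GE Pool.Agent.H42M

lemma prime_span_rat {p : ℕ} (hp : p.Prime) : (Ideal.span {((p : ℕ) : 𝓞 ℚ)}).IsPrime := by
  have h0 : ((p : ℕ) : 𝓞 ℚ) ≠ 0 := by exact_mod_cast hp.ne_zero
  rw [Ideal.span_singleton_prime h0]
  have h1 : Prime (p : ℤ) := Nat.prime_iff_prime_int.mp hp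
  have h2 := (MulEquiv.prime_iff (Rat.ringOfIntegersEquiv : 𝓞 ℚ ≃+* ℤ)
    (p := ((p : ℕ) : 𝓞 ℚ)))
  rw [← h2]
  simpa using h1

lemma hyp_rat : Hyp ℚ := by
  refine hyp_mk ?_ ?_ ?_ ?_
  · rw [Rat.classNumber_eq]; exact odd_one
  · intro u hu
    have h1 := hu (algebraMap ℚ ℝ)
    have h2 : IsUnit (Rat.ringOfIntegersEquiv (u : 𝓞 ℚ)) := u.isUnit.map _
    rcases Int.isUnit_iff.mp h2 with h3 | h3
    · refine ⟨1, ?_⟩
      ext
      have h4 : (u : 𝓞 ℚ) = 1 := by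
        apply Rat.ringOfIntegersEquiv.injective
        rw [h3, map_one]
      rw [h4]; simp
    · exfalso
      have h4 : (u : 𝓞 ℚ) = -1 := by
        apply Rat.ringOfIntegersEquiv.injective
        rw [h3, map_neg, map_one]
      rw [h4] at h1
      norm_num at h1
  · refine ⟨Ideal.span {((3 : ℕ) : 𝓞 ℚ)}, ⊤, prime_span_rat Nat.prime_three, ?_, ?_⟩
    · rw [Ideal.top_pow, Ideal.mul_top]; norm_num
    · intro P hP hJ
      exact absurd (top_le_iff.mp hJ) hP.ne_top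
  · exact ⟨Ideal.span {((5 : ℕ) : 𝓞 ℚ)}, prime_span_rat Nat.prime_five, 1, odd_one,
      (pow_one _).symm⟩

lemma pts_of_rat {F : Type*} [Field F] [CharZero F] (h1 : ∀ x y : F,
      y ^ 2 = (x + 102) * (x + 21) * (x - 123) → ∃ a b : ℚ, x = a ∧ y = b)
    (h2 : ∀ x y : F,
      y ^ 2 = (x - 51) * (x - 42) * (x + 93) → ∃ a b : ℚ, x = a ∧ y = b) : Pts F := by
  constructor
  · intro x y hxy
    obtain ⟨a, b, rfl, rfl⟩ := h1 x y hxy
    have h3 : b ^ 2 = (a + 102) * (a + 21) * (a - 123) := by exact_mod_cast hxy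
    have h4 : Tab1 a b := points_E1 hyp_rat h3
    have h5 := h4.map (algebraMap ℚ F)
    simpa using h5
  · intro x y hxy
    obtain ⟨a, b, rfl, rfl⟩ := h2 x y hxy
    have h3 : b ^ 2 = (a - 51) * (a - 42) * (a + 93) := by exact_mod_cast hxy
    have h4 : Tab2 a b := points_E2 hyp_rat h3
    have h5 := h4.map (algebraMap ℚ F)
    simpa using h5

lemma rat_of_pts {F : Type*} [Field F] [CharZero F] (h : Pts F) :
    (∀ x y : F, y ^ 2 = (x + 102) * (x + 21) * (x - 123) → ∃ a b : ℚ, x = a ∧ y = b) ∧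
    (∀ x y : F, y ^ 2 = (x - 51) * (x - 42) * (x + 93) → ∃ a b : ℚ, x = a ∧ y = b) := by
  constructor
  · intro x y hxy
    rcases h.1 x y hxy with ⟨h1, h2⟩ | ⟨h1, h2⟩ | ⟨h1, h2⟩ | ⟨h1, h2 | h2⟩ | ⟨h1, h2 | h2⟩
    · exact ⟨-102, 0, by rw [h1]; norm_num, by rw [h2]; norm_num⟩
    · exact ⟨-21, 0, by rw [h1]; norm_num, by rw [h2]; norm_num⟩
    · exact ⟨123, 0, by rw [h1]; norm_num, by rw [h2]; norm_num⟩
    · exact ⟨303, 4860, by rw [h1]; norm_num, by rw [h2]; norm_num⟩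
    · exact ⟨303, -4860, by rw [h1]; norm_num, by rw [h2]; norm_num⟩
    · exact ⟨-57, 540, by rw [h1]; norm_num, by rw [h2]; norm_num⟩
    · exact ⟨-57, -540, by rw [h1]; norm_num, by rw [h2]; norm_num⟩
  · intro x y hxy
    rcases h.2 x y hxy with ⟨h1, h2⟩ | ⟨h1, h2⟩ | ⟨h1, h2⟩ | ⟨h1, h2 | h2⟩ | ⟨h1, h2 | h2⟩
    · exact ⟨51, 0, by rw [h1]; norm_num, by rw [h2]; norm_num⟩
    · exact ⟨42, 0, by rw [h1]; norm_num, by rw [h2]; norm_num⟩
    · exact ⟨-93, 0, by rw [h1]; norm_num, by rw [h2]; norm_num⟩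
    · exact ⟨87, 540, by rw [h1]; norm_num, by rw [h2]; norm_num⟩
    · exact ⟨87, -540, by rw [h1]; norm_num, by rw [h2]; norm_num⟩
    · exact ⟨15, 324, by rw [h1]; norm_num, by rw [h2]; norm_num⟩
    · exact ⟨15, -324, by rw [h1]; norm_num, by rw [h2]; norm_num⟩

end Pool.Agent.H23T
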