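import Pool.Agent.H23T.Ball

/-! # Distances between points of an elliptic curve over a valued field (helper23) -/

namespace Pool.Agent.H23T

open WeierstrassCurve WeierstrassCurve.Affine Pool.Agent.GE

variable {L : Type*} [Field L] {Γ₀ : Type*} [LinearOrderedCommGroupWithZero Γ₀]
  {v : Valuation L Γ₀} {W : Affine L}

/-- `P` is at distance exactly `s` from the origin -/
def Exact (v : Valuation L Γ₀) (s : Γ₀) (P : W.Point) : Prop :=
  InBall v s P ∧ ∀ ρ < s, ¬ InBall v ρ P

lemma inBall_some {x y : L} (h : W.Nonsingular x y) (ρ : Γ₀) :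
    InBall v ρ (Point.some x y h) ↔ v x ≤ ρ * v y ∧ 1 ≤ ρ * v y := by
  constructor
  · intro ⟨_, h2, h3⟩
    have h3' : v (1 : L) ≤ ρ * v y := h3
    rw [v.map_one] at h3'
    exact ⟨h2, h3'⟩
  · intro ⟨h2, h3⟩
    have hy : y ≠ 0 := by
      rintro rfl
      rw [v.map_zero, mul_zero] at h3
      exact absurd h3 (not_le.mpr zero_lt_one)
    refine ⟨hy, h2, ?_⟩
    change v (1 : L) ≤ ρ * v y
    rw [v.map_one]
    exact h3

variable [W.IsShortNF]

lemma val_y_le {x y : L} (ha : v W.a₄ ≤ 1) (hb : v W.a₆ ≤ 1) (h : W.Nonsingular x y)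
    (hx : v x ≤ 1) : v y ≤ 1 := by
  have e := eqn W h
  have h1 : v (y ^ 2) ≤ 1 := by
    rw [e]
    repeat' first | assumption | exact Ione | exact Izero | exact IofNat _ | exact Inat _ | apply Iadd | apply Isub | apply Ineg | apply Ipow | apply Imul
  rw [v.map_pow] at h1
  exact (pow_le_one_iff two_ne_zero).mp h1

lemma val_y_sq {x y : L} (ha : v W.a₄ ≤ 1) (hb : v W.a₆ ≤ 1) (h : W.Nonsingular x y)
    (hx : 1 < v x) : v y ^ 2 = v x ^ 3 := by
  have e := eqn W h
  have h0 : 0 < v x := zero_lt_one.trans hx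
  have hx3 : v (W.a₄ * x + W.a₆) < v (x ^ 3) := by
    have h1 : v (W.a₄ * x + W.a₆) ≤ v x := by
      refine v.map_add_le ?_ (hb.trans hx.le)
      exact Jmul' ha le_rfl
    refine h1.trans_lt ?_
    rw [v.map_pow]
    calc v x = v x * 1 := (mul_one _).symm
      _ < v x * v x ^ 2 := by
        refine mul_lt_mul_of_pos_left (one_lt_pow₀ hx two_ne_zero) h0
      _ = v x ^ 3 := by rw [← pow_succ']
  rw [← v.map_pow, e, add_assoc, v.map_add_eq_of_lt_left hx3, v.map_pow]

/-- a point with nonintegral coordinates -/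
lemma exact_some {x y : L} (ha : v W.a₄ ≤ 1) (hb : v W.a₆ ≤ 1) (h : W.Nonsingular x y)
    (hx : 1 < v x) : Exact v (v x / v y) (Point.some x y h) ∧ v x / v y < 1 ∧
      (v x / v y) ^ 2 * v x = 1 := by
  have h0 : 0 < v x := zero_lt_one.trans hx
  have hsq := val_y_sq ha hb h hx
  have hy0 : 0 < v y := by
    rw [zero_lt_iff]
    intro hy
    rw [hy, zero_pow two_ne_zero] at hsq
    exact (pow_pos h0 3).ne hsq
  have hxy : v x < v y := by
    refine lt_of_pow_lt_pow_left₀ 2 hy0.le ?_
    rw [hsq]
    exact pow_lt_pow_right₀ hx (by norm_num)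
  refine ⟨⟨?_, ?_⟩, ?_, ?_⟩
  · rw [inBall_some, div_mul_cancel₀ _ hy0.ne']
    exact ⟨le_rfl, hx.le⟩
  · intro ρ hρ hP
    rw [inBall_some] at hP
    rw [lt_div_iff₀ hy0] at hρ
    exact absurd hP.1 (not_le.mpr hρ)
  · rwa [div_lt_one₀ hy0]
  · rw [div_pow, hsq, div_mul_eq_mul_div, ← pow_succ, div_self (pow_pos h0 3).ne']

lemma one_lt_of_inBall {x y : L} (ha : v W.a₄ ≤ 1) (hb : v W.a₆ ≤ 1) (h : W.Nonsingular x y)
    {ρ : Γ₀} (hρ : ρ < 1) (hP : InBall v ρ (Point.some x y h)) : 1 < v x := by
  by_contra hx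
  push Not at hx
  have hy := val_y_le ha hb h hx
  rw [inBall_some] at hP
  refine absurd hP.2 (not_le.mpr ?_)
  exact mul_lt_one_of_lt_of_le hρ hy

variable [DecidableEq L]

lemma sub_coords {x y a b : L} (hP : W.Nonsingular x y) (hc : W.Nonsingular a b) (hx : x ≠ a) :
    ∃ (l x' y' : L) (h' : W.Nonsingular x' y'), l = (y + b) / (x - a) ∧ x' = l ^ 2 - x - a ∧
      y' = l * (x - x') - y ∧
      Point.some x y hP - Point.some a b hc = Point.some x' y' h' := by
  rw [sub_eq_add_neg (Point.some x y hP), Point.neg_some]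
  refine ⟨W.slope x a y (W.negY a b), _, _, _, ?_, ?_, ?_, Point.add_of_X_ne hx⟩
  · rw [slope_of_X_ne hx, negY_eq, sub_neg_eq_add]
  · rw [addX, a₁_of_isShortNF, a₂_of_isShortNF]; ring
  · rw [addY, negY_eq, negAddY]; ring

/-- the distance between two integral points with the same reduction -/
lemma sub_near {x y a b : L} (hP : W.Nonsingular x y) (hc : W.Nonsingular a b) (hx : x ≠ a)
    (hxi : v x ≤ 1) (hai : v a ≤ 1) (hyi : v y ≤ 1) (hlt : v (x - a) < v (y + b)) :
    Exact v (v (x - a) / v (y + b)) (Point.some x y hP - Point.some a b hc) := by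
  obtain ⟨l, x', y', h', hl, hx', hy', he⟩ := sub_coords hP hc hx
  have hxa : 0 < v (x - a) := zero_lt_iff.mpr ((v.ne_zero_iff).mpr (sub_ne_zero.mpr hx))
  have hyb : 0 < v (y + b) := hxa.trans hlt
  have hvl : v l = v (y + b) / v (x - a) := by rw [hl, map_div₀]
  have hl1 : 1 < v l := by rw [hvl]; exact (one_lt_div₀ hxa).mpr hlt
  have hl0 : 0 < v l := zero_lt_one.trans hl1
  have hs : v (x - a) / v (y + b) = (v l)⁻¹ := by rw [hvl, inv_div]
  have hl2 : 1 < v l ^ 2 := one_lt_pow₀ hl1 two_ne_zero
  have hvx : v x' = v l ^ 2 := by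
    rw [hx', sub_sub, ← v.map_pow]
    apply v.map_sub_eq_of_lt_left
    rw [v.map_pow]
    exact (Iadd hxi hai).trans_lt hl2
  have hvxx : v (x - x') = v l ^ 2 := by
    rw [← hvx]
    apply v.map_sub_eq_of_lt_right
    rw [hvx]
    exact hxi.trans_lt hl2
  have hvy : v y' = v l ^ 3 := by
    rw [hy']
    have h3 : v (l * (x - x')) = v l ^ 3 := by rw [v.map_mul, hvxx, ← pow_succ']
    rw [← h3]
    apply v.map_sub_eq_of_lt_left
    rw [h3]
    exact hyi.trans_lt (one_lt_pow₀ hl1 (by norm_num))
  rw [hs, he]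
  refine ⟨?_, ?_⟩
  · rw [inBall_some, hvx, hvy]
    have : (v l)⁻¹ * v l ^ 3 = v l ^ 2 := by
      rw [pow_succ' (v l) 2, ← mul_assoc, inv_mul_cancel₀ hl0.ne', one_mul]
    rw [this]
    exact ⟨le_rfl, hl2.le⟩
  · intro ρ hρ hb
    rw [inBall_some, hvx, hvy] at hb
    have h1 : ρ * v l ^ 3 < v l ^ 2 := by
      calc ρ * v l ^ 3 < (v l)⁻¹ * v l ^ 3 := mul_lt_mul_of_pos_right hρ (pow_pos hl0 3)
        _ = v l ^ 2 := by
          rw [pow_succ' (v l) 2, ← mul_assoc, inv_mul_cancel₀ hl0.ne', one_mul]
    exact absurd hb.1 (not_le.mpr h1)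

/-- points near an integral point have the same reduction -/
lemma near_of_sub {a b : L} (ha : v W.a₄ ≤ 1) (hb : v W.a₆ ≤ 1) (hc : W.Nonsingular a b)
    (hai : v a ≤ 1) {ρ : Γ₀} (hρ : ρ < 1) {P : W.Point}
    (hP : InBall v ρ (P - Point.some a b hc))
    (hcc : InBall v ρ (Point.some a b hc + Point.some a b hc) →
      Point.some a b hc + Point.some a b hc = 0) :
    ∃ (x y : L) (h : W.Nonsingular x y), P = Point.some x y h ∧ v x ≤ 1 ∧ v (x - a) < 1 ∧
      v (y - b) < 1 := by
  have hbi : v b ≤ 1 := val_y_le ha hb hc hai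
  match P, hP with
  | 0, hP =>
    rw [zero_sub] at hP
    have h1 := hP.neg
    rw [neg_neg] at h1
    exact absurd (one_lt_of_inBall ha hb hc hρ h1) (not_lt.mpr hai)
  | .some x y h, hP =>
    refine ⟨x, y, h, rfl, ?_⟩
    have e1 := eqn W h
    have e2 := eqn W hc
    by_cases hx : x = a
    · subst hx
      have hy : y = b ∨ y = -b := by
        rw [← sq_eq_sq_iff_eq_or_eq_neg, e1, e2]
      have hyb : y = b := by
        rcases hy with hy | hy
        · exact hy
        · have hPc : Point.some x y h = -Point.some x b hc := by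
            rw [Point.neg_some, Point.some.injEq, negY_eq]
            exact ⟨rfl, hy⟩
          rw [hPc, ← neg_add'] at hP
          have h1 := hP.neg
          rw [neg_neg] at h1
          have h2 := hcc h1
          rw [← eq_neg_iff_add_eq_zero, Point.neg_some, Point.some.injEq, negY_eq] at h2
          rw [hy]
          exact h2.2.symm
      subst hyb
      refine ⟨hai, ?_, ?_⟩ <;> simp
    · obtain ⟨l, x', y', h', hl, hx', hy', he⟩ := sub_coords h hc hx
      rw [he] at hP
      have h1x' := one_lt_of_inBall ha hb h' hρ hP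
      have hxa0 : x - a ≠ 0 := sub_ne_zero.mpr hx
      have hxa : 0 < v (x - a) := zero_lt_iff.mpr ((v.ne_zero_iff).mpr hxa0)
      by_cases hxi : v x ≤ 1
      · have hyi := val_y_le ha hb h hxi
        have hl1 : 1 < v l := by
          by_contra hcon
          push Not at hcon
          refine absurd h1x' (not_lt.mpr ?_)
          rw [hx']
          repeat' first | assumption | exact Ione | exact Izero | exact IofNat _ | exact Inat _ | apply Iadd | apply Isub | apply Ineg | apply Ipow | apply Imul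
        have hlt : v (x - a) < v (y + b) := by
          rw [hl, map_div₀] at hl1
          exact (one_lt_div₀ hxa).mp hl1
        refine ⟨hxi, hlt.trans_le (Iadd hyi hbi), ?_⟩
        have h2 : v (y - b) * v (y + b) ≤ v (x - a) := by
          rw [← v.map_mul]
          have : (y - b) * (y + b) = (x - a) * (x ^ 2 + x * a + a ^ 2 + W.a₄) := by
            linear_combination e1 - e2
          rw [this]
          refine Jmul le_rfl ?_
          repeat' first | assumption | exact Ione | exact Izero | exact IofNat _ | exact Inat _ | apply Iadd | apply Isub | apply Ineg | apply Ipow | apply Imul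
        by_contra hcon
        push Not at hcon
        have h3 : v (y + b) ≤ v (y - b) * v (y + b) := le_mul_of_one_le_left' hcon
        exact absurd (h3.trans h2) (not_le.mpr hlt)
      · exfalso
        push Not at hxi
        have h0 : 0 < v x := zero_lt_one.trans hxi
        have hsq := val_y_sq ha hb h hxi
        have hvy : v y < v x ^ 2 := by
          refine lt_of_pow_lt_pow_left₀ 2 (pow_pos h0 2).le ?_
          rw [hsq, ← pow_mul]
          exact pow_lt_pow_right₀ hxi (by norm_num)
        have hvxa : v (x - a) = v x := v.map_sub_eq_of_lt_left (hai.trans_lt hxi)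
        have hx2 : v x ≤ v x ^ 2 := by
          rw [sq]; exact le_mul_of_one_le_left' hxi.le
        have h12 : 1 ≤ v x ^ 2 := hxi.le.trans hx2
        have hkey : x' * (x - a) ^ 2 = (W.a₄ + a ^ 2) * x + (W.a₆ + b ^ 2 - a ^ 3) + (2 * b) * y +
            a * x ^ 2 := by
          have hl' : l * (x - a) = y + b := by rw [hl, div_mul_cancel₀ _ hxa0]
          rw [hx']
          linear_combination (l * (x - a) + (y + b)) * hl' + e1
        have h3 : v (x' * (x - a) ^ 2) ≤ v x ^ 2 := by
          rw [hkey]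
          refine Jadd (Jadd (Jadd (Jmul' ?_ hx2) ?_) (Jmul' ?_ hvy.le)) (Jmul' hai ?_)
          · repeat' first | assumption | exact Ione | exact Izero | exact IofNat _ | exact Inat _ | apply Iadd | apply Isub | apply Ineg | apply Ipow | apply Imul
          · refine le_trans ?_ h12
            repeat' first | assumption | exact Ione | exact Izero | exact IofNat _ | exact Inat _ | apply Iadd | apply Isub | apply Ineg | apply Ipow | apply Imul
          · repeat' first | assumption | exact Ione | exact Izero | exact IofNat _ | exact Inat _ | apply Iadd | apply Isub | apply Ineg | apply Ipow | apply Imul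
          · rw [v.map_pow]
        rw [v.map_mul, v.map_pow, hvxa] at h3
        have h4 : v x' ≤ 1 := by
          have h5 : v x' * v x ^ 2 ≤ 1 * v x ^ 2 := by rw [one_mul]; exact h3
          exact le_of_mul_le_mul_right h5 (pow_pos h0 2)
        exact absurd h1x' (not_lt.mpr h4)

end Pool.Agent.H23T
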